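import Mathlib

set_option autoImplicit false

open MeasureTheory Set Metric Real Complex ComplexConjugate

namespace Pool.Agent.Lib.MP_435399_an

lemma integrableOn_polar {F : ℂ → ℂ} (hF : Integrable F) :
    IntegrableOn (fun p : ℝ × ℝ => p.1 • F (Complex.polarCoord.symm p)) polarCoord.target := by
  have h1 : Integrable (fun q : ℝ × ℝ => F (Complex.measurableEquivRealProd.symm q)) :=
    ((Complex.volume_preserving_equiv_real_prod.symm).integrable_comp_emb
      Complex.measurableEquivRealProd.symm.measurableEmbedding).mpr hF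
  have h2 := (integrableOn_image_iff_integrableOn_abs_det_fderiv_smul volume
    polarCoord.open_target.measurableSet
    (fun p _ => (hasFDerivAt_polarCoord_symm p).hasFDerivWithinAt) polarCoord.symm.injOn
    (fun q : ℝ × ℝ => F (Complex.measurableEquivRealProd.symm q))).mp h1.integrableOn
  refine h2.congr_fun (fun p hp => ?_) polarCoord.open_target.measurableSet
  simp only [det_fderivPolarCoordSymm]
  rw [abs_of_pos hp.1]
  rfl

lemma polar {F : ℂ → ℂ} (hF : Integrable F) :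
    ∫ w, F w = ∫ s in Ioi (0 : ℝ), (2 * π * s) • circleAverage F 0 s := by
  rw [← Complex.integral_comp_polarCoord_symm]
  have h := integrableOn_polar hF
  rw [polarCoord_target] at h ⊢
  rw [Measure.volume_eq_prod] at h ⊢
  rw [setIntegral_prod _ h]
  refine setIntegral_congr_fun measurableSet_Ioi fun s _ => ?_
  simp only
  rw [integral_smul, circleAverage_eq_integral_add (-π), smul_smul]
  have e : 2 * π * s * (2 * π)⁻¹ = s := by field_simp
  rw [e]
  congr 1
  rw [intervalIntegral.integral_comp_add_right (fun θ => F (circleMap 0 s θ)) (-π),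
    ← integral_Ioc_eq_integral_Ioo, ← intervalIntegral.integral_of_le (by linarith [pi_pos])]
  have e1 : (0 : ℝ) + -π = -π := by ring
  have e2 : 2 * π + -π = π := by ring
  rw [e1, e2]
  congr 1
  ext θ
  congr 1
  simp [circleMap, Complex.exp_mul_I]

lemma polar_radial {F : ℂ → ℂ} {R : Set ℝ} (hR : MeasurableSet R)
    (hF : IntegrableOn F {w : ℂ | ‖w‖ ∈ R}) :
    ∫ w in {w : ℂ | ‖w‖ ∈ R}, F w = ∫ s in Ioi (0 : ℝ) ∩ R, (2 * π * s) • circleAverage F 0 s := by
  have hm : MeasurableSet {w : ℂ | ‖w‖ ∈ R} := measurable_norm hR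
  rw [← integral_indicator hm, polar ((integrable_indicator_iff hm).mpr hF),
    ← setIntegral_indicator hR]
  refine setIntegral_congr_fun measurableSet_Ioi fun s hs => ?_
  have hs' : |s| = s := abs_of_pos hs
  by_cases h : s ∈ R
  · simp only [indicator_of_mem h]
    congr 1
    refine circleAverage_congr_sphere fun w hw => ?_
    rw [hs', mem_sphere_zero_iff_norm] at hw
    exact indicator_of_mem (by simpa [hw] using h) _
  · simp only [indicator_of_notMem h]
    have : circleAverage (indicator {w : ℂ | ‖w‖ ∈ R} F) 0 s = circleAverage (fun _ => (0 : ℂ)) 0 s := by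
      refine circleAverage_congr_sphere fun w hw => ?_
      rw [hs', mem_sphere_zero_iff_norm] at hw
      exact indicator_of_notMem (by simpa [hw] using h) _
    rw [this, circleAverage_const, smul_zero]

lemma polar_ball {F : ℂ → ℂ} (hF : IntegrableOn F (ball (0 : ℂ) 1)) :
    ∫ w in ball (0 : ℂ) 1, F w = ∫ s in Ioo (0 : ℝ) 1, (2 * π * s) • circleAverage F 0 s := by
  have e : ball (0 : ℂ) 1 = {w : ℂ | ‖w‖ ∈ Iio (1 : ℝ)} := by
    ext w; simp
  rw [e] at hF ⊢
  rw [polar_radial measurableSet_Iio hF]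
  rfl

lemma conj_eq_of_norm {w : ℂ} {s : ℝ} (hs : 0 < s) (hw : ‖w‖ = s) : conj w = (s : ℂ) ^ 2 / w := by
  have hw0 : w ≠ 0 := by
    intro h; rw [h, norm_zero] at hw; exact hs.ne hw
  rw [eq_div_iff hw0, mul_comm, Complex.mul_conj', hw]

lemma norm_one_sub_mul_ge {a w : ℂ} (hw : ‖w‖ ≤ 1) : 1 - ‖a‖ ≤ ‖1 - a * w‖ := by
  have h1 : ‖a * w‖ ≤ ‖a‖ := by
    rw [norm_mul]; exact mul_le_of_le_one_right (norm_nonneg _) hw
  have h2 := norm_sub_norm_le (1 : ℂ) (a * w)
  rw [norm_one] at h2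
  linarith

lemma norm_kernel_le {a w : ℂ} (ha : ‖a‖ < 1) (hw : ‖w‖ ≤ 1) :
    ‖((1 - a * w) ^ 2)⁻¹‖ ≤ ((1 - ‖a‖) ^ 2)⁻¹ := by
  rw [norm_inv, norm_pow]
  have h0 : 0 < 1 - ‖a‖ := by linarith
  exact inv_anti₀ (by positivity) (pow_le_pow_left₀ h0.le (norm_one_sub_mul_ge hw) 2)

lemma integrableOn_mul_kernel {v : ℂ → ℂ} (hv : IntegrableOn v (ball (0 : ℂ) 1)) {a : ℂ}
    (ha : ‖a‖ < 1) : IntegrableOn (fun w => v w * ((1 - a * conj w) ^ 2)⁻¹) (ball (0 : ℂ) 1) := by
  refine Integrable.mul_bdd (c := ((1 - ‖a‖) ^ 2)⁻¹) hv ?_ ?_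
  · exact Measurable.aestronglyMeasurable (by fun_prop)
  · refine (ae_restrict_iff' measurableSet_ball).mpr (Filter.Eventually.of_forall fun w hw => ?_)
    refine norm_kernel_le ha ?_
    rw [Complex.norm_conj]
    exact (mem_ball_zero_iff.mp hw).le

/-- The reproducing formula of the Bergman kernel. -/
theorem reproducing {g : ℂ → ℂ} (hg : DifferentiableOn ℂ g (ball 0 1))
    (hi : IntegrableOn g (ball (0 : ℂ) 1)) {a : ℂ} (ha : ‖a‖ < 1) :
    ∫ w in ball (0 : ℂ) 1, g w * ((1 - a * conj w) ^ 2)⁻¹ = π * g a := by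
  rw [polar_ball (integrableOn_mul_kernel hi ha)]
  set G : ℂ → ℂ := fun w => w * g w with hG
  have hGd : DifferentiableOn ℂ G (ball 0 1) := differentiableOn_id.mul hg
  have hp : ∀ s : ℝ, s ∈ Icc (0 : ℝ) 1 → ‖a * (s : ℂ) ^ 2‖ ≤ ‖a‖ * s ^ 2 := by
    intro s hs
    rw [norm_mul, norm_pow, Complex.norm_real, Real.norm_of_nonneg hs.1]
  have hp1 : ∀ s : ℝ, s ∈ Icc (0 : ℝ) 1 → a * (s : ℂ) ^ 2 ∈ ball (0 : ℂ) 1 := by
    intro s hs
    rw [mem_ball_zero_iff]
    refine (hp s hs).trans_lt (lt_of_le_of_lt ?_ ha)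
    exact mul_le_of_le_one_right (norm_nonneg _) (pow_le_one₀ hs.1 hs.2)
  have h1 : ∀ s ∈ Ioo (0 : ℝ) 1,
      (2 * π * s) • circleAverage (fun w => g w * ((1 - a * conj w) ^ 2)⁻¹) 0 s
        = (2 * π * s) • deriv G (a * (s : ℂ) ^ 2) := by
    intro s hs
    congr 1
    have hps : a * (s : ℂ) ^ 2 ∈ ball (0 : ℂ) s := by
      rw [mem_ball_zero_iff]
      refine (hp s ⟨hs.1.le, hs.2.le⟩).trans_lt ?_
      have := norm_nonneg a
      nlinarith [hs.1, hs.2, mul_pos hs.1 hs.1]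
    rw [circleAverage_eq_circleIntegral hs.1.ne',
      ← Complex.two_pi_I_inv_smul_circleIntegral_sub_sq_inv_smul_of_differentiable isOpen_ball
        (closedBall_subset_ball hs.2) hGd hps]
    congr 1
    refine circleIntegral.integral_congr hs.1.le fun w hw => ?_
    have hw' : ‖w‖ = s := mem_sphere_zero_iff_norm.mp hw
    have hw0 : w ≠ 0 := by
      intro h; rw [h, norm_zero] at hw'; exact hs.1.ne hw'
    have hwp : w - a * (s : ℂ) ^ 2 ≠ 0 :=
      sub_ne_zero.mpr (Metric.sphere_disjoint_ball.ne_of_mem hw hps)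
    simp only [hG, smul_eq_mul, sub_zero]
    rw [conj_eq_of_norm hs.1 hw']
    have : 1 - a * ((s : ℂ) ^ 2 / w) = (w - a * (s : ℂ) ^ 2) / w := by field_simp
    rw [this]
    field_simp
  rw [setIntegral_congr_fun measurableSet_Ioo h1, ← integral_Ioc_eq_integral_Ioo,
    ← intervalIntegral.integral_of_le zero_le_one]
  have hderiv : ∀ s ∈ uIcc (0 : ℝ) 1, HasDerivAt (fun s : ℝ => (π : ℂ) * ((s : ℂ) ^ 2 * g (a * (s : ℂ) ^ 2)))
      ((2 * π * s) • deriv G (a * (s : ℂ) ^ 2)) s := by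
    intro s hs
    rw [uIcc_of_le zero_le_one] at hs
    have hga : DifferentiableAt ℂ g (a * (s : ℂ) ^ 2) :=
      hg.differentiableAt (isOpen_ball.mem_nhds (hp1 s hs))
    have e1 : deriv G (a * (s : ℂ) ^ 2)
        = g (a * (s : ℂ) ^ 2) + a * (s : ℂ) ^ 2 * deriv g (a * (s : ℂ) ^ 2) := by
      have : HasDerivAt G (1 * g (a * (s : ℂ) ^ 2) + a * (s : ℂ) ^ 2 * deriv g (a * (s : ℂ) ^ 2))
          (a * (s : ℂ) ^ 2) := (hasDerivAt_id (a * (s : ℂ) ^ 2)).mul hga.hasDerivAt
      rw [this.deriv, one_mul]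
    have e2 : HasDerivAt (fun z : ℂ => a * z ^ 2) (a * (2 * s)) (s : ℂ) := by
      simpa using (hasDerivAt_pow 2 (s : ℂ)).const_mul a
    have e3 : HasDerivAt (fun z : ℂ => g (a * z ^ 2))
        (deriv g (a * (s : ℂ) ^ 2) * (a * (2 * s))) (s : ℂ) := hga.hasDerivAt.comp (s : ℂ) e2
    have e4 := (((hasDerivAt_pow 2 (s : ℂ)).mul e3).const_mul (π : ℂ)).comp_ofReal
    refine e4.congr_deriv ?_
    rw [e1, Complex.real_smul]
    push_cast
    ring
  rw [intervalIntegral.integral_eq_sub_of_hasDerivAt hderiv]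
  · simp
  · refine ContinuousOn.intervalIntegrable ?_
    rw [uIcc_of_le zero_le_one]
    have c1 : ContinuousOn (fun s : ℝ => 2 * π * s) (Icc 0 1) := by fun_prop
    have c2 : ContinuousOn (fun s : ℝ => deriv G (a * (s : ℂ) ^ 2)) (Icc 0 1) :=
      (hGd.deriv isOpen_ball).continuousOn.comp (f := fun s : ℝ => a * (s : ℂ) ^ 2) (by fun_prop) hp1
    exact c1.smul c2

end Pool.Agent.Lib.MP_435399_an
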