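import Mathlib
import Pool.Agent.Lib.MP_435399_an.Polar

set_option autoImplicit false

open MeasureTheory Set Metric Real Complex ComplexConjugate

namespace Pool.Agent.Lib.MP_435399_an

/-- An integrable majorant on the plane. -/
noncomputable def phi (u : ℂ) : ℝ := (‖u‖ * (1 + ‖u‖) ^ 2)⁻¹

lemma phi_nonneg (u : ℂ) : 0 ≤ phi u := by unfold phi; positivity

lemma integrable_phi : Integrable phi := by
  have := (integrable_fun_norm_addHaar (μ := (volume : Measure ℂ))
    (f := fun y : ℝ => (y * (1 + y) ^ 2)⁻¹)).mpr ?_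
  · exact this
  · rw [Complex.finrank_real_complex]
    refine Integrable.mono' integrable_inv_one_add_sq.integrableOn
      (Measurable.aestronglyMeasurable (by fun_prop)) ?_
    refine (ae_restrict_iff' measurableSet_Ioi).mpr (Filter.Eventually.of_forall fun y hy => ?_)
    have hy' : 0 < y := hy
    have e : y ^ (2 - 1) • (y * (1 + y) ^ 2)⁻¹ = ((1 + y) ^ 2)⁻¹ := by
      simp only [smul_eq_mul]
      field_simp
      norm_num
    rw [e, Real.norm_of_nonneg (by positivity)]
    exact inv_anti₀ (by positivity) (by nlinarith)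

lemma integrableOn_div_sub {ψ : ℂ → ℂ} (hc : ContinuousOn ψ (ball 0 1))
    (hi : IntegrableOn ψ (ball (0 : ℂ) 1)) {l : ℂ} (hl : ‖l‖ < 1) :
    IntegrableOn (fun w => ψ w / (w - l)) (ball (0 : ℂ) 1) := by
  set η := (1 - ‖l‖) / 2 with hη
  have hη0 : 0 < η := by rw [hη]; linarith
  have hη1 : η ≤ 1 := by rw [hη]; linarith [norm_nonneg l]
  have hsub : closedBall l η ⊆ ball 0 1 := by
    intro w hw
    rw [mem_closedBall, dist_eq_norm] at hw
    rw [mem_ball_zero_iff]
    have := norm_add_le (w - l) l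
    rw [sub_add_cancel] at this
    linarith
  obtain ⟨M, hM⟩ := (isCompact_closedBall l η).exists_bound_of_continuousOn (hc.mono hsub)
  have hM0 : 0 ≤ M := (norm_nonneg _).trans (hM l (mem_closedBall_self hη0.le))
  have h1 : Integrable (fun w => 4 * M * phi (w - l) + ‖ψ w‖ / η)
      (volume.restrict (ball (0 : ℂ) 1)) :=
    (((integrable_phi.comp_sub_right l).const_mul _).integrableOn).add (hi.norm.div_const _)
  refine Integrable.mono' h1 ?_ (Filter.Eventually.of_forall fun w => ?_)
  · simp only [div_eq_mul_inv]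
    exact hi.aestronglyMeasurable.mul (Measurable.aestronglyMeasurable (by fun_prop))
  · have p1 : 0 ≤ 4 * M * phi (w - l) := mul_nonneg (by positivity) (phi_nonneg _)
    have p2 : 0 ≤ ‖ψ w‖ / η := by positivity
    rw [norm_div]
    by_cases hw : ‖w - l‖ ≤ η
    · rcases (norm_nonneg (w - l)).eq_or_lt with h0 | h0
      · rw [← h0, div_zero]; linarith
      · have e1 : ‖ψ w‖ ≤ M := hM w (by rwa [mem_closedBall, dist_eq_norm])
        have e2 : ‖ψ w‖ / ‖w - l‖ ≤ 4 * M * phi (w - l) := by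
          unfold phi
          rw [← div_eq_mul_inv, div_le_div_iff₀ h0 (by positivity)]
          have e3 : (1 + ‖w - l‖) ^ 2 ≤ 4 := by nlinarith
          calc ‖ψ w‖ * (‖w - l‖ * (1 + ‖w - l‖) ^ 2) ≤ M * (‖w - l‖ * 4) :=
                mul_le_mul e1 (mul_le_mul_of_nonneg_left e3 h0.le) (by positivity) hM0
            _ = 4 * M * ‖w - l‖ := by ring
        linarith
    · push Not at hw
      have : ‖ψ w‖ / ‖w - l‖ ≤ ‖ψ w‖ / η := div_le_div_of_nonneg_left (norm_nonneg _) hη0 hw.le
      linarith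

lemma diffContOnCl_ball_abs {G : ℂ → ℂ} {s : ℝ} (hs : 0 < s)
    (hG : ∀ w ∈ closedBall (0 : ℂ) s, DifferentiableAt ℂ G w) : DiffContOnCl ℂ G (ball 0 |s|) := by
  rw [abs_of_pos hs]
  refine DifferentiableOn.diffContOnCl ?_
  rw [closure_ball _ hs.ne']
  exact fun w hw => (hG w hw).differentiableWithinAt

/-- The Cauchy transform of an antiholomorphic function on the disc. -/
theorem cauchy_transform {f F : ℂ → ℂ} (hf : DifferentiableOn ℂ f (ball 0 1))
    (hi : IntegrableOn f (ball (0 : ℂ) 1)) (hF : ∀ z ∈ ball (0 : ℂ) 1, HasDerivAt F (f z) z)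
    (hF0 : F 0 = 0) {l : ℂ} (hl : ‖l‖ < 1) (hl0 : l ≠ 0) :
    ∫ w in ball (0 : ℂ) 1, conj (f w) / (w - l) = -π * conj (F l) := by
  have hic : IntegrableOn (fun w => conj (f w) / (w - l)) (ball (0 : ℂ) 1) :=
    integrableOn_div_sub (Complex.continuous_conj.comp_continuousOn hf.continuousOn)
      (Complex.conjCLE.toContinuousLinearMap.integrable_comp hi) hl
  have hi2 : IntegrableOn (fun w => f w / (conj w - conj l)) (ball (0 : ℂ) 1) := by
    have := Complex.conjCLE.toContinuousLinearMap.integrable_comp hic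
    refine IntegrableOn.congr_fun this (fun w _ => ?_) measurableSet_ball
    simp
  suffices h : ∫ w in ball (0 : ℂ) 1, f w / (conj w - conj l) = -π * F l by
    have := congrArg conj h
    rw [← integral_conj] at this
    simpa using this
  rw [polar_ball hi2]
  set r := ‖l‖ with hr
  have hr0 : 0 < r := norm_pos_iff.mpr hl0
  have hcl : conj l ≠ 0 := by simpa using hl0
  have hfa : ∀ {s : ℝ}, s < 1 → ∀ w ∈ closedBall (0 : ℂ) s, DifferentiableAt ℂ f w :=
    fun hs w hw => hf.differentiableAt (isOpen_ball.mem_nhds (closedBall_subset_ball hs hw))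
  have hnp : ∀ s : ℝ, ‖(s : ℂ) ^ 2 / conj l‖ = s ^ 2 / r := by
    intro s
    rw [norm_div, norm_pow, Complex.norm_real, Complex.norm_conj, Real.norm_eq_abs, sq_abs]
  have h1 : ∀ s ∈ Ioo (0 : ℝ) 1, s ≠ r →
      (2 * π * s) • circleAverage (fun w => f w / (conj w - conj l)) 0 s
        = indicator (Iio r) (fun s : ℝ => (2 * π * s) • (-(f ((s : ℂ) ^ 2 / conj l) / conj l))) s := by
    intro s hs hne
    rcases lt_or_gt_of_ne hne with hlt | hgt
    · rw [indicator_of_mem (show s ∈ Iio r from hlt)]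
      congr 1
      have hp : (s : ℂ) ^ 2 / conj l ∈ ball (0 : ℂ) |s| := by
        rw [mem_ball_zero_iff, hnp, abs_of_pos hs.1, div_lt_iff₀ hr0]
        nlinarith [hs.1]
      have := DiffContOnCl.circleAverage_smul_div (f := fun w => -(f w / conj l)) (c := 0) (R := s)
        (diffContOnCl_ball_abs hs.1 fun w hw => ((hfa hs.2 w hw).div_const _).neg) hp
      rw [← this]
      refine circleAverage_congr_sphere fun w hw => ?_
      have hwp : w - (s : ℂ) ^ 2 / conj l ≠ 0 :=
        sub_ne_zero.mpr (Metric.sphere_disjoint_ball.ne_of_mem hw hp)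
      rw [abs_of_pos hs.1, mem_sphere_zero_iff_norm] at hw
      have hw0 : w ≠ 0 := by
        intro h; rw [h, norm_zero] at hw; exact hs.1.ne hw
      simp only [smul_eq_mul, sub_zero]
      rw [conj_eq_of_norm hs.1 hw]
      have : (s : ℂ) ^ 2 / w - conj l = -((w - (s : ℂ) ^ 2 / conj l) * conj l / w) := by
        field_simp; ring
      rw [this]
      field_simp
    · rw [indicator_of_notMem (show s ∉ Iio r from not_lt.mpr hgt.le)]
      have hne0 : ∀ w ∈ closedBall (0 : ℂ) s, (s : ℂ) ^ 2 - conj l * w ≠ 0 := by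
        intro w hw h
        rw [mem_closedBall_zero_iff] at hw
        have e := congrArg norm (sub_eq_zero.mp h)
        rw [norm_pow, Complex.norm_real, Real.norm_of_nonneg hs.1.le, norm_mul,
          Complex.norm_conj] at e
        have : r * ‖w‖ ≤ r * s := mul_le_mul_of_nonneg_left hw hr0.le
        nlinarith [hs.1]
      have := DiffContOnCl.circleAverage (f := fun w => w * f w / ((s : ℂ) ^ 2 - conj l * w))
        (c := 0) (R := s) (diffContOnCl_ball_abs hs.1 fun w hw =>
          (differentiableAt_id.mul (hfa hs.2 w hw)).div (by fun_prop) (hne0 w hw))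
      have e : circleAverage (fun w => f w / (conj w - conj l)) 0 s
          = circleAverage (fun w => w * f w / ((s : ℂ) ^ 2 - conj l * w)) 0 s := by
        refine circleAverage_congr_sphere fun w hw => ?_
        rw [abs_of_pos hs.1] at hw
        have h2 := hne0 w (sphere_subset_closedBall hw)
        rw [mem_sphere_zero_iff_norm] at hw
        have hw0 : w ≠ 0 := by
          intro h; rw [h, norm_zero] at hw; exact hs.1.ne hw
        rw [conj_eq_of_norm hs.1 hw]
        have : (s : ℂ) ^ 2 / w - conj l = ((s : ℂ) ^ 2 - conj l * w) / w := by field_simp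
        rw [this]
        field_simp
      rw [e, this]
      simp
  have h2 : ∀ᵐ s : ℝ, s ∈ Ioo (0 : ℝ) 1 →
      (2 * π * s) • circleAverage (fun w => f w / (conj w - conj l)) 0 s
        = indicator (Iio r) (fun s : ℝ => (2 * π * s) • (-(f ((s : ℂ) ^ 2 / conj l) / conj l))) s := by
    filter_upwards [Measure.ae_ne volume r] with s hs hs1 using h1 s hs1 hs
  rw [setIntegral_congr_ae measurableSet_Ioo h2, setIntegral_indicator measurableSet_Iio]
  have e : Ioo (0 : ℝ) 1 ∩ Iio r = Ioo 0 r := by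
    ext s
    simp only [mem_inter_iff, mem_Ioo, mem_Iio]
    exact ⟨fun h => ⟨h.1.1, h.2⟩, fun h => ⟨⟨h.1, h.2.trans hl⟩, h.2⟩⟩
  rw [e, ← integral_Ioc_eq_integral_Ioo, ← intervalIntegral.integral_of_le hr0.le]
  have hp1 : ∀ s ∈ Icc (0 : ℝ) r, (s : ℂ) ^ 2 / conj l ∈ ball (0 : ℂ) 1 := by
    intro s hs
    rw [mem_ball_zero_iff, hnp, div_lt_iff₀ hr0]
    nlinarith [hs.1, hs.2]
  have hderiv : ∀ s ∈ uIcc (0 : ℝ) r, HasDerivAt (fun s : ℝ => -(π : ℂ) * F ((s : ℂ) ^ 2 / conj l))
      ((2 * π * s) • (-(f ((s : ℂ) ^ 2 / conj l) / conj l))) s := by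
    intro s hs
    rw [uIcc_of_le hr0.le] at hs
    have e2 : HasDerivAt (fun z : ℂ => z ^ 2 / conj l) (2 * s / conj l) (s : ℂ) := by
      simpa using (hasDerivAt_pow 2 (s : ℂ)).div_const (conj l)
    have e3 : HasDerivAt (fun z : ℂ => F (z ^ 2 / conj l))
        (f ((s : ℂ) ^ 2 / conj l) * (2 * s / conj l)) (s : ℂ) := (hF _ (hp1 s hs)).comp (s : ℂ) e2
    refine ((e3.const_mul (-(π : ℂ))).comp_ofReal).congr_deriv ?_
    rw [Complex.real_smul]
    push_cast
    ring
  rw [intervalIntegral.integral_eq_sub_of_hasDerivAt hderiv]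
  · have : (r : ℂ) ^ 2 / conj l = l := by
      rw [div_eq_iff hcl, Complex.mul_conj', hr]
    rw [this]
    simp [hF0]
  · refine ContinuousOn.intervalIntegrable ?_
    rw [uIcc_of_le hr0.le]
    have c1 : ContinuousOn (fun s : ℝ => 2 * π * s) (Icc 0 r) := by fun_prop
    have c2 : ContinuousOn (fun s : ℝ => f ((s : ℂ) ^ 2 / conj l)) (Icc 0 r) :=
      hf.continuousOn.comp (f := fun s : ℝ => (s : ℂ) ^ 2 / conj l) (by fun_prop) hp1
    exact c1.smul (c2.div_const _).neg

lemma isCompact_annulus (a b : ℝ) : IsCompact {w : ℂ | ‖w‖ ∈ Icc a b} := by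
  refine (isCompact_closedBall (0 : ℂ) b).of_isClosed_subset
    (isClosed_Icc.preimage continuous_norm) fun w hw => ?_
  exact mem_closedBall_zero_iff.mpr hw.2

/-- A lower bound for the integral of a holomorphic function over a thin annulus. -/
theorem annulus_lower {P : ℂ → ℂ} (hP : DifferentiableOn ℂ P (ball 0 1)) {a : ℂ} {r1 r2 : ℝ}
    (ha : ‖a‖ < r1) (h12 : r1 ≤ r2) (h2 : r2 < 1) :
    π * (r2 ^ 2 - r1 ^ 2) * ‖P a‖ * (r1 - ‖a‖) ≤ ∫ w in {w : ℂ | ‖w‖ ∈ Icc r1 r2}, ‖P w‖ := by
  have hr1 : 0 < r1 := (norm_nonneg a).trans_lt ha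
  set A := {w : ℂ | ‖w‖ ∈ Icc r1 r2} with hA
  have hAsub : A ⊆ ball 0 1 := fun w hw => mem_ball_zero_iff.mpr (hw.2.trans_lt h2)
  have hAc : IsCompact A := isCompact_annulus r1 r2
  have hlow : ∀ w ∈ A, r1 - ‖a‖ ≤ ‖w - a‖ := by
    intro w hw
    have := norm_sub_norm_le w a
    linarith [hw.1]
  have hne : ∀ w ∈ A, w - a ≠ 0 := by
    intro w hw h
    have := hlow w hw
    rw [h, norm_zero] at this
    linarith
  have hPc : ContinuousOn P A := hP.continuousOn.mono hAsub
  have hc : ContinuousOn (fun w => ((w - 0) / (w - a)) • P w) A :=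
    ContinuousOn.smul (ContinuousOn.div (by fun_prop) (by fun_prop) hne) hPc
  have h1 := polar_radial (R := Icc r1 r2) measurableSet_Icc (hc.integrableOn_compact hAc)
  have e : Ioi (0 : ℝ) ∩ Icc r1 r2 = Icc r1 r2 :=
    inter_eq_right.mpr fun s hs => hr1.trans_le hs.1
  have h3 : ∀ s ∈ Icc r1 r2,
      (2 * π * s) • circleAverage (fun w => ((w - 0) / (w - a)) • P w) 0 s = (2 * π * s) • P a := by
    intro s hs
    have hs0 : 0 < s := hr1.trans_le hs.1
    congr 1
    refine DiffContOnCl.circleAverage_smul_div (diffContOnCl_ball_abs hs0 fun w hw => ?_) ?_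
    · exact hP.differentiableAt
        (isOpen_ball.mem_nhds (closedBall_subset_ball (hs.2.trans_lt h2) hw))
    · rw [mem_ball_zero_iff, abs_of_pos hs0]; exact ha.trans_le hs.1
  rw [e, setIntegral_congr_fun measurableSet_Icc h3, integral_smul_const,
    integral_Icc_eq_integral_Ioc, ← intervalIntegral.integral_of_le h12,
    intervalIntegral.integral_const_mul, integral_id] at h1
  have h4 : ‖∫ w in A, ((w - 0) / (w - a)) • P w‖ ≤ ∫ w in A, (r1 - ‖a‖)⁻¹ * ‖P w‖ := by
    refine norm_integral_le_of_norm_le ((hPc.norm.integrableOn_compact hAc).const_mul _) ?_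
    refine (ae_restrict_iff' hAc.measurableSet).mpr (Filter.Eventually.of_forall fun w hw => ?_)
    rw [norm_smul, norm_div, sub_zero]
    refine mul_le_mul_of_nonneg_right ?_ (norm_nonneg _)
    rw [inv_eq_one_div]
    exact div_le_div₀ zero_le_one (hw.2.trans h2.le) (by linarith) (hlow w hw)
  rw [integral_const_mul, hA, h1, norm_smul, Real.norm_of_nonneg (by
    have : r1 ^ 2 ≤ r2 ^ 2 := pow_le_pow_left₀ hr1.le h12 2
    have := pi_pos
    have : 0 ≤ (r2 ^ 2 - r1 ^ 2) / 2 := by linarith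
    positivity), le_inv_mul_iff₀ (by linarith)] at h4
  refine le_trans (le_of_eq ?_) h4
  ring

end Pool.Agent.Lib.MP_435399_an
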