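import Mathlib
import Pool.Agent.Lib.MP_435399_an.Cauchy

set_option autoImplicit false

open MeasureTheory Set Metric Real Complex Filter Topology

namespace Pool.Agent.Lib.MP_435399_an

/-- The Cauchy kernel with two terms of its expansion at an outer point removed. -/
noncomputable def ker2 (l l' w : ℂ) : ℂ := (l - l') ^ 2 / ((w - l) * (w - l') ^ 2)

section bounds

variable {δ : ℝ} {l w : ℂ}

lemma outer_norm (hδ : 0 < δ) (hδ4 : δ ≤ 1 / 4) (hl : 1 - δ ≤ ‖l‖) :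
    1 + δ / 2 ≤ ‖((1 + 2 * δ : ℝ) : ℂ) * l‖ := by
  rw [norm_mul, Complex.norm_real, Real.norm_of_nonneg (by linarith)]
  nlinarith

lemma outer_dist (hδ : 0 < δ) (hl : ‖l‖ ≤ 1) : ‖l - ((1 + 2 * δ : ℝ) : ℂ) * l‖ ≤ 2 * δ := by
  have : l - ((1 + 2 * δ : ℝ) : ℂ) * l = ((-(2 * δ) : ℝ) : ℂ) * l := by push_cast; ring
  rw [this, norm_mul, Complex.norm_real, Real.norm_eq_abs, abs_neg, abs_of_pos (by linarith)]
  nlinarith

lemma ker2_le_phi (hδ : 0 < δ) (hδ4 : δ ≤ 1 / 4) (hl : 1 - δ ≤ ‖l‖) (hl1 : ‖l‖ ≤ 1)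
    (hw : ‖w‖ ≤ 1) :
    ‖ker2 l (((1 + 2 * δ : ℝ) : ℂ) * l) w‖ ≤ 196 / δ * phi (δ⁻¹ • (l - w)) := by
  set l' := ((1 + 2 * δ : ℝ) : ℂ) * l with hl'
  have h1 : 1 + δ / 2 ≤ ‖l'‖ := outer_norm hδ hδ4 hl
  have h2 : ‖l - l'‖ ≤ 2 * δ := outer_dist hδ hl1
  have h3 : δ / 2 ≤ ‖w - l'‖ := by
    have := norm_sub_norm_le l' w
    rw [norm_sub_rev] at this
    linarith
  have h4 : ‖w - l‖ ≤ ‖w - l'‖ + 2 * δ := by
    have := norm_sub_le (w - l') (l - l')
    have e : w - l' - (l - l') = w - l := by ring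
    rw [e] at this
    linarith
  unfold ker2 phi
  rw [norm_div, norm_mul, norm_pow, norm_pow, norm_smul, norm_inv, Real.norm_of_nonneg hδ.le,
    norm_sub_rev l w]
  set ρ := ‖w - l‖ with hρ
  set b := ‖w - l'‖ with hb
  rcases (norm_nonneg (w - l)).eq_or_lt with h0 | h0
  · rw [← hρ] at h0
    rw [← h0]; simp
  rw [← hρ] at h0
  have hb0 : 0 < b := by linarith
  have e : 196 / δ * (δ⁻¹ * ρ * (1 + δ⁻¹ * ρ) ^ 2)⁻¹ = 196 * δ ^ 2 / (ρ * (δ + ρ) ^ 2) := by
    field_simp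
  rw [e, div_le_div_iff₀ (by positivity) (by positivity)]
  have h5 : (δ + ρ) ^ 2 ≤ (7 * b) ^ 2 := pow_le_pow_left₀ (by positivity) (by linarith) 2
  have h6 : ‖l - l'‖ ^ 2 ≤ (2 * δ) ^ 2 := pow_le_pow_left₀ (norm_nonneg _) h2 2
  calc ‖l - l'‖ ^ 2 * (ρ * (δ + ρ) ^ 2) ≤ (2 * δ) ^ 2 * (ρ * (7 * b) ^ 2) :=
        mul_le_mul h6 (mul_le_mul_of_nonneg_left h5 h0.le) (by positivity) (by positivity)
    _ = 196 * δ ^ 2 * (ρ * b ^ 2) := by ring

lemma ker2_le_inner {η : ℝ} (hδ : 0 < δ) (hδ4 : δ ≤ 1 / 4) (hδη : δ ≤ η) (hl : 1 - δ ≤ ‖l‖)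
    (hl1 : ‖l‖ ≤ 1) (hw : ‖w‖ ≤ 1 - 2 * η) :
    ‖ker2 l (((1 + 2 * δ : ℝ) : ℂ) * l) w‖ ≤ 4 * δ ^ 2 / η ^ 3 := by
  set l' := ((1 + 2 * δ : ℝ) : ℂ) * l with hl'
  have hη : 0 < η := hδ.trans_le hδη
  have h1 : 1 + δ / 2 ≤ ‖l'‖ := outer_norm hδ hδ4 hl
  have h2 : ‖l - l'‖ ≤ 2 * δ := outer_dist hδ hl1
  have h3 : η ≤ ‖w - l'‖ := by
    have := norm_sub_norm_le l' w
    rw [norm_sub_rev] at this
    linarith
  have h4 : η ≤ ‖w - l‖ := by
    have := norm_sub_norm_le l w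
    rw [norm_sub_rev] at this
    linarith
  unfold ker2
  rw [norm_div, norm_mul, norm_pow, norm_pow]
  refine div_le_div₀ (by positivity) ?_ (by positivity) ?_
  · have := pow_le_pow_left₀ (norm_nonneg _) h2 2
    linarith
  · calc η ^ 3 = η * η ^ 2 := by ring
      _ ≤ _ := mul_le_mul h4 (pow_le_pow_left₀ hη.le h3 2) (by positivity) (norm_nonneg _)

end bounds

lemma annulus_upper {ν P : ℂ → ℂ} (hν : IntegrableOn ν (ball (0 : ℂ) 1))
    (hP : ContinuousOn P (ball 0 1))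
    (hrep : ∀ l l' : ℂ, ‖l‖ < 1 → l ≠ 0 → 1 < ‖l'‖ →
      ‖P l‖ ≤ ‖∫ w in ball (0 : ℂ) 1, ν w * ker2 l l' w‖)
    {δ η : ℝ} (hδ : 0 < δ) (hδ4 : δ ≤ 1 / 4) (hδη : δ ≤ η) :
    ∫ l in {w : ℂ | ‖w‖ ∈ Icc (1 - δ) (1 - δ / 2)}, ‖P l‖
      ≤ π * (4 * δ ^ 2 / η ^ 3 * ∫ w in ball (0 : ℂ) 1, ‖ν w‖)
        + 196 * δ * (∫ u, phi u) * ∫ w in ball (0 : ℂ) 1 \ closedBall 0 (1 - 2 * η), ‖ν w‖ := by
  have hη : 0 < η := hδ.trans_le hδη
  set A := {w : ℂ | ‖w‖ ∈ Icc (1 - δ) (1 - δ / 2)} with hA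
  set E := ball (0 : ℂ) 1 \ closedBall 0 (1 - 2 * η) with hE
  have hEm : MeasurableSet E := measurableSet_ball.diff measurableSet_closedBall
  have hAc : IsCompact A := isCompact_annulus _ _
  have hAsub : A ⊆ ball 0 1 := fun w hw => mem_ball_zero_iff.mpr (by linarith [hw.2])
  set k : ℂ → ℝ := fun u => 196 / δ * phi (δ⁻¹ • u) with hk
  have hk0 : ∀ u, 0 ≤ k u := fun u => mul_nonneg (by positivity) (phi_nonneg _)
  have hki : Integrable k := (integrable_phi.comp_smul (inv_ne_zero hδ.ne')).const_mul _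
  have hkI : ∫ u, k u = 196 * δ * ∫ u, phi u := by
    rw [hk, integral_const_mul, Measure.integral_comp_inv_smul_of_nonneg _ phi hδ.le,
      Complex.finrank_real_complex, smul_eq_mul]
    field_simp
  have hνE : Integrable (fun w => ‖ν w‖) (volume.restrict E) := (hν.mono_set sdiff_subset).norm
  have hprod : Integrable (fun p : ℂ × ℂ => ‖ν p.2‖ * k (p.1 - p.2))
      (volume.prod (volume.restrict E)) :=
    hνE.convolution_integrand (ContinuousLinearMap.mul ℝ ℝ) hki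
  set c1 : ℝ := 4 * δ ^ 2 / η ^ 3 with hc1
  have hc10 : 0 ≤ c1 := by positivity
  set I := ∫ w in ball (0 : ℂ) 1, ‖ν w‖ with hI
  have hI0 : 0 ≤ I := integral_nonneg fun _ => norm_nonneg _
  set Q : ℂ → ℝ := fun l => ∫ w in E, ‖ν w‖ * k (l - w) with hQ
  have hQi : Integrable Q := hprod.integral_prod_left
  have hQ0 : ∀ l, 0 ≤ Q l := fun l => integral_nonneg fun w => mul_nonneg (norm_nonneg _) (hk0 _)
  have hQI : ∫ l, Q l = 196 * δ * (∫ u, phi u) * ∫ w in E, ‖ν w‖ := by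
    rw [hQ, integral_integral_swap hprod]
    simp_rw [integral_const_mul, integral_sub_right_eq_self k, hkI]
    rw [integral_mul_const, mul_comm]
  have hpt : ∀ᵐ l : ℂ, l ∈ A → ‖P l‖ ≤ c1 * I + Q l := by
    filter_upwards [hprod.prod_right_ae] with l hl hlA
    have hl1 : ‖l‖ < 1 := mem_ball_zero_iff.mp (hAsub hlA)
    have hl0 : l ≠ 0 := by
      intro h
      have := hlA.1
      rw [h, norm_zero] at this
      linarith
    refine (hrep l (((1 + 2 * δ : ℝ) : ℂ) * l) hl1 hl0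
      (by linarith [outer_norm hδ hδ4 hlA.1])).trans ?_
    have hind : Integrable (E.indicator fun w => ‖ν w‖ * k (l - w))
        (volume.restrict (ball (0 : ℂ) 1)) :=
      ((integrable_indicator_iff hEm).mpr hl).integrableOn
    have h1 : ‖∫ w in ball (0 : ℂ) 1, ν w * ker2 l (((1 + 2 * δ : ℝ) : ℂ) * l) w‖
        ≤ ∫ w in ball (0 : ℂ) 1, (c1 * ‖ν w‖ + E.indicator (fun w => ‖ν w‖ * k (l - w)) w) := by
      refine norm_integral_le_of_norm_le ((hν.norm.const_mul c1).add hind) ?_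
      refine (ae_restrict_iff' measurableSet_ball).mpr (Eventually.of_forall fun w hw => ?_)
      rw [norm_mul]
      by_cases hwE : w ∈ E
      · rw [indicator_of_mem hwE]
        have := mul_le_mul_of_nonneg_left
          (ker2_le_phi hδ hδ4 hlA.1 hl1.le (mem_ball_zero_iff.mp hw).le) (norm_nonneg (ν w))
        have h2 : 0 ≤ c1 * ‖ν w‖ := by positivity
        simp only [hk]
        linarith
      · rw [indicator_of_notMem hwE, add_zero, mul_comm]
        have hw2 : ‖w‖ ≤ 1 - 2 * η := by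
          by_contra hc
          exact hwE ⟨hw, by rwa [mem_closedBall_zero_iff]⟩
        exact mul_le_mul_of_nonneg_right (ker2_le_inner hδ hδ4 hδη hlA.1 hl1.le hw2)
          (norm_nonneg _)
    refine h1.trans (le_of_eq ?_)
    rw [integral_add (hν.norm.const_mul c1) hind, integral_const_mul, setIntegral_indicator hEm,
      inter_eq_right.mpr sdiff_subset]
  have hfin : volume A < ⊤ := hAc.measure_lt_top
  have h2 : ∫ l in A, ‖P l‖ ≤ ∫ l in A, (c1 * I + Q l) := by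
    refine setIntegral_mono_on_ae ((hP.mono hAsub).norm.integrableOn_compact hAc)
      ((integrableOn_const hfin.ne).add hQi.integrableOn) hAc.measurableSet hpt
  refine h2.trans ?_
  have hci : Integrable (fun _ : ℂ => c1 * I) (volume.restrict A) := integrableOn_const hfin.ne
  rw [integral_add hci hQi.integrableOn, setIntegral_const, smul_eq_mul]
  refine add_le_add (mul_le_mul_of_nonneg_right ?_ (by positivity)) ?_
  · have h3 : volume.real A ≤ volume.real (ball (0 : ℂ) 1) :=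
      measureReal_mono hAsub measure_ball_lt_top.ne
    refine h3.trans (le_of_eq ?_)
    simp [Measure.real, Complex.volume_ball]
  · rw [← hQI]
    exact setIntegral_le_integral hQi (Eventually.of_forall hQ0)

lemma tendsto_outer {ν : ℂ → ℂ} (hν : IntegrableOn ν (ball (0 : ℂ) 1)) :
    Tendsto (fun n : ℕ => ∫ w in ball (0 : ℂ) 1 \ closedBall 0 (1 - 2 * (1 / ((n : ℝ) + 1))), ‖ν w‖)
      atTop (𝓝 0) := by
  have := tendsto_setIntegral_of_antitone (μ := volume) (f := fun w => ‖ν w‖)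
    (s := fun n : ℕ => ball (0 : ℂ) 1 \ closedBall 0 (1 - 2 * (1 / ((n : ℝ) + 1))))
    (fun n => measurableSet_ball.diff measurableSet_closedBall)
    (fun m n hmn => sdiff_subset_sdiff_right (closedBall_subset_closedBall (by
      have : 1 / ((n : ℝ) + 1) ≤ 1 / ((m : ℝ) + 1) := Nat.one_div_le_one_div hmn
      linarith)))
    ⟨0, (hν.mono_set sdiff_subset).norm⟩
  have e : (⋂ n : ℕ, ball (0 : ℂ) 1 \ closedBall 0 (1 - 2 * (1 / ((n : ℝ) + 1)))) = ∅ := by
    rw [eq_empty_iff_forall_notMem]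
    intro w hw
    rw [mem_iInter] at hw
    have h1 : ‖w‖ < 1 := mem_ball_zero_iff.mp (hw 0).1
    obtain ⟨n, hn⟩ := exists_nat_one_div_lt (show 0 < (1 - ‖w‖) / 2 by linarith)
    exact (hw n).2 (mem_closedBall_zero_iff.mpr (by linarith))
  rw [e] at this
  simpa using this

/-- A holomorphic function dominated by such truncated Cauchy integrals vanishes. -/
theorem vanish {ν P : ℂ → ℂ} (hν : IntegrableOn ν (ball (0 : ℂ) 1))
    (hP : DifferentiableOn ℂ P (ball 0 1))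
    (hrep : ∀ l l' : ℂ, ‖l‖ < 1 → l ≠ 0 → 1 < ‖l'‖ →
      ‖P l‖ ≤ ‖∫ w in ball (0 : ℂ) 1, ν w * ker2 l l' w‖) {a : ℂ} (ha : ‖a‖ < 1) : P a = 0 := by
  set I := ∫ w in ball (0 : ℂ) 1, ‖ν w‖ with hI
  set J := ∫ u, phi u with hJ
  set c := π * (1 / 2) * ‖P a‖ * ((1 - ‖a‖) / 2) with hc
  have step : ∀ η : ℝ, 0 < η →
      c ≤ 196 * J * ∫ w in ball (0 : ℂ) 1 \ closedBall 0 (1 - 2 * η), ‖ν w‖ := by
    intro η hη
    set T := ∫ w in ball (0 : ℂ) 1 \ closedBall 0 (1 - 2 * η), ‖ν w‖ with hT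
    have hev : ∀ᶠ δ : ℝ in 𝓝[>] 0, c ≤ δ * (π * (4 / η ^ 3 * I)) + 196 * J * T := by
      have hm : 0 < min (1 / 4) (min η ((1 - ‖a‖) / 2)) :=
        lt_min (by norm_num) (lt_min hη (by linarith))
      filter_upwards [Ioo_mem_nhdsGT hm] with δ hδ
      have h0 : 0 < δ := hδ.1
      have h1 : δ ≤ 1 / 4 := hδ.2.le.trans (min_le_left _ _)
      have h2 : δ ≤ η := hδ.2.le.trans ((min_le_right _ _).trans (min_le_left _ _))
      have h3 : δ < (1 - ‖a‖) / 2 := hδ.2.trans_le ((min_le_right _ _).trans (min_le_right _ _))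
      have hu := annulus_upper hν hP.continuousOn hrep h0 h1 h2
      have hl := annulus_lower hP (a := a) (r1 := 1 - δ) (r2 := 1 - δ / 2) (by linarith)
        (by linarith) (by linarith)
      have h4 : δ * c ≤ π * ((1 - δ / 2) ^ 2 - (1 - δ) ^ 2) * ‖P a‖ * (1 - δ - ‖a‖) := by
        have e : δ * c = π * (δ / 2) * ‖P a‖ * ((1 - ‖a‖) / 2) := by rw [hc]; ring
        rw [e]
        refine mul_le_mul (mul_le_mul_of_nonneg_right
          (mul_le_mul_of_nonneg_left (by nlinarith) pi_pos.le) (norm_nonneg _)) (by linarith)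
          (by linarith) ?_
        have : 0 ≤ (1 - δ / 2) ^ 2 - (1 - δ) ^ 2 := by nlinarith
        have := pi_pos
        positivity
      have h5 : δ * c ≤ δ * (δ * (π * (4 / η ^ 3 * I)) + 196 * J * T) := by
        refine (h4.trans (hl.trans hu)).trans (le_of_eq ?_)
        ring
      exact le_of_mul_le_mul_left h5 h0
    have hlim : Tendsto (fun δ : ℝ => δ * (π * (4 / η ^ 3 * I)) + 196 * J * T) (𝓝[>] 0)
        (𝓝 (0 * (π * (4 / η ^ 3 * I)) + 196 * J * T)) :=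
      Tendsto.mono_left (Continuous.tendsto (by fun_prop) 0) nhdsWithin_le_nhds
    simpa using ge_of_tendsto hlim hev
  have hlim := (tendsto_outer hν).const_mul (196 * J)
  have hc0 : c ≤ 196 * J * 0 :=
    ge_of_tendsto' hlim fun n => step _ (by positivity)
  rw [mul_zero, hc] at hc0
  have h1 : 0 < π * (1 / 2) * ((1 - ‖a‖) / 2) := by
    have := pi_pos
    have : 0 < 1 - ‖a‖ := by linarith
    positivity
  have h2 : ‖P a‖ ≤ 0 := by
    by_contra h
    push Not at h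
    nlinarith [mul_pos h1 h]
  exact norm_le_zero_iff.mp h2

end Pool.Agent.Lib.MP_435399_an
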