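import Mathlib
import Pool.Agent.Lib.MP_435399_an.Vanish

set_option autoImplicit false

open MeasureTheory Set Metric Real Complex Filter Topology ComplexConjugate

namespace Pool.Agent.Lib.MP_435399_an

/-- The average of `Φ (x * m)` over a compact set of multipliers is holomorphic in `x`. -/
lemma differentiableAt_avg {Φ : ℂ → ℂ} {U : Set ℂ} (hU : IsOpen U) (hΦ : DifferentiableOn ℂ Φ U)
    {M : Set ℂ} (hM : IsCompact M) {x0 : ℂ} (h : ∀ m ∈ M, x0 * m ∈ U) :
    DifferentiableAt ℂ (fun x => ∫ m in M, Φ (x * m)) x0 := by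
  have hev : ∀ᶠ x in 𝓝 x0, ∀ m ∈ M, x * m ∈ U := by
    refine hM.eventually_forall_of_forall_eventually (P := fun x m => x * m ∈ U) fun m hm => ?_
    exact (continuous_mul.tendsto (x0, m)).eventually (hU.mem_nhds (h m hm))
  obtain ⟨r, hr, hrs⟩ := Metric.nhds_basis_closedBall.eventually_iff.mp hev
  have hK : IsCompact ((fun p : ℂ × ℂ => p.1 * p.2) '' (closedBall x0 r ×ˢ M)) :=
    ((isCompact_closedBall x0 r).prod hM).image continuous_mul
  have hKU : (fun p : ℂ × ℂ => p.1 * p.2) '' (closedBall x0 r ×ˢ M) ⊆ U := by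
    rintro _ ⟨p, hp, rfl⟩
    exact hrs hp.1 _ hp.2
  obtain ⟨B, hB⟩ := hK.exists_bound_of_continuousOn ((hΦ.deriv hU).continuousOn.mono hKU)
  obtain ⟨B', hB'⟩ := hM.exists_bound_of_continuousOn (f := fun m : ℂ => m) continuousOn_id
  have hcont : ∀ x ∈ closedBall x0 r, ContinuousOn (fun m => Φ (x * m)) M := fun x hx =>
    hΦ.continuousOn.comp (f := fun m => x * m) (by fun_prop) fun m hm => hrs hx m hm
  have hcont' : ContinuousOn (fun m => deriv Φ (x0 * m) * m) M :=
    ((hΦ.deriv hU).continuousOn.comp (f := fun m => x0 * m) (by fun_prop) h).mul continuousOn_id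
  have hfin : volume M ≠ ⊤ := hM.measure_lt_top.ne
  have := hasDerivAt_integral_of_dominated_loc_of_deriv_le (μ := volume.restrict M)
    (F := fun x m => Φ (x * m)) (F' := fun x m => deriv Φ (x * m) * m) (x₀ := x0)
    (bound := fun _ => B * B') (closedBall_mem_nhds x0 hr) ?_ ?_ ?_ ?_ ?_ ?_
  · exact this.2.differentiableAt
  · filter_upwards [closedBall_mem_nhds x0 hr] with x hx
    exact (hcont x hx).aestronglyMeasurable hM.measurableSet
  · exact (hcont x0 (mem_closedBall_self hr.le)).integrableOn_compact hM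
  · exact hcont'.aestronglyMeasurable hM.measurableSet
  · refine (ae_restrict_iff' hM.measurableSet).mpr (Eventually.of_forall fun m hm x hx => ?_)
    rw [norm_mul]
    have h1 := hB _ ⟨(x, m), ⟨hx, hm⟩, rfl⟩
    exact mul_le_mul h1 (hB' m hm) (norm_nonneg _) ((norm_nonneg _).trans h1)
  · exact integrableOn_const hfin
  · refine (ae_restrict_iff' hM.measurableSet).mpr (Eventually.of_forall fun m hm x hx => ?_)
    have h1 := (hΦ.differentiableAt (hU.mem_nhds (hrs hx m hm))).hasDerivAt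
    have h2 : HasDerivAt (fun x : ℂ => x * m) m x := by simpa using (hasDerivAt_id x).mul_const m
    exact h1.comp x h2

lemma rot_integral {ω : ℂ} (hω : ‖ω‖ = 1) (G : ℂ → ℝ) (M : Set ℂ) :
    ∫ m in M, G (ω * m) = ∫ y in (fun m => ω * m) '' M, G y := by
  let a : Circle := ⟨ω, mem_sphere_zero_iff_norm.mpr hω⟩
  exact ((rotation a).measurePreserving.setIntegral_image_emb
    (rotation a).toHomeomorph.measurableEmbedding G M).symm

/-- The thin curved box of multipliers. -/
def mbox (δ ε : ℝ) : Set ℂ := {w : ℂ | ‖w‖ ∈ Icc (1 - δ) (1 - δ / 2)} ∩ closedBall 1 ε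

lemma isCompact_mbox (δ ε : ℝ) : IsCompact (mbox δ ε) :=
  (isCompact_annulus _ _).inter_right isClosed_closedBall

lemma mbox_area {ε : ℝ} (hε : 0 < ε) : ∃ c : ℝ, 0 < c ∧ ∀ δ : ℝ, 0 < δ → δ ≤ 1 / 2 → δ ≤ ε / 2 →
    c * δ ≤ volume.real (mbox δ ε) := by
  obtain ⟨t, ht, hfin, hcov⟩ := (isCompact_sphere (0 : ℂ) 1).elim_finite_subcover_image
    (b := sphere (0 : ℂ) 1) (c := fun ω => ball ω (ε / 2)) (fun _ _ => isOpen_ball)
    (fun ω hω => mem_biUnion hω (mem_ball_self (by linarith)))
  refine ⟨(1 / 4) / (hfin.toFinset.card + 1), by positivity, fun δ h0 h1 h2 => ?_⟩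
  have hl := annulus_lower (P := fun _ => (1 : ℂ)) (differentiableOn_const _) (a := 0)
    (r1 := 1 - δ) (r2 := 1 - δ / 2) (by rw [norm_zero]; linarith) (by linarith) (by linarith)
  simp only [norm_one, mul_one, norm_zero, sub_zero, setIntegral_const, smul_eq_mul] at hl
  have hsub : {w : ℂ | ‖w‖ ∈ Icc (1 - δ) (1 - δ / 2)}
      ⊆ ⋃ ω ∈ hfin.toFinset, (fun m => ω * m) '' mbox δ ε := by
    intro w hw
    have hw1 : 1 - δ ≤ ‖w‖ := hw.1
    have hw2 : ‖w‖ ≤ 1 - δ / 2 := hw.2
    have hwn : 0 < ‖w‖ := by linarith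
    have hs : ((‖w‖⁻¹ : ℝ) : ℂ) * w ∈ sphere (0 : ℂ) 1 := by
      rw [mem_sphere_zero_iff_norm, norm_mul, Complex.norm_real, norm_inv, norm_norm,
        inv_mul_cancel₀ hwn.ne']
    obtain ⟨ω, hω, hωb⟩ := mem_iUnion₂.mp (hcov hs)
    have hω1 : ‖ω‖ = 1 := mem_sphere_zero_iff_norm.mp (ht hω)
    have hω0 : ω ≠ 0 := by
      intro h; rw [h, norm_zero] at hω1; exact zero_ne_one hω1
    refine mem_iUnion₂.mpr ⟨ω, hfin.mem_toFinset.mpr hω, ω⁻¹ * w, ⟨?_, ?_⟩, ?_⟩
    · show ‖ω⁻¹ * w‖ ∈ Icc (1 - δ) (1 - δ / 2)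
      rw [norm_mul, norm_inv, hω1, inv_one, one_mul]
      exact hw
    · rw [mem_closedBall, dist_eq_norm]
      have e : ω⁻¹ * w - 1 = ω⁻¹ * (w - ω) := by field_simp
      rw [e, norm_mul, norm_inv, hω1, inv_one, one_mul]
      have h3 : ‖((‖w‖⁻¹ : ℝ) : ℂ) * w - ω‖ < ε / 2 := by rwa [mem_ball, dist_eq_norm] at hωb
      have h4 : ‖w - ((‖w‖⁻¹ : ℝ) : ℂ) * w‖ = 1 - ‖w‖ := by
        have e2 : w - ((‖w‖⁻¹ : ℝ) : ℂ) * w = ((1 - ‖w‖⁻¹ : ℝ) : ℂ) * w := by push_cast; ring
        rw [e2, norm_mul, Complex.norm_real, Real.norm_eq_abs, abs_of_nonpos]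
        · field_simp
          ring
        · have : 1 ≤ ‖w‖⁻¹ := (one_le_inv₀ hwn).mpr (by linarith)
          linarith
      have h5 := norm_add_le (w - ((‖w‖⁻¹ : ℝ) : ℂ) * w) (((‖w‖⁻¹ : ℝ) : ℂ) * w - ω)
      rw [sub_add_sub_cancel] at h5
      linarith
    · show ω * (ω⁻¹ * w) = w
      field_simp
  have himg : ∀ ω ∈ hfin.toFinset,
      volume.real ((fun m => ω * m) '' mbox δ ε) = volume.real (mbox δ ε) := by
    intro ω hω
    have hω1 : ‖ω‖ = 1 := mem_sphere_zero_iff_norm.mp (ht (hfin.mem_toFinset.mp hω))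
    have := rot_integral hω1 (fun _ => (1 : ℝ)) (mbox δ ε)
    simpa using this.symm
  have hfinU : volume (⋃ ω ∈ hfin.toFinset, (fun m => ω * m) '' mbox δ ε) ≠ ⊤ := by
    refine (IsCompact.measure_lt_top ?_).ne
    exact hfin.toFinset.isCompact_biUnion fun ω _ => (isCompact_mbox δ ε).image (by fun_prop)
  have h6 := (measureReal_mono hsub hfinU).trans (measureReal_biUnion_finset_le _ _)
  rw [Finset.sum_congr rfl himg, Finset.sum_const, nsmul_eq_mul] at h6
  have h7 : δ / 4 ≤ π * ((1 - δ / 2) ^ 2 - (1 - δ) ^ 2) * (1 - δ) := by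
    have h8 : δ / 2 ≤ (1 - δ / 2) ^ 2 - (1 - δ) ^ 2 := by nlinarith
    have h9 : (1 : ℝ) ≤ π := by linarith [pi_gt_three]
    have h11 : 1 * (δ / 2) ≤ π * ((1 - δ / 2) ^ 2 - (1 - δ) ^ 2) :=
      mul_le_mul h9 h8 (by linarith) pi_pos.le
    calc δ / 4 = 1 * (δ / 2) * (1 / 2) := by ring
      _ ≤ _ := mul_le_mul h11 (by linarith) (by norm_num) (by linarith)
  have h10 : 0 ≤ volume.real (mbox δ ε) := measureReal_nonneg
  rw [div_mul_eq_mul_div, div_le_iff₀ (by positivity)]
  nlinarith

/-- Local uniqueness: a holomorphic function of polynomial growth near a boundary point whose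
`L¹` norms on thin annular pieces are `o(δ)` vanishes there. -/
theorem local_vanish {Φ : ℂ → ℂ} {ζ : ℂ} (hζ : ‖ζ‖ = 1) {ρ : ℝ} (hρ : 0 < ρ) (hρ1 : ρ ≤ 1)
    (hΦ : DifferentiableOn ℂ Φ (ball ζ (2 * ρ) ∩ ball 0 1)) {C : ℝ}
    (hC : ∀ l ∈ ball ζ (2 * ρ) ∩ ball (0 : ℂ) 1, (1 - ‖l‖) ^ 4 * ‖Φ l‖ ≤ C)
    (hsm : ∀ e : ℝ, 0 < e → ∀ δ0 : ℝ, 0 < δ0 → ∃ δ : ℝ, 0 < δ ∧ δ ≤ δ0 ∧
      ∫ l in {w : ℂ | ‖w‖ ∈ Icc (1 - δ) (1 - δ / 2)} ∩ closedBall ζ ρ, ‖Φ l‖ ≤ e * δ) :
    EqOn Φ 0 (ball ζ (2 * ρ) ∩ ball 0 1) := by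
  set U := ball ζ (2 * ρ) ∩ ball (0 : ℂ) 1 with hU
  have hUo : IsOpen U := isOpen_ball.inter isOpen_ball
  set c : ℝ := 1 - ρ ^ 2 / 8 with hc
  have hc0 : 0 < c := by nlinarith
  have hc1 : c < 1 := by nlinarith
  set S := ball (0 : ℂ) 1 ∩ {l : ℂ | c < (conj ζ * l).re} with hS
  have hre : Continuous fun l : ℂ => (conj ζ * l).re := by fun_prop
  have hSo : IsOpen S := isOpen_ball.inter (isOpen_lt continuous_const hre)
  have hnu : ∀ l : ℂ, ‖conj ζ * l‖ = ‖l‖ := fun l => by
    rw [norm_mul, Complex.norm_conj, hζ, one_mul]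
  have hζζ : conj ζ * ζ = 1 := by
    rw [Complex.conj_mul', hζ]; simp
  have hnear : ∀ l : ℂ, ‖l‖ ≤ 1 → c ≤ (conj ζ * l).re → ‖l - ζ‖ ≤ ρ / 2 := by
    intro l h1 h2
    have e : ‖l - ζ‖ = ‖conj ζ * l - 1‖ := by
      rw [← hnu (l - ζ), mul_sub, hζζ]
    rw [e]
    have h3 : ‖conj ζ * l‖ ^ 2 ≤ 1 := by rw [hnu]; nlinarith [norm_nonneg l]
    rw [Complex.sq_norm, Complex.normSq_apply] at h3
    refine (pow_le_pow_iff_left₀ (norm_nonneg _) (by positivity) two_ne_zero).mp ?_
    rw [Complex.sq_norm, Complex.normSq_apply]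
    simp only [sub_re, one_re, sub_im, one_im, sub_zero]
    nlinarith
  have hcl : ∀ l ∈ closure S, ‖l‖ ≤ 1 ∧ c ≤ (conj ζ * l).re := by
    intro l hl
    have : closure S ⊆ closedBall (0 : ℂ) 1 ∩ {l : ℂ | c ≤ (conj ζ * l).re} :=
      closure_minimal (fun x hx => ⟨ball_subset_closedBall hx.1,
        show c ≤ (conj ζ * x).re from le_of_lt hx.2⟩)
        (isClosed_closedBall.inter (isClosed_le continuous_const hre))
    exact ⟨mem_closedBall_zero_iff.mp (this hl).1, (this hl).2⟩
  have hSU : S ⊆ U := by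
    intro l hl
    refine ⟨?_, hl.1⟩
    rw [mem_ball, dist_eq_norm]
    have := hnear l (mem_ball_zero_iff.mp hl.1).le (le_of_lt hl.2)
    linarith
  set q : ℂ → ℂ := fun l => (conj ζ * l - c) ^ 2 + (1 - c ^ 2) with hq
  have key : ∀ a ∈ S, Φ a = 0 := by
    intro a ha
    have hqa : q a ≠ 0 := by
      intro h0
      have h1 := congrArg Complex.re h0
      have h2 := congrArg Complex.im h0
      have h3 : c < (conj ζ * a).re := ha.2
      simp only [hq, sq, add_re, mul_re, sub_re, ofReal_re, sub_im, ofReal_im, one_re, add_im,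
        mul_im, one_im, zero_re, zero_im] at h1 h2 h3
      have h4 : (conj ζ).re * a.im + (conj ζ).im * a.re = 0 := by
        by_contra h5
        apply mul_ne_zero (sub_pos.mpr h3).ne' h5
        linarith
      rw [h4] at h1
      nlinarith [mul_self_nonneg ((conj ζ).re * a.re - (conj ζ).im * a.im - c)]
    by_contra hΦa
    have hΦa' : 0 < ‖Φ a‖ := norm_pos_iff.mpr hΦa
    -- continuity at `a`
    obtain ⟨ε, hε, hερ, hεa⟩ : ∃ ε : ℝ, 0 < ε ∧ ε ≤ ρ / 2 ∧
        ∀ m ∈ closedBall (1 : ℂ) ε, ‖Φ (a * m) - Φ a‖ ≤ ‖Φ a‖ / 2 := by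
      have h1 : ContinuousAt Φ (a * 1) := by
        rw [mul_one]; exact (hΦ.differentiableAt (hUo.mem_nhds (hSU ha))).continuousAt
      have h2 : ContinuousAt (fun m => Φ (a * m)) 1 :=
        h1.comp (f := fun m => a * m) (by fun_prop)
      have h3 := h2.eventually (closedBall_mem_nhds _ (half_pos hΦa'))
      obtain ⟨r, hr, hrs⟩ := Metric.nhds_basis_closedBall.eventually_iff.mp h3
      refine ⟨min r (ρ / 2), lt_min hr (by linarith), min_le_right _ _, fun m hm => ?_⟩
      have := hrs (closedBall_subset_closedBall (min_le_left _ _) hm)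
      simpa [dist_eq_norm] using this
    obtain ⟨c0, hc00, harea⟩ := mbox_area hε
    have hC0 : 0 ≤ C := by
      refine le_trans ?_ (hC a (hSU ha))
      have : 0 ≤ 1 - ‖a‖ := by linarith [mem_ball_zero_iff.mp ha.1]
      positivity
    have step : ∀ N : ℝ, 0 ≤ N → ∀ e : ℝ, 0 < e →
        ‖Φ a‖ / 2 * ‖q a‖ ^ 4 * Real.exp (N * (conj ζ * a).re)
          ≤ 16 * C * Real.exp (N * c) + e * (625 * Real.exp N / c0) := by
      intro N hN e he
      obtain ⟨δ, hδ, hδ0, hint⟩ := hsm e he (min (1 / 2) (ε / 2)) (lt_min (by norm_num) (by linarith))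
      have hδ1 : δ ≤ 1 / 2 := hδ0.trans (min_le_left _ _)
      have hδ2 : δ ≤ ε / 2 := hδ0.trans (min_le_right _ _)
      set M := mbox δ ε with hM
      set α := volume.real M with hα
      have hαl : c0 * δ ≤ α := harea δ hδ hδ1 hδ2
      have hα0 : 0 < α := lt_of_lt_of_le (by positivity) hαl
      have hMc : IsCompact M := isCompact_mbox δ ε
      have hMn : ∀ m ∈ M, ‖m‖ ≤ 1 - δ / 2 := fun m hm => hm.1.2
      have hmem' : ∀ l ∈ closure S, ∀ m ∈ M, ‖l * m - ζ‖ ≤ ρ ∧ ‖l * m‖ ≤ ‖l‖ ∧ ‖l * m‖ < 1 := by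
        intro l hl m hm
        obtain ⟨h1, h2⟩ := hcl l hl
        have h3 := hnear l h1 h2
        have h4 : ‖m - 1‖ ≤ ε := by simpa [dist_eq_norm] using hm.2
        have h5 := hMn m hm
        have h6 : ‖l * (m - 1)‖ ≤ ε := by
          rw [norm_mul]; nlinarith [norm_nonneg l, norm_nonneg (m - 1)]
        have h7 := norm_add_le (l * (m - 1)) (l - ζ)
        have e : l * (m - 1) + (l - ζ) = l * m - ζ := by ring
        rw [e] at h7
        rw [norm_mul]
        refine ⟨by linarith, ?_, ?_⟩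
        · nlinarith [norm_nonneg l, norm_nonneg m]
        · nlinarith [norm_nonneg l, norm_nonneg m]
      have hmem : ∀ l ∈ closure S, ∀ m ∈ M, l * m ∈ U := by
        intro l hl m hm
        obtain ⟨h1, -, h3⟩ := hmem' l hl m hm
        exact ⟨by rw [mem_ball, dist_eq_norm]; linarith, mem_ball_zero_iff.mpr h3⟩
      have hcont : ∀ l ∈ closure S, ContinuousOn (fun m => Φ (l * m)) M := fun l hl =>
        hΦ.continuousOn.comp (f := fun m => l * m) (by fun_prop) (hmem l hl)
      set G : ℂ → ℂ := fun l => (∫ m in M, Φ (l * m)) * q l ^ 4 * Complex.exp (N * (conj ζ * l))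
        with hG
      have hGd : DifferentiableOn ℂ G (closure S) := by
        intro l hl
        refine DifferentiableAt.differentiableWithinAt ?_
        refine ((differentiableAt_avg hUo hΦ hMc (hmem l hl)).mul ?_).mul ?_
        · simp only [hq]; fun_prop
        · fun_prop
      have hGn : ∀ l, ‖G l‖ = ‖∫ m in M, Φ (l * m)‖ * ‖q l‖ ^ 4 * Real.exp (N * (conj ζ * l).re) := by
        intro l
        simp only [hG]
        rw [norm_mul, norm_mul, norm_pow, Complex.norm_exp, Complex.re_ofReal_mul]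
      have hmax := Complex.norm_le_of_forall_mem_frontier_norm_le (U := S)
        (isBounded_ball.subset inter_subset_left) hGd.diffContOnCl
        (C := 16 * C * Real.exp (N * c) * α + e * δ * (625 * Real.exp N)) ?_ (subset_closure ha)
      · rw [hGn] at hmax
        have hlow : ‖Φ a‖ / 2 * α ≤ ‖∫ m in M, Φ (a * m)‖ := by
          have i1 := (hcont a (subset_closure ha)).integrableOn_compact (μ := volume) hMc
          have i2 : IntegrableOn (fun _ : ℂ => Φ a) M := integrableOn_const hMc.measure_lt_top.ne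
          have h1 : ‖∫ m in M, (Φ (a * m) - Φ a)‖ ≤ ‖Φ a‖ / 2 * α :=
            norm_setIntegral_le_of_norm_le_const hMc.measure_lt_top fun m hm => hεa m hm.2
          rw [integral_sub i1 i2, setIntegral_const] at h1
          have h2 := norm_sub_norm_le (α • Φ a) (∫ m in M, Φ (a * m))
          rw [norm_sub_rev, norm_smul, Real.norm_of_nonneg hα0.le] at h2
          linarith
        have h3 : ‖Φ a‖ / 2 * α * ‖q a‖ ^ 4 * Real.exp (N * (conj ζ * a).re)
            ≤ 16 * C * Real.exp (N * c) * α + e * δ * (625 * Real.exp N) := by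
          refine le_trans ?_ hmax
          gcongr
        have h4 : e * δ * (625 * Real.exp N) ≤ e * (625 * Real.exp N / c0) * α := by
          calc e * δ * (625 * Real.exp N) = e * (625 * Real.exp N / c0) * (c0 * δ) := by
                field_simp
            _ ≤ _ := by gcongr
        refine le_of_mul_le_mul_right ?_ hα0
        nlinarith
      · intro l hl
        have hlc : l ∈ closure S := frontier_subset_closure hl
        obtain ⟨h1, h2⟩ := hcl l hlc
        have p1 : 0 ≤ 16 * C * Real.exp (N * c) * α := by positivity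
        have p2 : 0 ≤ e * δ * (625 * Real.exp N) := by positivity
        rw [hGn]
        rcases frontier_inter_subset _ _ hl with h | h
        · -- the arc
          have hl1 : ‖l‖ = 1 := by
            have := h.1
            rwa [frontier_ball _ one_ne_zero, mem_sphere_zero_iff_norm] at this
          have hK : IsCompact ({w : ℂ | ‖w‖ ∈ Icc (1 - δ) (1 - δ / 2)} ∩ closedBall ζ ρ) :=
            (isCompact_annulus _ _).inter_right isClosed_closedBall
          have hKU : {w : ℂ | ‖w‖ ∈ Icc (1 - δ) (1 - δ / 2)} ∩ closedBall ζ ρ ⊆ U := by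
            intro w hw
            refine ⟨closedBall_subset_ball (by linarith) hw.2, mem_ball_zero_iff.mpr ?_⟩
            linarith [hw.1.2]
          have b1 : ‖∫ m in M, Φ (l * m)‖ ≤ e * δ := by
            refine (norm_integral_le_integral_norm _).trans ?_
            rw [rot_integral hl1 (fun y => ‖Φ y‖) M]
            refine le_trans (setIntegral_mono_set
              ((hΦ.continuousOn.mono hKU).norm.integrableOn_compact hK)
              (Eventually.of_forall fun _ => norm_nonneg _) (LE.le.eventuallyLE ?_)) hint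
            rintro _ ⟨m, hm, rfl⟩
            refine ⟨?_, ?_⟩
            · show ‖l * m‖ ∈ Icc (1 - δ) (1 - δ / 2)
              rw [norm_mul, hl1, one_mul]
              exact hm.1
            · rw [mem_closedBall, dist_eq_norm]
              exact (hmem' l hlc m hm).1
          have b2 : ‖q l‖ ≤ 5 := by
            have t1 : ‖conj ζ * l - c‖ ≤ 2 := by
              refine (norm_sub_le _ _).trans ?_
              rw [hnu, Complex.norm_real, Real.norm_of_nonneg hc0.le]
              linarith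
            have t2 : ‖(1 : ℂ) - (c : ℂ) ^ 2‖ ≤ 1 := by
              have : (1 : ℂ) - (c : ℂ) ^ 2 = ((1 - c ^ 2 : ℝ) : ℂ) := by push_cast; ring
              rw [this, Complex.norm_real, Real.norm_of_nonneg (by nlinarith)]
              nlinarith
            refine (norm_add_le _ _).trans ?_
            rw [norm_pow]
            nlinarith [norm_nonneg (conj ζ * l - c)]
          have b3 : Real.exp (N * (conj ζ * l).re) ≤ Real.exp N := by
            refine Real.exp_le_exp.mpr ?_
            have := (Complex.re_le_norm (conj ζ * l)).trans ((hnu l).le.trans h1)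
            nlinarith
          calc _ ≤ e * δ * 5 ^ 4 * Real.exp N := by gcongr
            _ = e * δ * (625 * Real.exp N) := by ring
            _ ≤ _ := by linarith
        · -- the chord
          have hl1 : c = (conj ζ * l).re := frontier_lt_subset_eq continuous_const hre h.2
          have b2 : ‖q l‖ ≤ 2 * (1 - ‖l‖) := by
            have t1 : q l = ((1 - ‖l‖ ^ 2 : ℝ) : ℂ) := by
              rw [← hnu l, Complex.sq_norm, Complex.normSq_apply, ← hl1]
              simp only [hq]
              generalize conj ζ * l = u at hl1 ⊢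
              apply Complex.ext
              · simp [sq, ← hl1]; ring
              · simp [sq, ← hl1]
            rw [t1, Complex.norm_real, Real.norm_of_nonneg (by nlinarith [norm_nonneg l])]
            nlinarith [norm_nonneg l]
          have b1 : ‖∫ m in M, Φ (l * m)‖ * ‖q l‖ ^ 4 ≤ 16 * C * α := by
            rw [← norm_pow, ← norm_mul, ← integral_mul_const]
            refine norm_setIntegral_le_of_norm_le_const hMc.measure_lt_top fun m hm => ?_
            rw [norm_mul, norm_pow]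
            have t1 := hC _ (hmem l hlc m hm)
            have t2 : ‖q l‖ ≤ 2 * (1 - ‖l * m‖) := by linarith [(hmem' l hlc m hm).2.1]
            calc _ ≤ ‖Φ (l * m)‖ * (2 * (1 - ‖l * m‖)) ^ 4 := by gcongr
              _ = 16 * ((1 - ‖l * m‖) ^ 4 * ‖Φ (l * m)‖) := by ring
              _ ≤ _ := by linarith
          rw [← hl1]
          calc _ ≤ 16 * C * α * Real.exp (N * c) := by gcongr
            _ = 16 * C * Real.exp (N * c) * α := by ring
            _ ≤ _ := by linarith
    have step2 : ∀ N : ℝ, 0 ≤ N →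
        ‖Φ a‖ / 2 * ‖q a‖ ^ 4 ≤ 16 * C * Real.exp (-(((conj ζ * a).re - c) * N)) := by
      intro N hN
      have h1 : ‖Φ a‖ / 2 * ‖q a‖ ^ 4 * Real.exp (N * (conj ζ * a).re)
          ≤ 16 * C * Real.exp (N * c) := by
        refine le_of_forall_pos_le_add fun e he => ?_
        have hk : 0 < 625 * Real.exp N / c0 := by positivity
        have := step N hN (e / (625 * Real.exp N / c0)) (by positivity)
        rwa [div_mul_cancel₀ _ hk.ne'] at this
      have e1 : Real.exp (N * c)
          = Real.exp (-(((conj ζ * a).re - c) * N)) * Real.exp (N * (conj ζ * a).re) := by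
        rw [← Real.exp_add]; congr 1; ring
      rw [e1, ← mul_assoc] at h1
      exact le_of_mul_le_mul_right h1 (Real.exp_pos _)
    have hlim : Tendsto (fun N : ℝ => 16 * C * Real.exp (-(((conj ζ * a).re - c) * N))) atTop
        (𝓝 (16 * C * 0)) :=
      (Real.tendsto_exp_neg_atTop_nhds_zero.comp
        (tendsto_id.const_mul_atTop (sub_pos.mpr ha.2))).const_mul _
    have h0 : ‖Φ a‖ / 2 * ‖q a‖ ^ 4 ≤ 16 * C * 0 :=
      ge_of_tendsto hlim ((eventually_ge_atTop 0).mono step2)
    have h1 : 0 < ‖Φ a‖ / 2 * ‖q a‖ ^ 4 := by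
      have := norm_pos_iff.mpr hqa
      positivity
    linarith
  have ha0 : (((1 + c) / 2 : ℝ) : ℂ) * ζ ∈ S := by
    refine ⟨?_, ?_⟩
    · rw [mem_ball_zero_iff, norm_mul, hζ, mul_one, Complex.norm_real,
        Real.norm_of_nonneg (by linarith)]
      linarith
    · show c < (conj ζ * ((((1 + c) / 2 : ℝ) : ℂ) * ζ)).re
      rw [mul_left_comm, hζζ, mul_one, Complex.ofReal_re]
      linarith
  refine (hΦ.analyticOnNhd hUo).eqOn_zero_of_preconnected_of_eventuallyEq_zero
    ((convex_ball _ _).inter (convex_ball _ _)).isPreconnected (hSU ha0) ?_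
  filter_upwards [hSo.mem_nhds ha0] with l hl
  exact key l hl

end Pool.Agent.Lib.MP_435399_an
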