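import Mathlib
import Pool.Agent.Lib.MP_435399_an.Polar

set_option autoImplicit false

open MeasureTheory Set Metric Real Complex Filter Topology ComplexConjugate

namespace Pool.Agent.Lib.MP_435399_an

/-- Area measure on the unit disc. -/
noncomputable abbrev μD : Measure ℂ := volume.restrict (ball (0 : ℂ) 1)

instance : IsFiniteMeasure μD := ⟨by rw [Measure.restrict_apply_univ]; exact measure_ball_lt_top⟩

lemma memLp_of_sq {g : ℂ → ℂ} (hg : ContinuousOn g (ball 0 1))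
    (hi : IntegrableOn (fun w => ‖g w‖ ^ 2) (ball (0 : ℂ) 1)) : MemLp g 2 μD :=
  (memLp_two_iff_integrable_sq_norm (hg.aestronglyMeasurable measurableSet_ball)).mpr hi

lemma memLp_of_le {φ : ℂ → ℂ} {u : ℂ → ℝ} (hφ : ContinuousOn φ (ball 0 1)) (hu : MemLp u 2 μD)
    (h : ∀ w ∈ ball (0 : ℂ) 1, ‖φ w‖ ≤ u w) : MemLp φ 2 μD :=
  hu.mono' (hφ.aestronglyMeasurable measurableSet_ball)
    ((ae_restrict_iff' measurableSet_ball).mpr (Eventually.of_forall h))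

lemma tendsto_integral_mul {u : ℂ → ℝ} (hu : MemLp u 2 μD) {v : ℕ → ℂ → ℂ}
    (hv : ∀ j, MemLp (v j) 2 μD)
    (h : Tendsto (fun j => ∫ w, ‖v j w‖ ^ 2 ∂μD) atTop (𝓝 0)) :
    Tendsto (fun j => ∫ w, u w * ‖v j w‖ ∂μD) atTop (𝓝 0) := by
  have hu2 : Integrable (fun w => u w ^ 2) μD := hu.integrable_sq
  set U := ∫ w, u w ^ 2 ∂μD with hU
  have hU0 : 0 ≤ U := integral_nonneg fun w => sq_nonneg _
  rw [Metric.tendsto_atTop]
  intro ε hε
  set t := ε / (U + 1) with ht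
  have ht0 : 0 < t := by positivity
  obtain ⟨N, hN⟩ := Metric.tendsto_atTop.mp h (t * ε) (by positivity)
  refine ⟨N, fun j hj => ?_⟩
  have hv2 : Integrable (fun w => ‖v j w‖ ^ 2) μD := (hv j).norm.integrable_sq
  have h1 := hN j hj
  rw [Real.dist_eq, sub_zero] at h1 ⊢
  have h2 : ‖∫ w, u w * ‖v j w‖ ∂μD‖ ≤ ∫ w, (t / 2 * u w ^ 2 + 1 / (2 * t) * ‖v j w‖ ^ 2) ∂μD := by
    refine norm_integral_le_of_norm_le ((hu2.const_mul _).add (hv2.const_mul _))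
      (Eventually.of_forall fun w => ?_)
    rw [norm_mul, norm_norm, Real.norm_eq_abs]
    have e : t / 2 * u w ^ 2 + 1 / (2 * t) * ‖v j w‖ ^ 2 - |u w| * ‖v j w‖
        = (t * |u w| - ‖v j w‖) ^ 2 / (2 * t) := by
      rw [← sq_abs (u w)]; field_simp; ring
    have : 0 ≤ (t * |u w| - ‖v j w‖) ^ 2 / (2 * t) := by positivity
    linarith
  rw [integral_add (hu2.const_mul _) (hv2.const_mul _), integral_const_mul, integral_const_mul,
    Real.norm_eq_abs] at h2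
  have h3 : 1 / (2 * t) * ∫ w, ‖v j w‖ ^ 2 ∂μD < 1 / (2 * t) * (t * ε) :=
    mul_lt_mul_of_pos_left ((le_abs_self _).trans_lt h1) (by positivity)
  have h4 : 1 / (2 * t) * (t * ε) = ε / 2 := by field_simp
  have h5 : t / 2 * U ≤ ε / 2 := by
    have : t * (U + 1) = ε := by rw [ht]; field_simp
    nlinarith
  linarith

lemma differentiableOn_of_approx {G : ℂ → ℂ} {Gj : ℕ → ℂ → ℂ}
    (hd : ∀ j, DifferentiableOn ℂ (Gj j) (ball 0 1))
    (h : ∀ ρ : ℝ, 0 < ρ → ρ < 1 → ∃ b : ℕ → ℝ, Tendsto b atTop (𝓝 0) ∧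
      ∀ j a, ‖a‖ ≤ ρ → ‖Gj j a - G a‖ ≤ b j) : DifferentiableOn ℂ G (ball 0 1) := by
  intro a ha
  have ha' : ‖a‖ < 1 := mem_ball_zero_iff.mp ha
  set ρ := (1 + ‖a‖) / 2 with hρ
  have hρ0 : 0 < ρ := by positivity
  have hρ1 : ρ < 1 := by linarith
  obtain ⟨b, hb, hbd⟩ := h ρ hρ0 hρ1
  have hu : TendstoUniformlyOn Gj G atTop (ball 0 ρ) := by
    rw [Metric.tendstoUniformlyOn_iff]
    intro ε hε
    filter_upwards [hb.eventually (gt_mem_nhds hε)] with j hj x hx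
    rw [dist_comm, dist_eq_norm]
    exact (hbd j x (mem_ball_zero_iff.mp hx).le).trans_lt hj
  have := hu.tendstoLocallyUniformlyOn.differentiableOn
    (Eventually.of_forall fun j => (hd j).mono (ball_subset_ball hρ1.le)) isOpen_ball
  exact (this.differentiableAt (isOpen_ball.mem_nhds
    (mem_ball_zero_iff.mpr (by linarith)))).differentiableWithinAt

lemma one_sub_mul_ne {a w : ℂ} (ha : ‖a‖ < 1) (hw : ‖w‖ ≤ 1) : 1 - a * w ≠ 0 := by
  intro h
  have := norm_one_sub_mul_ge (a := a) hw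
  rw [h, norm_zero] at this
  linarith

lemma kernel_differentiableOn {a : ℂ} (ha : ‖a‖ < 1) :
    DifferentiableOn ℂ (fun w => ((1 - a * w) ^ 2)⁻¹) (ball 0 1) :=
  DifferentiableOn.inv (by fun_prop) fun w hw =>
    pow_ne_zero 2 (one_sub_mul_ne ha (mem_ball_zero_iff.mp hw).le)

lemma kernel_memLp {a : ℂ} (ha : ‖a‖ < 1) : MemLp (fun w => ((1 - a * w) ^ 2)⁻¹) 2 μD :=
  memLp_of_le (kernel_differentiableOn ha).continuousOn (memLp_const ((1 - ‖a‖) ^ 2)⁻¹)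
    fun _ hw => norm_kernel_le ha (mem_ball_zero_iff.mp hw).le

/-- A finite combination of kernels. -/
noncomputable def comb (z : ℕ → ℂ) (s : Finset ℕ) (a : ℕ → ℂ) (w : ℂ) : ℂ :=
  ∑ n ∈ s, a n * ((1 - z n * w) ^ 2)⁻¹

lemma comb_differentiableOn {z : ℕ → ℂ} (hz : ∀ n, ‖z n‖ < 1) (s : Finset ℕ) (a : ℕ → ℂ) :
    DifferentiableOn ℂ (comb z s a) (ball 0 1) :=
  DifferentiableOn.fun_sum fun n _ => (kernel_differentiableOn (hz n)).const_mul _

lemma comb_memLp {z : ℕ → ℂ} (hz : ∀ n, ‖z n‖ < 1) (s : Finset ℕ) (a : ℕ → ℂ) :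
    MemLp (comb z s a) 2 μD :=
  memLp_finsetSum s fun n _ => (kernel_memLp (hz n)).const_mul _

lemma norm_sq_L2 (x : Lp ℂ 2 μD) : ‖x‖ ^ 2 = ∫ w, ‖x w‖ ^ 2 ∂μD := by
  have h := L2.inner_def (𝕜 := ℂ) x x
  rw [inner_self_eq_norm_sq_to_K] at h
  simp_rw [inner_self_eq_norm_sq_to_K] at h
  have e : ∫ w, ((‖x w‖ : ℝ) : ℂ) ^ 2 ∂μD = ((∫ w, ‖x w‖ ^ 2 ∂μD : ℝ) : ℂ) := by
    rw [← integral_complex_ofReal]
    simp
  have : ((‖x‖ ^ 2 : ℝ) : ℂ) = ((∫ w, ‖x w‖ ^ 2 ∂μD : ℝ) : ℂ) := by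
    rw [← e]; push_cast; exact h
  exact_mod_cast this

/-- If the kernels do not span, a nonzero Bergman function vanishes at the conjugate points. -/
theorem exists_annihilator {z : ℕ → ℂ} (hz : ∀ n, ‖z n‖ < 1) {h : ℂ → ℂ}
    (hd : DifferentiableOn ℂ h (ball 0 1)) (hi : MemLp h 2 μD) {ε : ℝ} (hε : 0 < ε)
    (hfar : ∀ (s : Finset ℕ) (a : ℕ → ℂ), ε ≤ ∫ w, ‖h w - comb z s a w‖ ^ 2 ∂μD) :
    ∃ g : ℂ → ℂ, DifferentiableOn ℂ g (ball 0 1) ∧ MemLp g 2 μD ∧ (∀ n, g (conj (z n)) = 0) ∧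
      ∃ w ∈ ball (0 : ℂ) 1, g w ≠ 0 := by
  set kn : ℕ → Lp ℂ 2 μD := fun n => (kernel_memLp (hz n)).toLp _ with hkn
  set V : Submodule ℂ (Lp ℂ 2 μD) := Submodule.span ℂ (range kn) with hV
  obtain ⟨y, hy, v, hv, hyv⟩ := V.topologicalClosure.exists_add_mem_mem_orthogonal (hi.toLp h)
  obtain ⟨p, hp, hpy⟩ := mem_closure_iff_seq_limit.mp
    (show y ∈ closure (V : Set (Lp ℂ 2 μD)) from hy)
  have hrep : ∀ x ∈ V, ∃ (s : Finset ℕ) (a : ℕ → ℂ), x =ᵐ[μD] comb z s a := by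
    intro x hx
    obtain ⟨c, rfl⟩ := Finsupp.mem_span_range_iff_exists_finsupp.mp hx
    refine ⟨c.support, c, ?_⟩
    unfold Finsupp.sum
    have h1 : ∀ᵐ w ∂μD, ∀ n, (c n • kn n) w = c n * ((1 - z n * w) ^ 2)⁻¹ := by
      rw [ae_all_iff]
      intro n
      filter_upwards [Lp.coeFn_smul (c n) (kn n), (kernel_memLp (hz n)).coeFn_toLp] with w e1 e2
      rw [e1, Pi.smul_apply, hkn, e2, smul_eq_mul]
    filter_upwards [Lp.coeFn_finsetSum c.support (fun n => c n • kn n), h1] with w e1 e2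
    rw [e1, Finset.sum_apply]
    exact Finset.sum_congr rfl fun n _ => e2 n
  choose s a hsa using fun i => hrep (p i) (hp i)
  set u : ℕ → ℂ → ℂ := fun i w => h w - comb z (s i) (a i) w with hu
  have hud : ∀ i, DifferentiableOn ℂ (u i) (ball 0 1) :=
    fun i => hd.sub (comb_differentiableOn hz _ _)
  have hum : ∀ i, MemLp (u i) 2 μD := fun i => hi.sub (comb_memLp hz _ _)
  have hue : ∀ i, (hi.toLp h - p i : Lp ℂ 2 μD) =ᵐ[μD] u i := by
    intro i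
    filter_upwards [Lp.coeFn_sub (hi.toLp h) (p i), hi.coeFn_toLp, hsa i] with w e1 e2 e3
    rw [e1, Pi.sub_apply, e2, e3]
  have hlim : Tendsto (fun i => hi.toLp h - p i) atTop (𝓝 v) := by
    have : v = hi.toLp h - y := by rw [hyv]; abel
    rw [this]
    exact tendsto_const_nhds.sub hpy
  have hvpos : ε ≤ ‖v‖ ^ 2 := by
    refine ge_of_tendsto' (hlim.norm.pow 2) fun i => ?_
    rw [norm_sq_L2]
    refine (hfar (s i) (a i)).trans (le_of_eq (integral_congr_ae ?_))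
    filter_upwards [hue i] with w e
    rw [e]
  have hL2 : Tendsto (fun i => ∫ w, ‖u i w - v w‖ ^ 2 ∂μD) atTop (𝓝 0) := by
    have h1 := (tendsto_iff_norm_sub_tendsto_zero.mp hlim).pow 2
    rw [zero_pow two_ne_zero] at h1
    refine h1.congr fun i => ?_
    rw [norm_sq_L2]
    refine integral_congr_ae ?_
    filter_upwards [Lp.coeFn_sub (hi.toLp h - p i) v, hue i] with w e1 e2
    rw [e1, Pi.sub_apply, e2]
  have hvm : MemLp v 2 μD := Lp.memLp v
  set g : ℂ → ℂ := fun b => (π : ℂ)⁻¹ * ∫ w, v w * ((1 - b * conj w) ^ 2)⁻¹ ∂μD with hg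
  have hπ : (π : ℂ) ≠ 0 := by exact_mod_cast pi_ne_zero
  have hb1 : Tendsto (fun i => ∫ w, (1 : ℝ) * ‖u i w - v w‖ ∂μD) atTop (𝓝 0) :=
    tendsto_integral_mul (u := fun _ => 1) (memLp_const 1) (fun i => (hum i).sub hvm) hL2
  have hbound : ∀ (ρ : ℝ), ρ < 1 → ∀ i b, ‖b‖ ≤ ρ →
      ‖u i b - g b‖ ≤ π⁻¹ * ((1 - ρ) ^ 2)⁻¹ * ∫ w, (1 : ℝ) * ‖u i w - v w‖ ∂μD := by
    intro ρ hρ i b hb
    have hb' : ‖b‖ < 1 := hb.trans_lt hρ
    have i1 : IntegrableOn (u i) (ball (0 : ℂ) 1) := (hum i).integrable one_le_two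
    have i2 : IntegrableOn v (ball (0 : ℂ) 1) := hvm.integrable one_le_two
    have e1 : u i b - g b = (π : ℂ)⁻¹ * ∫ w, (u i w - v w) * ((1 - b * conj w) ^ 2)⁻¹ ∂μD := by
      simp_rw [sub_mul]
      rw [integral_sub (integrableOn_mul_kernel i1 hb') (integrableOn_mul_kernel i2 hb'),
        reproducing (hud i) i1 hb', hg]
      field_simp
    rw [e1, norm_mul, norm_inv, Complex.norm_real, Real.norm_of_nonneg pi_pos.le, mul_assoc,
      ← integral_const_mul]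
    refine mul_le_mul_of_nonneg_left ?_ (inv_nonneg.mpr pi_pos.le)
    refine norm_integral_le_of_norm_le (((i1.sub i2).norm.const_mul _).const_mul _) ?_
    refine (ae_restrict_iff' measurableSet_ball).mpr (Eventually.of_forall fun w hw => ?_)
    rw [norm_mul, one_mul, mul_comm]
    refine mul_le_mul_of_nonneg_right ?_ (norm_nonneg _)
    refine (norm_kernel_le hb' ?_).trans ?_
    · rw [Complex.norm_conj]; exact (mem_ball_zero_iff.mp hw).le
    · have : 0 < 1 - ρ := by linarith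
      exact inv_anti₀ (by positivity) (pow_le_pow_left₀ this.le (by linarith) 2)
  have hb2 : ∀ ρ : ℝ, Tendsto (fun i => π⁻¹ * ((1 - ρ) ^ 2)⁻¹ * ∫ w, (1 : ℝ) * ‖u i w - v w‖ ∂μD)
      atTop (𝓝 0) := fun ρ => by simpa using hb1.const_mul (π⁻¹ * ((1 - ρ) ^ 2)⁻¹)
  have hgd : DifferentiableOn ℂ g (ball 0 1) :=
    differentiableOn_of_approx hud fun ρ _ hρ => ⟨_, hb2 ρ, hbound ρ hρ⟩
  have hpt : ∀ b ∈ ball (0 : ℂ) 1, Tendsto (fun i => u i b) atTop (𝓝 (g b)) := by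
    intro b hb
    rw [tendsto_iff_norm_sub_tendsto_zero]
    exact squeeze_zero (fun _ => norm_nonneg _)
      (fun i => hbound ‖b‖ (mem_ball_zero_iff.mp hb) i b le_rfl) (hb2 ‖b‖)
  have hgv : g =ᵐ[μD] v := by
    obtain ⟨ns, hns, hae⟩ := (tendstoInMeasure_of_tendsto_Lp hlim).exists_seq_tendsto_ae
    have h1 : ∀ᵐ w ∂μD, ∀ i, (hi.toLp h - p i : Lp ℂ 2 μD) w = u i w := ae_all_iff.mpr hue
    filter_upwards [hae, h1, ae_restrict_mem measurableSet_ball] with w e1 e2 e3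
    simp_rw [e2] at e1
    exact tendsto_nhds_unique ((hpt w e3).comp hns.tendsto_atTop) e1
  refine ⟨g, hgd, hvm.ae_eq hgv.symm, fun n => ?_, ?_⟩
  · have h1 := (Submodule.mem_orthogonal _ _).mp hv (kn n)
      (V.le_topologicalClosure (Submodule.subset_span ⟨n, rfl⟩))
    rw [L2.inner_def] at h1
    have h2 : ∫ w, v w * ((1 - conj (z n) * conj w) ^ 2)⁻¹ ∂μD = 0 := by
      rw [← h1]
      refine integral_congr_ae ?_
      filter_upwards [(kernel_memLp (hz n)).coeFn_toLp] with w e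
      rw [RCLike.inner_apply, hkn, e]
      simp
    simp only [hg, h2, mul_zero]
  · by_contra hc
    push Not at hc
    have : ∫ w, ‖v w‖ ^ 2 ∂μD = 0 := by
      refine integral_eq_zero_of_ae ?_
      filter_upwards [hgv, ae_restrict_mem measurableSet_ball] with w e1 e2
      rw [← e1, hc w e2]
      simp
    rw [norm_sq_L2, this] at hvpos
    linarith

end Pool.Agent.Lib.MP_435399_an
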