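import Mathlib
import Pool.Agent.Lib.MP_435399_an.Vanish
import Pool.Agent.Lib.MP_435399_an.Hilbert

set_option autoImplicit false

open MeasureTheory Set Metric Real Complex Filter Topology ComplexConjugate

namespace Pool.Agent.Lib.MP_435399_an

lemma tendstoLocallyUniformlyOn_of_approx {G : ℂ → ℂ} {Gj : ℕ → ℂ → ℂ}
    (h : ∀ ρ : ℝ, 0 < ρ → ρ < 1 → ∃ b : ℕ → ℝ, Tendsto b atTop (𝓝 0) ∧
      ∀ j a, ‖a‖ ≤ ρ → ‖Gj j a - G a‖ ≤ b j) :
    TendstoLocallyUniformlyOn Gj G atTop (ball 0 1) := by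
  rw [Metric.tendstoLocallyUniformlyOn_iff]
  intro ε hε a ha
  have ha' : ‖a‖ < 1 := mem_ball_zero_iff.mp ha
  obtain ⟨b, hb, hbd⟩ := h ((1 + ‖a‖) / 2) (by positivity) (by linarith)
  refine ⟨ball 0 ((1 + ‖a‖) / 2), mem_nhdsWithin_of_mem_nhds
    (isOpen_ball.mem_nhds (mem_ball_zero_iff.mpr (by linarith))), ?_⟩
  filter_upwards [hb.eventually (gt_mem_nhds hε)] with j hj x hx
  rw [dist_comm, dist_eq_norm]
  exact (hbd j x (mem_ball_zero_iff.mp hx).le).trans_lt hj

lemma integrable_mul_conj {φ f : ℂ → ℂ} (hφ : MemLp φ 2 μD) (hf : MemLp f 2 μD) :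
    Integrable (fun w => φ w * conj (f w)) μD :=
  hφ.integrable_mul hf.star

lemma pairing_comb {z : ℕ → ℂ} (hz : ∀ n, ‖z n‖ < 1) {φ : ℂ → ℂ}
    (hd : DifferentiableOn ℂ φ (ball 0 1)) (hφ : MemLp φ 2 μD) (s : Finset ℕ) (a : ℕ → ℂ) :
    ∫ w, φ w * conj (comb z s a w) ∂μD = π * ∑ n ∈ s, conj (a n) * φ (conj (z n)) := by
  have hi : IntegrableOn φ (ball (0 : ℂ) 1) := hφ.integrable one_le_two
  have hz' : ∀ n, ‖conj (z n)‖ < 1 := fun n => by rw [Complex.norm_conj]; exact hz n
  have e : ∀ w, φ w * conj (comb z s a w)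
      = ∑ n ∈ s, conj (a n) * (φ w * ((1 - conj (z n) * conj w) ^ 2)⁻¹) := by
    intro w
    unfold comb
    rw [map_sum, Finset.mul_sum]
    refine Finset.sum_congr rfl fun n _ => ?_
    simp only [map_mul, map_inv₀, map_pow, map_sub, map_one]
    ring
  simp_rw [e]
  rw [integral_finsetSum _ fun n _ => (integrableOn_mul_kernel hi (hz' n)).const_mul _,
    Finset.mul_sum]
  refine Finset.sum_congr rfl fun n _ => ?_
  rw [integral_const_mul, reproducing hd hi (hz' n)]
  ring

lemma norm_pairing_sub_le {φ f f' : ℂ → ℂ} {u : ℂ → ℝ} (hφ : MemLp φ 2 μD) (hf : MemLp f 2 μD)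
    (hf' : MemLp f' 2 μD) (hu : MemLp u 2 μD) (h : ∀ w ∈ ball (0 : ℂ) 1, ‖φ w‖ ≤ u w) :
    ‖∫ w, φ w * conj (f' w) ∂μD - ∫ w, φ w * conj (f w) ∂μD‖ ≤ ∫ w, u w * ‖f' w - f w‖ ∂μD := by
  rw [← integral_sub (integrable_mul_conj hφ hf') (integrable_mul_conj hφ hf)]
  refine norm_integral_le_of_norm_le (hu.integrable_mul (hf'.sub hf).norm) ?_
  refine (ae_restrict_iff' measurableSet_ball).mpr (Eventually.of_forall fun w hw => ?_)
  rw [← mul_sub, ← map_sub, norm_mul, Complex.norm_conj]
  exact mul_le_mul_of_nonneg_right (h w hw) (norm_nonneg _)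

lemma dslope_bound {g : ℂ → ℂ} (hg : DifferentiableOn ℂ g (ball 0 1)) {ρ : ℝ} (h0 : 0 < ρ)
    (h1 : ρ < 1) : ∃ M : ℝ, ∀ l : ℂ, ‖l‖ ≤ ρ → ∀ w ∈ ball (0 : ℂ) 1,
      ‖dslope g l w‖ ≤ (‖g w‖ + M) / ((1 - ρ) / 2) := by
  set ρ' := (1 + ρ) / 2 with hρ'
  have hρ'1 : ρ' < 1 := by linarith
  have hρ'0 : 0 < ρ' := by linarith
  obtain ⟨M, hM⟩ := (isCompact_closedBall (0 : ℂ) ρ').exists_bound_of_continuousOn
    (hg.continuousOn.mono (closedBall_subset_ball hρ'1))
  have hM0 : 0 ≤ M := (norm_nonneg _).trans (hM 0 (mem_closedBall_self hρ'0.le))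
  refine ⟨2 * M, fun l hl w hw => ?_⟩
  have hη : 0 < (1 - ρ) / 2 := by linarith
  have hgl : ‖g l‖ ≤ M := hM l (mem_closedBall_zero_iff.mpr (by linarith))
  have far : ∀ u : ℂ, ρ' ≤ ‖u‖ → ‖dslope g l u‖ ≤ (‖g u‖ + M) / ((1 - ρ) / 2) := by
    intro u hu
    have h2 : (1 - ρ) / 2 ≤ ‖u - l‖ := by
      have := norm_sub_norm_le u l
      linarith
    have hne : u ≠ l := by
      intro h; rw [h, sub_self, norm_zero] at h2; linarith
    rw [dslope_of_ne _ hne, slope_def_field, norm_div]
    exact div_le_div₀ (by positivity) ((norm_sub_le _ _).trans (by linarith)) hη h2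
  by_cases hwρ : ρ' ≤ ‖w‖
  · exact (far w hwρ).trans (div_le_div_of_nonneg_right (by linarith) hη.le)
  · push Not at hwρ
    have hdd : DifferentiableOn ℂ (dslope g l) (ball 0 1) :=
      (Complex.differentiableOn_dslope
        (isOpen_ball.mem_nhds (mem_ball_zero_iff.mpr (by linarith)))).mpr hg
    have := Complex.norm_le_of_forall_mem_frontier_norm_le (U := ball (0 : ℂ) ρ') isBounded_ball
      (hdd.diffContOnCl_ball (closedBall_subset_ball hρ'1)) (C := 2 * M / ((1 - ρ) / 2)) (by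
        intro u hu
        rw [frontier_ball _ hρ'0.ne', mem_sphere_zero_iff_norm] at hu
        refine (far u hu.ge).trans (div_le_div_of_nonneg_right ?_ hη.le)
        have := hM u (mem_closedBall_zero_iff.mpr hu.le)
        linarith) (z := w) (subset_closure (mem_ball_zero_iff.mpr hwρ))
    exact this.trans (div_le_div_of_nonneg_right (by linarith [norm_nonneg (g w)]) hη.le)

lemma dslope_symm (g : ℂ → ℂ) (a b : ℂ) : dslope g a b = dslope g b a := by
  rcases eq_or_ne a b with rfl | h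
  · rfl
  · rw [dslope_of_ne _ h, dslope_of_ne _ h.symm, slope_comm]

/-- The uniqueness theorem, assuming only pointwise vanishing on a set with an outer limit point. -/
theorem main {z : ℕ → ℂ} (hz : ∀ n, ‖z n‖ < 1) {h : ℂ → ℂ}
    (hhd : DifferentiableOn ℂ h (ball 0 1))
    (hhi : IntegrableOn (fun w => ‖h w‖ ^ 2) (ball (0 : ℂ) 1)) {ε : ℝ} (hε : 0 < ε)
    (hfar : ∀ (s : Finset ℕ) (a : ℕ → ℂ), ε ≤ ∫ w, ‖h w - comb z s a w‖ ^ 2 ∂μD)
    (S : ℕ → Finset ℕ) (c : ℕ → ℕ → ℂ) {f : ℂ → ℂ} (hfd : DifferentiableOn ℂ f (ball 0 1))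
    (hfi : IntegrableOn (fun w => ‖f w‖ ^ 2) (ball (0 : ℂ) 1))
    (hconv : Tendsto (fun j => ∫ w, ‖comb z (S j) (c j) w - f w‖ ^ 2 ∂μD) atTop (𝓝 0))
    {w0 : ℂ} (hw0 : 1 < ‖w0‖)
    (hE : ∃ᶠ w in 𝓝[≠] w0, (∀ n, z n * w ≠ 1) ∧
      Tendsto (fun j => comb z (S j) (c j) w) atTop (𝓝 0)) :
    ∀ w ∈ ball (0 : ℂ) 1, f w = 0 := by
  obtain ⟨g, hgd, hgm, hgz, b0, hb0, hgb0⟩ :=
    exists_annihilator hz hhd (memLp_of_sq hhd.continuousOn hhi) hε hfar
  have hfm : MemLp f 2 μD := memLp_of_sq hfd.continuousOn hfi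
  have hcm : ∀ j, MemLp (comb z (S j) (c j)) 2 μD := fun j => comb_memLp hz _ _
  have hz' : ∀ n, conj (z n) ∈ ball (0 : ℂ) 1 := fun n => by
    rw [mem_ball_zero_iff, Complex.norm_conj]; exact hz n
  have hpre : IsPreconnected (ball (0 : ℂ) 1) := (convex_ball _ _).isPreconnected
  have hlimu : ∀ u : ℂ → ℝ, MemLp u 2 μD →
      Tendsto (fun j => ∫ w, u w * ‖comb z (S j) (c j) w - f w‖ ∂μD) atTop (𝓝 0) :=
    fun u hu => tendsto_integral_mul hu (fun j => (hcm j).sub hfm) hconv
  -- functions vanishing at the conjugate points are orthogonal to `f`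
  have horth : ∀ φ : ℂ → ℂ, DifferentiableOn ℂ φ (ball 0 1) → MemLp φ 2 μD →
      (∀ n, φ (conj (z n)) = 0) → ∫ w, φ w * conj (f w) ∂μD = 0 := by
    intro φ h1 h2 h3
    rw [← norm_le_zero_iff]
    refine ge_of_tendsto' (hlimu _ h2.norm) fun j => ?_
    have := norm_pairing_sub_le h2 hfm (hcm j) h2.norm (fun _ _ => le_rfl)
    rw [pairing_comb hz h1 h2] at this
    simpa [h3] using this
  have hdsd : ∀ l ∈ ball (0 : ℂ) 1, DifferentiableOn ℂ (dslope g l) (ball 0 1) :=
    fun l hl => (Complex.differentiableOn_dslope (isOpen_ball.mem_nhds hl)).mpr hgd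
  have hum : ∀ M η : ℝ, MemLp (fun w => (‖g w‖ + M) / η) 2 μD := by
    intro M η
    simp only [div_eq_mul_inv]
    exact (hgm.norm.add (memLp_const M)).mul_const _
  have hdsm : ∀ l ∈ ball (0 : ℂ) 1, MemLp (dslope g l) 2 μD := by
    intro l hl
    have hl' := mem_ball_zero_iff.mp hl
    obtain ⟨M, hM⟩ := dslope_bound hgd (ρ := (1 + ‖l‖) / 2) (by positivity) (by linarith)
    exact memLp_of_le (hdsd l hl).continuousOn (hum _ _) (hM l (by linarith))
  set H : ℂ → ℂ := fun l => ∫ w, dslope g l w * conj (f w) ∂μD with hH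
  set Hj : ℕ → ℂ → ℂ := fun j l => π * ∑ n ∈ S j, conj (c j n) * dslope g (conj (z n)) l with hHj
  have hHjd : ∀ j, DifferentiableOn ℂ (Hj j) (ball 0 1) := fun j =>
    (DifferentiableOn.fun_sum fun n _ => (hdsd _ (hz' n)).const_mul _).const_mul _
  have hloc : TendstoLocallyUniformlyOn Hj H atTop (ball 0 1) := by
    refine tendstoLocallyUniformlyOn_of_approx fun ρ h0 h1 => ?_
    obtain ⟨M, hM⟩ := dslope_bound hgd h0 h1
    refine ⟨_, hlimu _ (hum M ((1 - ρ) / 2)), fun j l hl => ?_⟩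
    have hl' : l ∈ ball (0 : ℂ) 1 := mem_ball_zero_iff.mpr (hl.trans_lt h1)
    have := norm_pairing_sub_le (hdsm l hl') hfm (hcm j) (hum M ((1 - ρ) / 2)) (hM l hl)
    rw [pairing_comb hz (hdsd l hl') (hdsm l hl')] at this
    simp only [hHj, hH, dslope_symm g (conj (z _)) l]
    exact this
  have hHd : DifferentiableOn ℂ H (ball 0 1) :=
    hloc.differentiableOn (Eventually.of_forall hHjd) isOpen_ball
  have hloc' := hloc.deriv (Eventually.of_forall hHjd) isOpen_ball
  -- the Wronskian vanishes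
  set W : ℂ → ℂ := fun l => deriv H l * g l - H l * deriv g l with hW
  have hWd : DifferentiableOn ℂ W (ball 0 1) :=
    ((hHd.deriv isOpen_ball).mul hgd).sub (hHd.mul (hgd.deriv isOpen_ball))
  have hWpt : ∀ w : ℂ, 1 < ‖w‖ → (∀ n, z n * w ≠ 1) →
      Tendsto (fun j => comb z (S j) (c j) w) atTop (𝓝 0) → W (conj w)⁻¹ = 0 := by
    intro w hw hnp hlim
    set l := (conj w)⁻¹ with hl
    have hw0 : w ≠ 0 := by
      intro h0; rw [h0, norm_zero] at hw; linarith
    have hcw : conj w ≠ 0 := by simpa using hw0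
    have hlb : l ∈ ball (0 : ℂ) 1 := by
      rw [mem_ball_zero_iff, hl, norm_inv, Complex.norm_conj]
      exact inv_lt_one_of_one_lt₀ hw
    have hne : ∀ n, l - conj (z n) ≠ 0 := by
      intro n h0
      apply hnp n
      have : conj (z n) * conj w = 1 := by
        rw [← sub_eq_zero.mp h0, hl, inv_mul_cancel₀ hcw]
      have := congrArg conj this
      simpa using this
    have hgl : HasDerivAt g (deriv g l) l :=
      (hgd.differentiableAt (isOpen_ball.mem_nhds hlb)).hasDerivAt
    have hval : ∀ n, dslope g (conj (z n)) l = g l / (l - conj (z n)) := by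
      intro n
      rw [dslope_of_ne _ (sub_ne_zero.mp (hne n)), slope_def_field, hgz, sub_zero]
    have hder : ∀ n, HasDerivAt (dslope g (conj (z n)))
        ((deriv g l * (l - conj (z n)) - g l * 1) / (l - conj (z n)) ^ 2) l := by
      intro n
      refine (hgl.div ((hasDerivAt_id l).sub_const (conj (z n))) (hne n)).congr_of_eventuallyEq ?_
      filter_upwards [isOpen_ne.mem_nhds (sub_ne_zero.mp (hne n))] with u hu
      rw [dslope_of_ne _ hu, slope_def_field, hgz, sub_zero]
      rfl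
    have hj : ∀ j, deriv (Hj j) l * g l - Hj j l * deriv g l
        = -(π * (g l) ^ 2 * (conj w) ^ 2) * conj (comb z (S j) (c j) w) := by
      intro j
      have := ((HasDerivAt.fun_sum (u := S j) fun n _ =>
        (hder n).const_mul (conj (c j n))).const_mul (π : ℂ)).deriv
      simp only [hHj]
      rw [this]
      simp only [hval, comb, map_sum, Finset.mul_sum, Finset.sum_mul, ← Finset.sum_sub_distrib]
      refine Finset.sum_congr rfl fun n _ => ?_
      simp only [map_mul, map_inv₀, map_pow, map_sub, map_one]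
      have e : 1 - conj (z n) * conj w = (l - conj (z n)) * conj w := by
        rw [sub_mul, hl, inv_mul_cancel₀ hcw]
      rw [e]
      have := hne n
      field_simp
      ring
    have t1 : Tendsto (fun j => deriv (Hj j) l * g l - Hj j l * deriv g l) atTop (𝓝 (W l)) :=
      ((hloc'.tendsto_at hlb).mul_const _).sub ((hloc.tendsto_at hlb).mul_const _)
    have t2 : Tendsto (fun j => deriv (Hj j) l * g l - Hj j l * deriv g l) atTop (𝓝 0) := by
      simp_rw [hj]
      have := ((Complex.continuous_conj.tendsto 0).comp hlim).const_mul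
        (-(π * (g l) ^ 2 * (conj w) ^ 2))
      simpa using this
    exact tendsto_nhds_unique t1 t2
  have hW0 : EqOn W 0 (ball 0 1) := by
    have hw00 : w0 ≠ 0 := by
      intro h0; rw [h0, norm_zero] at hw0; linarith
    refine (hWd.analyticOnNhd isOpen_ball).eqOn_zero_of_preconnected_of_frequently_eq_zero hpre
      (z₀ := (conj w0)⁻¹) ?_ ?_
    · rw [mem_ball_zero_iff, norm_inv, Complex.norm_conj]
      exact inv_lt_one_of_one_lt₀ hw0
    · have ht : Tendsto (fun w : ℂ => (conj w)⁻¹) (𝓝[≠] w0) (𝓝[≠] (conj w0)⁻¹) := by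
        refine tendsto_nhdsWithin_of_tendsto_nhds_of_eventually_within _
          (Tendsto.mono_left ((Complex.continuous_conj.tendsto w0).inv₀ (by simpa using hw00))
            nhdsWithin_le_nhds) ?_
        filter_upwards [self_mem_nhdsWithin] with w hw h0
        have := congrArg conj (inv_injective (mem_singleton_iff.mp h0))
        exact hw (by simpa using this)
      refine ht.frequently ?_
      have hev : ∀ᶠ w in 𝓝[≠] w0, 1 < ‖w‖ :=
        mem_nhdsWithin_of_mem_nhds ((isOpen_lt continuous_const continuous_norm).mem_nhds hw0)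
      exact (hE.and_eventually hev).mono fun w hw => hWpt w hw.2 hw.1.1 hw.1.2
  -- a small disc on which `g` has no zero
  obtain ⟨η, hη, hηb⟩ : ∃ η > 0, ∀ u ∈ ball b0 η, u ∈ ball (0 : ℂ) 1 ∧ g u ≠ 0 := by
    have h1 : ∀ᶠ u in 𝓝 b0, g u ≠ 0 :=
      (hgd.differentiableAt (isOpen_ball.mem_nhds hb0)).continuousAt.eventually_ne hgb0
    obtain ⟨η, hη, h2⟩ := Metric.mem_nhds_iff.mp
      ((show ∀ᶠ u in 𝓝 b0, u ∈ ball (0 : ℂ) 1 from isOpen_ball.mem_nhds hb0).and h1)
    exact ⟨η, hη, h2⟩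
  obtain ⟨κ, hκ⟩ : ∃ κ : ℂ, ∀ u ∈ ball b0 η, H u / g u = κ := by
    refine isOpen_ball.exists_is_const_of_deriv_eq_zero (convex_ball _ _).isPreconnected
      ((hHd.mono fun u hu => (hηb u hu).1).div (hgd.mono fun u hu => (hηb u hu).1)
        fun u hu => (hηb u hu).2) fun u hu => ?_
    have hn := isOpen_ball.mem_nhds (hηb u hu).1
    have := ((hHd.differentiableAt hn).hasDerivAt.div (hgd.differentiableAt hn).hasDerivAt
      (hηb u hu).2).deriv
    have e : deriv H u * g u - H u * deriv g u = 0 := hW0 (hηb u hu).1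
    rw [e, zero_div] at this
    exact this
  have hHg : EqOn H (fun u => κ * g u) (ball 0 1) := by
    refine (hHd.analyticOnNhd isOpen_ball).eqOn_of_preconnected_of_eventuallyEq
      ((hgd.const_mul κ).analyticOnNhd isOpen_ball) hpre hb0 ?_
    filter_upwards [ball_mem_nhds b0 hη] with u hu
    rw [← hκ u hu, div_mul_cancel₀ _ (hηb u hu).2]
  obtain ⟨F, hF0, hF⟩ := hfd.isExactOn_ball.with_val_at 0 0
  have hFd : DifferentiableOn ℂ F (ball 0 1) :=
    fun u hu => (hF u hu).differentiableAt.differentiableWithinAt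
  have hfi1 : IntegrableOn f (ball (0 : ℂ) 1) := hfm.integrable one_le_two
  have hν : IntegrableOn (fun w => g w * conj (f w)) (ball (0 : ℂ) 1) := integrable_mul_conj hgm hfm
  have hcf : ContinuousOn (fun w => conj (f w)) (ball (0 : ℂ) 1) :=
    Complex.continuous_conj.comp_continuousOn hfd.continuousOn
  have hP : ∀ a : ℂ, ‖a‖ < 1 → g a * (conj κ - π * F a) = 0 := by
    intro a ha
    refine vanish (P := fun a => g a * (conj κ - π * F a)) hν
      (hgd.mul ((differentiableOn_const _).sub (hFd.const_mul _))) ?_ ha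
    intro l l' hl hl0 hl'
    have hlb : l ∈ ball (0 : ℂ) 1 := mem_ball_zero_iff.mpr hl
    have i1 : IntegrableOn (fun w => g w * conj (f w) / (w - l)) (ball (0 : ℂ) 1) :=
      integrableOn_div_sub (hgd.continuousOn.mul hcf) hν hl
    have i2 : IntegrableOn (fun w => conj (f w) / (w - l)) (ball (0 : ℂ) 1) :=
      integrableOn_div_sub hcf (Complex.conjCLE.toContinuousLinearMap.integrable_comp hfi1) hl
    have hae : ∀ᵐ w ∂μD, w ≠ l := ae_restrict_of_ae (Measure.ae_ne volume l)
    have e1 : ∫ w, g w * conj (f w) / (w - l) ∂μD = g l * (κ - π * conj (F l)) := by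
      have : ∫ w, g w * conj (f w) / (w - l) ∂μD
          = ∫ w, (dslope g l w * conj (f w) + g l * (conj (f w) / (w - l))) ∂μD := by
        refine integral_congr_ae ?_
        filter_upwards [hae] with w hw
        rw [dslope_of_ne _ hw, slope_def_field]
        have := sub_ne_zero.mpr hw
        field_simp
        ring
      rw [this, integral_add (integrable_mul_conj (hdsm l hlb) hfm) (i2.const_mul _),
        integral_const_mul, cauchy_transform hfd hfi1 hF hF0 hl hl0]
      have := hHg hlb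
      simp only [hH] at this
      rw [this]
      ring
    have hfar' : ∀ w ∈ ball (0 : ℂ) 1, ‖l'‖ - 1 ≤ ‖w - l'‖ := by
      intro w hw
      have := norm_sub_norm_le l' w
      rw [norm_sub_rev] at this
      linarith [mem_ball_zero_iff.mp hw]
    have hne' : ∀ w ∈ ball (0 : ℂ) 1, w - l' ≠ 0 := by
      intro w hw h0
      have := hfar' w hw
      rw [h0, norm_zero] at this
      linarith
    set R : ℂ → ℂ := fun w => 1 / (w - l') + (l - l') / (w - l') ^ 2 with hR
    have hRd : DifferentiableOn ℂ R (ball 0 1) :=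
      ((differentiableOn_const _).div (by fun_prop) hne').add
        ((differentiableOn_const _).div (by fun_prop) fun w hw => pow_ne_zero 2 (hne' w hw))
    have hgRm : MemLp (fun w => g w * R w) 2 μD := by
      refine memLp_of_le (hgd.mul hRd).continuousOn
        (hgm.norm.mul_const (1 / (‖l'‖ - 1) + ‖l - l'‖ / (‖l'‖ - 1) ^ 2)) fun w hw => ?_
      rw [norm_mul]
      refine mul_le_mul_of_nonneg_left ((norm_add_le _ _).trans ?_) (norm_nonneg _)
      have h0 : 0 < ‖l'‖ - 1 := by linarith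
      rw [norm_div, norm_div, norm_one, norm_pow]
      exact add_le_add (div_le_div_of_nonneg_left zero_le_one h0 (hfar' w hw))
        (div_le_div_of_nonneg_left (norm_nonneg _) (by positivity)
          (pow_le_pow_left₀ h0.le (hfar' w hw) 2))
    have e2 := horth _ (hgd.mul hRd) hgRm (fun n => by simp [hgz n])
    have e3 : ∫ w, g w * conj (f w) * ker2 l l' w ∂μD
        = ∫ w, (g w * conj (f w) / (w - l) - g w * R w * conj (f w)) ∂μD := by
      refine integral_congr_ae ?_
      filter_upwards [hae, ae_restrict_mem measurableSet_ball] with w hw hwb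
      have h1 := sub_ne_zero.mpr hw
      have h2 := hne' w hwb
      simp only [ker2, hR]
      field_simp
      ring
    rw [e3, integral_sub i1 (integrable_mul_conj hgRm hfm), e1]
    simp only [Pi.mul_apply] at e2
    rw [e2, sub_zero, norm_mul, norm_mul, ← Complex.norm_conj (κ - π * conj (F l))]
    simp
  have hf0 : f =ᶠ[𝓝 b0] 0 := by
    have hπ : (π : ℂ) ≠ 0 := by exact_mod_cast pi_ne_zero
    filter_upwards [ball_mem_nhds b0 hη] with u hu
    have h1 : F =ᶠ[𝓝 u] fun _ => conj κ / π := by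
      filter_upwards [isOpen_ball.mem_nhds hu] with v hv
      have := (mul_eq_zero.mp (hP v (mem_ball_zero_iff.mp (hηb v hv).1))).resolve_left (hηb v hv).2
      rw [eq_div_iff hπ]
      linear_combination -this
    exact (hF u (hηb u hu).1).unique ((hasDerivAt_const u _).congr_of_eventuallyEq h1)
  exact fun w hw =>
    (hfd.analyticOnNhd isOpen_ball).eqOn_zero_of_preconnected_of_eventuallyEq_zero hpre hb0 hf0 hw

lemma frequently_off_poles (z : ℕ → ℂ) (c0 : ℂ) : ∃ᶠ w in 𝓝[≠] c0, ∀ n, z n * w ≠ 1 := by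
  have hc : (insert c0 (range fun n => (z n)⁻¹)).Countable := (countable_range _).insert _
  have hd := hc.dense_compl ℂ c0
  rw [mem_closure_iff_frequently] at hd
  rw [frequently_nhdsWithin_iff]
  refine hd.mono fun w hw => ?_
  simp only [mem_compl_iff, mem_insert_iff, mem_range, not_or, not_exists] at hw
  exact ⟨fun n hn => hw.2 n (eq_inv_of_mul_eq_one_right hn).symm, hw.1⟩

end Pool.Agent.Lib.MP_435399_an
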