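import Mathlib
import Pool.Agent.Lib.MP_435399_an.Main
import Pool.Agent.Lib.MP_435399_an.LocVanish

set_option autoImplicit false

open MeasureTheory Set Metric Real Complex Filter Topology ComplexConjugate

namespace Pool.Agent.Lib.MP_435399_an

/-- The annihilator `g`, the pairing function `H`, its Wronskian at reflected points and its
representation by truncated Cauchy integrals. -/
theorem exists_data {z : ℕ → ℂ} (hz : ∀ n, ‖z n‖ < 1) {h : ℂ → ℂ}
    (hhd : DifferentiableOn ℂ h (ball 0 1))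
    (hhi : IntegrableOn (fun w => ‖h w‖ ^ 2) (ball (0 : ℂ) 1)) {ε : ℝ} (hε : 0 < ε)
    (hfar : ∀ (s : Finset ℕ) (a : ℕ → ℂ), ε ≤ ∫ w, ‖h w - comb z s a w‖ ^ 2 ∂μD)
    (S : ℕ → Finset ℕ) (c : ℕ → ℕ → ℂ) {f : ℂ → ℂ} (hfd : DifferentiableOn ℂ f (ball 0 1))
    (hfi : IntegrableOn (fun w => ‖f w‖ ^ 2) (ball (0 : ℂ) 1))
    (hconv : Tendsto (fun j => ∫ w, ‖comb z (S j) (c j) w - f w‖ ^ 2 ∂μD) atTop (𝓝 0))
    {F : ℂ → ℂ} (hF : ∀ u ∈ ball (0 : ℂ) 1, HasDerivAt F (f u) u) (hF0 : F 0 = 0) :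
    ∃ g H : ℂ → ℂ, DifferentiableOn ℂ g (ball 0 1) ∧ MemLp g 2 μD ∧
      (∃ b ∈ ball (0 : ℂ) 1, g b ≠ 0) ∧ DifferentiableOn ℂ H (ball 0 1) ∧
      (∀ w L : ℂ, 1 < ‖w‖ → (∀ n, z n * w ≠ 1) →
        Tendsto (fun j => comb z (S j) (c j) w) atTop (𝓝 L) →
        deriv H (conj w)⁻¹ * g (conj w)⁻¹ - H (conj w)⁻¹ * deriv g (conj w)⁻¹
          = -(π * (g (conj w)⁻¹) ^ 2 * (conj w) ^ 2) * conj L) ∧
      ∀ l l' : ℂ, ‖l‖ < 1 → l ≠ 0 → 1 < ‖l'‖ →
        H l - π * g l * conj (F l) = ∫ w in ball (0 : ℂ) 1, g w * conj (f w) * ker2 l l' w := by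
  obtain ⟨g, hgd, hgm, hgz, b0, hb0, hgb0⟩ :=
    exists_annihilator hz hhd (memLp_of_sq hhd.continuousOn hhi) hε hfar
  have hfm : MemLp f 2 μD := memLp_of_sq hfd.continuousOn hfi
  have hcm : ∀ j, MemLp (comb z (S j) (c j)) 2 μD := fun j => comb_memLp hz _ _
  have hz' : ∀ n, conj (z n) ∈ ball (0 : ℂ) 1 := fun n => by
    rw [mem_ball_zero_iff, Complex.norm_conj]; exact hz n
  have hpre : IsPreconnected (ball (0 : ℂ) 1) := (convex_ball _ _).isPreconnected
  have hlimu : ∀ u : ℂ → ℝ, MemLp u 2 μD →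
      Tendsto (fun j => ∫ w, u w * ‖comb z (S j) (c j) w - f w‖ ∂μD) atTop (𝓝 0) :=
    fun u hu => tendsto_integral_mul hu (fun j => (hcm j).sub hfm) hconv
  -- functions vanishing at the conjugate points are orthogonal to `f`
  have horth : ∀ φ : ℂ → ℂ, DifferentiableOn ℂ φ (ball 0 1) → MemLp φ 2 μD →
      (∀ n, φ (conj (z n)) = 0) → ∫ w, φ w * conj (f w) ∂μD = 0 := by
    intro φ h1 h2 h3
    rw [← norm_le_zero_iff]
    refine ge_of_tendsto' (hlimu _ h2.norm) fun j => ?_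
    have := norm_pairing_sub_le h2 hfm (hcm j) h2.norm (fun _ _ => le_rfl)
    rw [pairing_comb hz h1 h2] at this
    simpa [h3] using this
  have hdsd : ∀ l ∈ ball (0 : ℂ) 1, DifferentiableOn ℂ (dslope g l) (ball 0 1) :=
    fun l hl => (Complex.differentiableOn_dslope (isOpen_ball.mem_nhds hl)).mpr hgd
  have hum : ∀ M η : ℝ, MemLp (fun w => (‖g w‖ + M) / η) 2 μD := by
    intro M η
    simp only [div_eq_mul_inv]
    exact (hgm.norm.add (memLp_const M)).mul_const _
  have hdsm : ∀ l ∈ ball (0 : ℂ) 1, MemLp (dslope g l) 2 μD := by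
    intro l hl
    have hl' := mem_ball_zero_iff.mp hl
    obtain ⟨M, hM⟩ := dslope_bound hgd (ρ := (1 + ‖l‖) / 2) (by positivity) (by linarith)
    exact memLp_of_le (hdsd l hl).continuousOn (hum _ _) (hM l (by linarith))
  set H : ℂ → ℂ := fun l => ∫ w, dslope g l w * conj (f w) ∂μD with hH
  set Hj : ℕ → ℂ → ℂ := fun j l => π * ∑ n ∈ S j, conj (c j n) * dslope g (conj (z n)) l with hHj
  have hHjd : ∀ j, DifferentiableOn ℂ (Hj j) (ball 0 1) := fun j =>
    (DifferentiableOn.fun_sum fun n _ => (hdsd _ (hz' n)).const_mul _).const_mul _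
  have hloc : TendstoLocallyUniformlyOn Hj H atTop (ball 0 1) := by
    refine tendstoLocallyUniformlyOn_of_approx fun ρ h0 h1 => ?_
    obtain ⟨M, hM⟩ := dslope_bound hgd h0 h1
    refine ⟨_, hlimu _ (hum M ((1 - ρ) / 2)), fun j l hl => ?_⟩
    have hl' : l ∈ ball (0 : ℂ) 1 := mem_ball_zero_iff.mpr (hl.trans_lt h1)
    have := norm_pairing_sub_le (hdsm l hl') hfm (hcm j) (hum M ((1 - ρ) / 2)) (hM l hl)
    rw [pairing_comb hz (hdsd l hl') (hdsm l hl')] at this
    simp only [hHj, hH, dslope_symm g (conj (z _)) l]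
    exact this
  have hHd : DifferentiableOn ℂ H (ball 0 1) :=
    hloc.differentiableOn (Eventually.of_forall hHjd) isOpen_ball
  have hloc' := hloc.deriv (Eventually.of_forall hHjd) isOpen_ball
  refine ⟨g, H, hgd, hgm, ⟨b0, hb0, hgb0⟩, hHd, ?_, ?_⟩
  · intro w L hw hnp hlim
    set l := (conj w)⁻¹ with hl
    have hw0 : w ≠ 0 := by
      intro h0; rw [h0, norm_zero] at hw; linarith
    have hcw : conj w ≠ 0 := by simpa using hw0
    have hlb : l ∈ ball (0 : ℂ) 1 := by
      rw [mem_ball_zero_iff, hl, norm_inv, Complex.norm_conj]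
      exact inv_lt_one_of_one_lt₀ hw
    have hne : ∀ n, l - conj (z n) ≠ 0 := by
      intro n h0
      apply hnp n
      have : conj (z n) * conj w = 1 := by
        rw [← sub_eq_zero.mp h0, hl, inv_mul_cancel₀ hcw]
      have := congrArg conj this
      simpa using this
    have hgl : HasDerivAt g (deriv g l) l :=
      (hgd.differentiableAt (isOpen_ball.mem_nhds hlb)).hasDerivAt
    have hval : ∀ n, dslope g (conj (z n)) l = g l / (l - conj (z n)) := by
      intro n
      rw [dslope_of_ne _ (sub_ne_zero.mp (hne n)), slope_def_field, hgz, sub_zero]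
    have hder : ∀ n, HasDerivAt (dslope g (conj (z n)))
        ((deriv g l * (l - conj (z n)) - g l * 1) / (l - conj (z n)) ^ 2) l := by
      intro n
      refine (hgl.div ((hasDerivAt_id l).sub_const (conj (z n))) (hne n)).congr_of_eventuallyEq ?_
      filter_upwards [isOpen_ne.mem_nhds (sub_ne_zero.mp (hne n))] with u hu
      rw [dslope_of_ne _ hu, slope_def_field, hgz, sub_zero]
      rfl
    have hj : ∀ j, deriv (Hj j) l * g l - Hj j l * deriv g l
        = -(π * (g l) ^ 2 * (conj w) ^ 2) * conj (comb z (S j) (c j) w) := by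
      intro j
      have := ((HasDerivAt.fun_sum (u := S j) fun n _ =>
        (hder n).const_mul (conj (c j n))).const_mul (π : ℂ)).deriv
      simp only [hHj]
      rw [this]
      simp only [hval, comb, map_sum, Finset.mul_sum, Finset.sum_mul, ← Finset.sum_sub_distrib]
      refine Finset.sum_congr rfl fun n _ => ?_
      simp only [map_mul, map_inv₀, map_pow, map_sub, map_one]
      have e : 1 - conj (z n) * conj w = (l - conj (z n)) * conj w := by
        rw [sub_mul, hl, inv_mul_cancel₀ hcw]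
      rw [e]
      have := hne n
      field_simp
      ring
    have t1 : Tendsto (fun j => deriv (Hj j) l * g l - Hj j l * deriv g l) atTop
        (𝓝 (deriv H l * g l - H l * deriv g l)) :=
      ((hloc'.tendsto_at hlb).mul_const _).sub ((hloc.tendsto_at hlb).mul_const _)
    have t2 : Tendsto (fun j => deriv (Hj j) l * g l - Hj j l * deriv g l) atTop
        (𝓝 (-(π * (g l) ^ 2 * (conj w) ^ 2) * conj L)) := by
      simp_rw [hj]
      exact ((Complex.continuous_conj.tendsto L).comp hlim).const_mul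
        (-(π * (g l) ^ 2 * (conj w) ^ 2))
    exact tendsto_nhds_unique t1 t2
  · have hfi1 : IntegrableOn f (ball (0 : ℂ) 1) := hfm.integrable one_le_two
    have hν : IntegrableOn (fun w => g w * conj (f w)) (ball (0 : ℂ) 1) :=
      integrable_mul_conj hgm hfm
    have hcf : ContinuousOn (fun w => conj (f w)) (ball (0 : ℂ) 1) :=
      Complex.continuous_conj.comp_continuousOn hfd.continuousOn
    intro l l' hl hl0 hl'
    have hlb : l ∈ ball (0 : ℂ) 1 := mem_ball_zero_iff.mpr hl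
    have i1 : IntegrableOn (fun w => g w * conj (f w) / (w - l)) (ball (0 : ℂ) 1) :=
      integrableOn_div_sub (hgd.continuousOn.mul hcf) hν hl
    have i2 : IntegrableOn (fun w => conj (f w) / (w - l)) (ball (0 : ℂ) 1) :=
      integrableOn_div_sub hcf (Complex.conjCLE.toContinuousLinearMap.integrable_comp hfi1) hl
    have hae : ∀ᵐ w ∂μD, w ≠ l := ae_restrict_of_ae (Measure.ae_ne volume l)
    have e1 : ∫ w, g w * conj (f w) / (w - l) ∂μD = H l - π * g l * conj (F l) := by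
      have : ∫ w, g w * conj (f w) / (w - l) ∂μD
          = ∫ w, (dslope g l w * conj (f w) + g l * (conj (f w) / (w - l))) ∂μD := by
        refine integral_congr_ae ?_
        filter_upwards [hae] with w hw
        rw [dslope_of_ne _ hw, slope_def_field]
        have := sub_ne_zero.mpr hw
        field_simp
        ring
      rw [this, integral_add (integrable_mul_conj (hdsm l hlb) hfm) (i2.const_mul _),
        integral_const_mul, cauchy_transform hfd hfi1 hF hF0 hl hl0]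
      simp only [hH]
      ring
    have hfar' : ∀ w ∈ ball (0 : ℂ) 1, ‖l'‖ - 1 ≤ ‖w - l'‖ := by
      intro w hw
      have := norm_sub_norm_le l' w
      rw [norm_sub_rev] at this
      linarith [mem_ball_zero_iff.mp hw]
    have hne' : ∀ w ∈ ball (0 : ℂ) 1, w - l' ≠ 0 := by
      intro w hw h0
      have := hfar' w hw
      rw [h0, norm_zero] at this
      linarith
    set R : ℂ → ℂ := fun w => 1 / (w - l') + (l - l') / (w - l') ^ 2 with hR
    have hRd : DifferentiableOn ℂ R (ball 0 1) :=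
      ((differentiableOn_const _).div (by fun_prop) hne').add
        ((differentiableOn_const _).div (by fun_prop) fun w hw => pow_ne_zero 2 (hne' w hw))
    have hgRm : MemLp (fun w => g w * R w) 2 μD := by
      refine memLp_of_le (hgd.mul hRd).continuousOn
        (hgm.norm.mul_const (1 / (‖l'‖ - 1) + ‖l - l'‖ / (‖l'‖ - 1) ^ 2)) fun w hw => ?_
      rw [norm_mul]
      refine mul_le_mul_of_nonneg_left ((norm_add_le _ _).trans ?_) (norm_nonneg _)
      have h0 : 0 < ‖l'‖ - 1 := by linarith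
      rw [norm_div, norm_div, norm_one, norm_pow]
      exact add_le_add (div_le_div_of_nonneg_left zero_le_one h0 (hfar' w hw))
        (div_le_div_of_nonneg_left (norm_nonneg _) (by positivity)
          (pow_le_pow_left₀ h0.le (hfar' w hw) 2))
    have e2 := horth _ (hgd.mul hRd) hgRm (fun n => by simp [hgz n])
    have e3 : ∫ w, g w * conj (f w) * ker2 l l' w ∂μD
        = ∫ w, (g w * conj (f w) / (w - l) - g w * R w * conj (f w)) ∂μD := by
      refine integral_congr_ae ?_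
      filter_upwards [hae, ae_restrict_mem measurableSet_ball] with w hw hwb
      have h1 := sub_ne_zero.mpr hw
      have h2 := hne' w hwb
      simp only [ker2, hR]
      field_simp
      ring
    rw [e3, integral_sub i1 (integrable_mul_conj hgRm hfm), e1]
    simp only [Pi.mul_apply] at e2
    rw [e2, sub_zero]

lemma growth {g : ℂ → ℂ} (hg : DifferentiableOn ℂ g (ball 0 1))
    (hi : IntegrableOn g (ball (0 : ℂ) 1)) {a : ℂ} (ha : ‖a‖ < 1) :
    (1 - ‖a‖) ^ 2 * ‖g a‖ ≤ ∫ w in ball (0 : ℂ) 1, ‖g w‖ := by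
  have h0 : 0 < 1 - ‖a‖ := by linarith
  have h1 : ‖∫ w in ball (0 : ℂ) 1, g w * ((1 - a * conj w) ^ 2)⁻¹‖
      ≤ ∫ w in ball (0 : ℂ) 1, ‖g w‖ * ((1 - ‖a‖) ^ 2)⁻¹ := by
    refine norm_integral_le_of_norm_le (hi.norm.mul_const _) ?_
    refine (ae_restrict_iff' measurableSet_ball).mpr (Eventually.of_forall fun w hw => ?_)
    rw [norm_mul]
    refine mul_le_mul_of_nonneg_left (norm_kernel_le ha ?_) (norm_nonneg _)
    rw [Complex.norm_conj]
    exact (mem_ball_zero_iff.mp hw).le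
  rw [reproducing hg hi ha, integral_mul_const, norm_mul, Complex.norm_real,
    Real.norm_of_nonneg pi_pos.le, ← div_eq_mul_inv, le_div_iff₀ (by positivity)] at h1
  refine le_trans ?_ h1
  have h2 : 0 ≤ ‖g a‖ * (1 - ‖a‖) ^ 2 := by positivity
  nlinarith [pi_gt_three]

lemma hasDerivAt_reflect {P : ℂ → ℂ} {p l : ℂ} (hl : l ≠ 0) (hP : HasDerivAt P p (conj l)⁻¹) :
    HasDerivAt (fun u => conj (P (conj u)⁻¹)) (conj p * -(l ^ 2)⁻¹) l := by
  have h1 := hP.conj_conj
  rw [map_inv₀, Complex.conj_conj] at h1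
  have h2 := h1.comp l (hasDerivAt_inv hl)
  refine h2.congr_of_eventuallyEq (Eventually.of_forall fun u => ?_)
  simp

/-- The inner limit continues the outer limit across the circle. -/
theorem local_main {z : ℕ → ℂ} (hz : ∀ n, ‖z n‖ < 1) {h0 : ℂ → ℂ}
    (hhd : DifferentiableOn ℂ h0 (ball 0 1))
    (hhi : IntegrableOn (fun w => ‖h0 w‖ ^ 2) (ball (0 : ℂ) 1)) {ε : ℝ} (hε : 0 < ε)
    (hfar : ∀ (s : Finset ℕ) (a : ℕ → ℂ), ε ≤ ∫ w, ‖h0 w - comb z s a w‖ ^ 2 ∂μD)
    (S : ℕ → Finset ℕ) (c : ℕ → ℕ → ℂ) {f : ℂ → ℂ} (hfd : DifferentiableOn ℂ f (ball 0 1))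
    (hfi : IntegrableOn (fun w => ‖f w‖ ^ 2) (ball (0 : ℂ) 1))
    (hconv : Tendsto (fun j => ∫ w, ‖comb z (S j) (c j) w - f w‖ ^ 2 ∂μD) atTop (𝓝 0))
    {Ω : Set ℂ} (hΩ : IsOpen Ω) (hcon : IsPreconnected (Ω ∩ {w : ℂ | 1 < ‖w‖}))
    {h : ℂ → ℂ} (hh : DifferentiableOn ℂ h Ω) {w0 : ℂ} (hw0Ω : w0 ∈ Ω) (hw0 : 1 < ‖w0‖)
    (hE : ∃ᶠ w in 𝓝[≠] w0, (∀ n, z n * w ≠ 1) ∧
      Tendsto (fun j => comb z (S j) (c j) w) atTop (𝓝 (h w)))
    {ζ : ℂ} (hζ : ‖ζ‖ = 1) (hζΩ : ζ ∈ Ω) :
    ∃ r : ℝ, 0 < r ∧ ∀ w ∈ ball ζ r, ‖w‖ < 1 → f w = h w := by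
  obtain ⟨F, hF0, hF⟩ := hfd.isExactOn_ball.with_val_at 0 0
  obtain ⟨g, H, hgd, hgm, ⟨b0, hb0, hgb0⟩, hHd, hWpt, hrep⟩ :=
    exists_data hz hhd hhi hε hfar S c hfd hfi hconv hF hF0
  have hfm : MemLp f 2 μD := memLp_of_sq hfd.continuousOn hfi
  have hFd : DifferentiableOn ℂ F (ball 0 1) :=
    fun u hu => (hF u hu).differentiableAt.differentiableWithinAt
  have hfi1 : IntegrableOn f (ball (0 : ℂ) 1) := hfm.integrable one_le_two
  have hgi1 : IntegrableOn g (ball (0 : ℂ) 1) := hgm.integrable one_le_two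
  have hν : IntegrableOn (fun w => g w * conj (f w)) (ball (0 : ℂ) 1) := integrable_mul_conj hgm hfm
  have hπ : (π : ℂ) ≠ 0 := by exact_mod_cast pi_ne_zero
  set W : ℂ → ℂ := fun l => deriv H l * g l - H l * deriv g l with hW
  have hWd : DifferentiableOn ℂ W (ball 0 1) :=
    ((hHd.deriv isOpen_ball).mul hgd).sub (hHd.mul (hgd.deriv isOpen_ball))
  -- the reflected Wronskian identity on the outer part of `Ω`
  set V := Ω ∩ {w : ℂ | 1 < ‖w‖} with hV
  have hVo : IsOpen V := hΩ.inter (isOpen_lt continuous_const continuous_norm)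
  have hout : ∀ w : ℂ, 1 < ‖w‖ → w ≠ 0 ∧ (conj w)⁻¹ ∈ ball (0 : ℂ) 1 := by
    intro w hw
    refine ⟨fun h0 => ?_, ?_⟩
    · rw [h0, norm_zero] at hw; linarith
    · rw [mem_ball_zero_iff, norm_inv, Complex.norm_conj]
      exact inv_lt_one_of_one_lt₀ hw
  set T : ℂ → ℂ := fun w => conj (W (conj w)⁻¹) + π * (conj (g (conj w)⁻¹)) ^ 2 * w ^ 2 * h w
    with hT
  have hTd : DifferentiableOn ℂ T V := by
    intro w hw
    obtain ⟨h1, h2⟩ := hout w hw.2
    have d1 := (hasDerivAt_reflect h1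
      (hWd.differentiableAt (isOpen_ball.mem_nhds h2)).hasDerivAt).differentiableAt
    have d2 := (hasDerivAt_reflect h1
      (hgd.differentiableAt (isOpen_ball.mem_nhds h2)).hasDerivAt).differentiableAt
    have d3 := hh.differentiableAt (hΩ.mem_nhds hw.1)
    exact (d1.add ((((d2.pow 2).const_mul _).mul (differentiableAt_id.pow 2)).mul
      d3)).differentiableWithinAt
  have hT0 : EqOn T 0 V := by
    refine (hTd.analyticOnNhd hVo).eqOn_zero_of_preconnected_of_frequently_eq_zero hcon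
      (z₀ := w0) ⟨hw0Ω, hw0⟩ ?_
    have hev : ∀ᶠ w in 𝓝[≠] w0, 1 < ‖w‖ :=
      mem_nhdsWithin_of_mem_nhds ((isOpen_lt continuous_const continuous_norm).mem_nhds hw0)
    refine (hE.and_eventually hev).mono fun w hw => ?_
    have := hWpt w (h w) hw.2 hw.1.1 hw.1.2
    simp only [hT, hW]
    rw [this]
    simp
  -- the local picture at `ζ`
  obtain ⟨ρ, hρ, hρ4, hρΩ⟩ : ∃ ρ : ℝ, 0 < ρ ∧ ρ ≤ 1 / 4 ∧ ball ζ (8 * ρ) ⊆ Ω := by
    obtain ⟨r, hr, hrs⟩ := Metric.isOpen_iff.mp hΩ ζ hζΩ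
    refine ⟨min (1 / 4) (r / 8), lt_min (by norm_num) (by linarith), min_le_left _ _,
      (ball_subset_ball ?_).trans hrs⟩
    linarith [min_le_right (1 / 4 : ℝ) (r / 8)]
  obtain ⟨P, hP⟩ := (hh.mono hρΩ).isExactOn_ball
  set U := ball ζ (2 * ρ) ∩ ball (0 : ℂ) 1 with hU
  have hUo : IsOpen U := isOpen_ball.inter isOpen_ball
  have hUc : IsPreconnected U := ((convex_ball _ _).inter (convex_ball _ _)).isPreconnected
  have hsub4 : closedBall ζ (4 * ρ) ⊆ ball ζ (8 * ρ) := closedBall_subset_ball (by linarith)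
  have hU4 : U ⊆ closedBall ζ (4 * ρ) := fun l hl =>
    ball_subset_closedBall (ball_subset_ball (by linarith) hl.1)
  have hU8 : U ⊆ ball ζ (8 * ρ) := hU4.trans hsub4
  have hUl : ∀ l ∈ U, l ≠ 0 ∧ (conj l)⁻¹ ∈ closedBall ζ (4 * ρ) ∧ 1 < ‖(conj l)⁻¹‖ ∧
      ‖l - (conj l)⁻¹‖ ≤ 4 * (1 - ‖l‖) := by
    intro l hl
    have h1 : ‖l - ζ‖ < 2 * ρ := by simpa [dist_eq_norm] using hl.1
    have h2 : ‖l‖ < 1 := mem_ball_zero_iff.mp hl.2
    have h3 : 1 / 2 ≤ ‖l‖ := by
      have := norm_sub_norm_le ζ l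
      rw [norm_sub_rev] at this
      linarith
    have h4 : 0 < ‖l‖ := by linarith
    have hl0 : l ≠ 0 := norm_pos_iff.mp h4
    have hcl : conj l ≠ 0 := by simpa using hl0
    have hζζ : conj ζ * ζ = 1 := by
      rw [Complex.conj_mul', hζ]; simp
    refine ⟨hl0, ?_, ?_, ?_⟩
    · rw [mem_closedBall, dist_eq_norm]
      have e : (conj l)⁻¹ - ζ = (conj (ζ - l) * ζ) / conj l := by
        rw [map_sub, sub_mul, hζζ]
        field_simp
      rw [e, norm_div, norm_mul, Complex.norm_conj, Complex.norm_conj, hζ, mul_one, norm_sub_rev,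
        div_le_iff₀ h4]
      nlinarith
    · rw [norm_inv, Complex.norm_conj]
      exact (one_lt_inv₀ h4).mpr h2
    · have e : l - (conj l)⁻¹ = ((‖l‖ ^ 2 - 1 : ℝ) : ℂ) / conj l := by
        push_cast
        rw [← Complex.mul_conj']
        field_simp
      rw [e, norm_div, Complex.norm_conj, Complex.norm_real, Real.norm_eq_abs,
        abs_of_nonpos (by nlinarith), div_le_iff₀ h4]
      nlinarith
  set Q : ℂ → ℂ := fun l => conj (P (conj l)⁻¹) with hQ
  have hQd : ∀ l ∈ U, HasDerivAt Q (conj (h (conj l)⁻¹) * -(l ^ 2)⁻¹) l := fun l hl =>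
    hasDerivAt_reflect (hUl l hl).1 (hP _ (hsub4 (hUl l hl).2.1))
  have hWU : ∀ l ∈ U, W l = π * g l ^ 2 * (conj (h (conj l)⁻¹) * -(l ^ 2)⁻¹) := by
    intro l hl
    have h1 := hT0 (x := (conj l)⁻¹) ⟨hρΩ (hsub4 (hUl l hl).2.1), (hUl l hl).2.2.1⟩
    simp only [hT, map_inv₀, Complex.conj_conj, inv_inv, Pi.zero_apply] at h1
    have h2 := congrArg conj h1
    simp only [map_add, map_mul, map_pow, map_inv₀, Complex.conj_conj, Complex.conj_ofReal,
      map_zero] at h2
    rw [← inv_pow]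
    linear_combination h2
  -- a small disc in `U` on which `g` has no zero
  obtain ⟨b, hbU, hgb⟩ : ∃ b ∈ U, g b ≠ 0 := by
    by_contra hcon'
    push Not at hcon'
    have ha0 : ((1 - ρ : ℝ) : ℂ) * ζ ∈ U := by
      refine ⟨?_, ?_⟩
      · rw [mem_ball, dist_eq_norm]
        have e : ((1 - ρ : ℝ) : ℂ) * ζ - ζ = ((-ρ : ℝ) : ℂ) * ζ := by push_cast; ring
        rw [e, norm_mul, hζ, mul_one, Complex.norm_real, Real.norm_eq_abs, abs_neg, abs_of_pos hρ]
        linarith
      · rw [mem_ball_zero_iff, norm_mul, hζ, mul_one, Complex.norm_real,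
          Real.norm_of_nonneg (by linarith)]
        linarith
    refine hgb0 ((hgd.analyticOnNhd isOpen_ball).eqOn_zero_of_preconnected_of_eventuallyEq_zero
      (convex_ball _ _).isPreconnected ha0.2 ?_ hb0)
    filter_upwards [hUo.mem_nhds ha0] with l hl
    exact hcon' l hl
  obtain ⟨η, hη, hηb⟩ : ∃ η > 0, ∀ u ∈ ball b η, u ∈ U ∧ g u ≠ 0 := by
    have h1 : ∀ᶠ u in 𝓝 b, g u ≠ 0 :=
      (hgd.differentiableAt (isOpen_ball.mem_nhds hbU.2)).continuousAt.eventually_ne hgb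
    obtain ⟨η, hη, h2⟩ := Metric.mem_nhds_iff.mp
      ((show ∀ᶠ u in 𝓝 b, u ∈ U from hUo.mem_nhds hbU).and h1)
    exact ⟨η, hη, h2⟩
  have hgU : DifferentiableOn ℂ g U := hgd.mono inter_subset_right
  have hHU : DifferentiableOn ℂ H U := hHd.mono inter_subset_right
  have hQU : DifferentiableOn ℂ Q U := fun l hl => (hQd l hl).differentiableAt.differentiableWithinAt
  obtain ⟨κ, hκ⟩ : ∃ κ : ℂ, ∀ u ∈ ball b η, H u / g u - π * Q u = κ := by
    refine isOpen_ball.exists_is_const_of_deriv_eq_zero (convex_ball _ _).isPreconnected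
      (((hHU.mono fun u hu => (hηb u hu).1).div (hgU.mono fun u hu => (hηb u hu).1)
        fun u hu => (hηb u hu).2).sub ((hQU.mono fun u hu => (hηb u hu).1).const_mul _))
      fun u hu => ?_
    have hn := hUo.mem_nhds (hηb u hu).1
    have := (((hHU.differentiableAt hn).hasDerivAt.div (hgU.differentiableAt hn).hasDerivAt
      (hηb u hu).2).sub ((hQd u (hηb u hu).1).const_mul (π : ℂ))).deriv
    have e : deriv H u * g u - H u * deriv g u = _ := hWU u (hηb u hu).1
    rw [e] at this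
    refine this.trans ?_
    have := (hηb u hu).2
    simp only [Pi.zero_apply]
    field_simp
    ring
  have hHg : EqOn H (fun u => g u * (κ + π * Q u)) U := by
    refine (hHU.analyticOnNhd hUo).eqOn_of_preconnected_of_eventuallyEq
      ((hgU.mul ((differentiableOn_const _).add (hQU.const_mul _))).analyticOnNhd hUo) hUc hbU ?_
    filter_upwards [ball_mem_nhds b hη] with u hu
    rw [← hκ u hu]
    have := (hηb u hu).2
    field_simp
    ring
  have hPU : DifferentiableOn ℂ P U := fun l hl =>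
    (hP l (hU8 hl)).differentiableAt.differentiableWithinAt
  set Φ : ℂ → ℂ := fun l => g l * (conj κ + π * P l - π * F l) with hΦ
  have hΦd : DifferentiableOn ℂ Φ U :=
    hgU.mul (((differentiableOn_const _).add (hPU.const_mul _)).sub
      ((hFd.mono inter_subset_right).const_mul _))
  obtain ⟨B, hB⟩ := (isCompact_closedBall ζ (4 * ρ)).exists_bound_of_continuousOn
    (hh.continuousOn.mono (hsub4.trans hρΩ))
  have hB0 : 0 ≤ B := (norm_nonneg _).trans (hB ζ (mem_closedBall_self (by linarith)))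
  have hLip : ∀ x ∈ closedBall ζ (4 * ρ), ∀ y ∈ closedBall ζ (4 * ρ),
      ‖P y - P x‖ ≤ B * ‖y - x‖ := fun x hx y hy =>
    (convex_closedBall ζ (4 * ρ)).norm_image_sub_le_of_norm_hasDerivWithin_le
      (fun u hu => (hP u (hsub4 hu)).hasDerivWithinAt) hB hx hy
  set Pg : ℂ → ℂ := fun l => H l - π * g l * conj (F l) with hPg
  have hPgc : ContinuousOn Pg (ball 0 1) :=
    hHd.continuousOn.sub ((continuousOn_const.mul hgd.continuousOn).mul
      (Complex.continuous_conj.comp_continuousOn hFd.continuousOn))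
  have hcmp : ∀ l ∈ U, ‖Φ l‖ ≤ ‖Pg l‖ + 4 * π * B * (1 - ‖l‖) * ‖g l‖ := by
    intro l hl
    have e1 : Pg l = g l * conj (conj κ + π * P (conj l)⁻¹ - π * F l) := by
      simp only [hPg, hHg hl, hQ, map_add, map_sub, map_mul, Complex.conj_conj,
        Complex.conj_ofReal]
      ring
    have e2 : Φ l = g l * (conj κ + π * P (conj l)⁻¹ - π * F l)
        + g l * (π * (P l - P (conj l)⁻¹)) := by
      simp only [hΦ]; ring
    rw [e2]
    refine (norm_add_le _ _).trans (add_le_add (le_of_eq ?_) ?_)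
    · rw [e1, norm_mul, norm_mul, Complex.norm_conj]
    · rw [norm_mul, norm_mul, Complex.norm_real, Real.norm_of_nonneg pi_pos.le]
      have h1 := (hLip _ (hUl l hl).2.1 _ (hU4 hl)).trans
        (mul_le_mul_of_nonneg_left (hUl l hl).2.2.2 hB0)
      calc _ ≤ ‖g l‖ * (π * (B * (4 * (1 - ‖l‖)))) := by
            have := pi_pos
            gcongr
        _ = _ := by ring
  set Ig := ∫ w in ball (0 : ℂ) 1, ‖g w‖ with hIg
  set If := ∫ w in ball (0 : ℂ) 1, ‖f w‖ with hIf
  obtain ⟨B', hB'⟩ := (isCompact_closedBall ζ (4 * ρ)).exists_bound_of_continuousOn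
    (f := P) fun u hu => (hP u (hsub4 hu)).continuousAt.continuousWithinAt
  have hgrow : ∀ l ∈ U, (1 - ‖l‖) ^ 4 * ‖Φ l‖ ≤ Ig * (‖κ‖ + π * B' + π * If) := by
    intro l hl
    have h2 : ‖l‖ < 1 := mem_ball_zero_iff.mp hl.2
    have h0 : 0 < 1 - ‖l‖ := by linarith
    have g1 := growth hgd hgi1 h2
    have g2 : (1 - ‖l‖) ^ 2 * ‖F l‖ ≤ If := by
      have hs : closedBall (0 : ℂ) ‖l‖ ⊆ ball 0 1 := closedBall_subset_ball h2
      have := (convex_closedBall (0 : ℂ) ‖l‖).norm_image_sub_le_of_norm_hasDerivWithin_le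
        (f := F) (f' := f) (C := If / (1 - ‖l‖) ^ 2) (fun u hu => (hF u (hs hu)).hasDerivWithinAt)
        (fun u hu => by
          have hu1 : ‖u‖ ≤ ‖l‖ := mem_closedBall_zero_iff.mp hu
          rw [le_div_iff₀ (by positivity), mul_comm]
          refine le_trans ?_ (growth hfd hfi1 (hu1.trans_lt h2))
          gcongr)
        (mem_closedBall_self (norm_nonneg l)) (mem_closedBall_zero_iff.mpr le_rfl)
      rw [hF0, sub_zero, sub_zero] at this
      have hIf0 : 0 ≤ If := integral_nonneg fun _ => norm_nonneg _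
      have h3 : ‖F l‖ ≤ If / (1 - ‖l‖) ^ 2 :=
        this.trans (mul_le_of_le_one_right (by positivity) h2.le)
      rwa [le_div_iff₀ (by positivity), mul_comm] at h3
    have g3 : (1 - ‖l‖) ^ 2 * ‖conj κ + π * P l - π * F l‖ ≤ ‖κ‖ + π * B' + π * If := by
      have t1 : ‖conj κ + π * P l - π * F l‖ ≤ ‖κ‖ + π * B' + π * ‖F l‖ := by
        refine (norm_sub_le _ _).trans (add_le_add ((norm_add_le _ _).trans (add_le_add ?_ ?_)) ?_)
        · rw [Complex.norm_conj]
        · rw [norm_mul, Complex.norm_real, Real.norm_of_nonneg pi_pos.le]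
          exact mul_le_mul_of_nonneg_left (hB' l (hU4 hl)) pi_pos.le
        · rw [norm_mul, Complex.norm_real, Real.norm_of_nonneg pi_pos.le]
      have t2 : (1 - ‖l‖) ^ 2 ≤ 1 := pow_le_one₀ h0.le (by linarith [norm_nonneg l])
      have t3 : 0 ≤ ‖κ‖ + π * B' := by
        have := (norm_nonneg _).trans (hB' l (hU4 hl))
        have := pi_pos
        positivity
      have t4 := mul_le_mul_of_nonneg_left g2 pi_pos.le
      calc _ ≤ (1 - ‖l‖) ^ 2 * (‖κ‖ + π * B' + π * ‖F l‖) := by gcongr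
        _ = (1 - ‖l‖) ^ 2 * (‖κ‖ + π * B') + π * ((1 - ‖l‖) ^ 2 * ‖F l‖) := by ring
        _ ≤ 1 * (‖κ‖ + π * B') + π * If := by gcongr
        _ = _ := by ring
    simp only [hΦ]
    rw [norm_mul]
    calc _ = ((1 - ‖l‖) ^ 2 * ‖g l‖) * ((1 - ‖l‖) ^ 2 * ‖conj κ + π * P l - π * F l‖) := by ring
      _ ≤ _ := mul_le_mul g1 g3 (by positivity) (integral_nonneg fun _ => norm_nonneg _)
  have hsm : ∀ e : ℝ, 0 < e → ∀ δ0 : ℝ, 0 < δ0 → ∃ δ : ℝ, 0 < δ ∧ δ ≤ δ0 ∧
      ∫ l in {w : ℂ | ‖w‖ ∈ Icc (1 - δ) (1 - δ / 2)} ∩ closedBall ζ ρ, ‖Φ l‖ ≤ e * δ := by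
    intro e he δ0 hδ0
    set I := ∫ w in ball (0 : ℂ) 1, ‖g w * conj (f w)‖ with hI
    set J := ∫ u, phi u with hJ
    have hlim := ((tendsto_outer hν).const_mul (196 * J)).add
      ((tendsto_outer hgi1).const_mul (4 * π * B))
    simp only [mul_zero, add_zero] at hlim
    obtain ⟨n, hn⟩ := (hlim.eventually (gt_mem_nhds (half_pos he))).exists
    set η' : ℝ := 1 / ((n : ℝ) + 1) with hη'
    have hη0 : 0 < η' := by positivity
    have hlim2 : Tendsto (fun δ : ℝ => δ * (π * (4 / η' ^ 3 * I))) (𝓝[>] 0)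
        (𝓝 (0 * (π * (4 / η' ^ 3 * I)))) :=
      Tendsto.mono_left (Continuous.tendsto (by fun_prop) 0) nhdsWithin_le_nhds
    rw [zero_mul] at hlim2
    have hm : 0 < min (1 / 4) (min η' δ0) := lt_min (by norm_num) (lt_min hη0 hδ0)
    obtain ⟨δ, hδ1, hδ⟩ := ((hlim2.eventually (gt_mem_nhds (half_pos he))).and
      (Ioo_mem_nhdsGT hm)).exists
    have d0 : 0 < δ := hδ.1
    have d1 : δ ≤ 1 / 4 := hδ.2.le.trans (min_le_left _ _)
    have d2 : δ ≤ η' := hδ.2.le.trans ((min_le_right _ _).trans (min_le_left _ _))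
    have d3 : δ ≤ δ0 := hδ.2.le.trans ((min_le_right _ _).trans (min_le_right _ _))
    refine ⟨δ, d0, d3, ?_⟩
    have hu := annulus_upper (P := Pg) hν hPgc
      (fun l l' h1 h2 h3 => le_of_eq (congrArg norm (hrep l l' h1 h2 h3))) d0 d1 d2
    set A := {w : ℂ | ‖w‖ ∈ Icc (1 - δ) (1 - δ / 2)} with hA
    have hAc : IsCompact A := isCompact_annulus _ _
    have hAb : A ⊆ ball 0 1 := fun w hw => mem_ball_zero_iff.mpr (by linarith [hw.2])
    have hK : IsCompact (A ∩ closedBall ζ ρ) := hAc.inter_right isClosed_closedBall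
    have hKU : A ∩ closedBall ζ ρ ⊆ U := fun w hw =>
      ⟨closedBall_subset_ball (by linarith) hw.2, hAb hw.1⟩
    have iP : IntegrableOn (fun l => ‖Pg l‖) A := (hPgc.mono hAb).norm.integrableOn_compact hAc
    have ig : IntegrableOn (fun l => ‖g l‖) (ball (0 : ℂ) 1 \ closedBall 0 (1 - 2 * η')) :=
      (hgi1.mono_set sdiff_subset).norm
    have hKE : A ∩ closedBall ζ ρ ⊆ ball (0 : ℂ) 1 \ closedBall 0 (1 - 2 * η') := by
      intro w hw
      refine ⟨hAb hw.1, fun hc => ?_⟩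
      have := mem_closedBall_zero_iff.mp hc
      linarith [hw.1.1]
    have iP' : Integrable (fun l => ‖Pg l‖) (volume.restrict (A ∩ closedBall ζ ρ)) :=
      iP.mono_set inter_subset_left
    have ig' : Integrable (fun l => 4 * π * B * δ * ‖g l‖) (volume.restrict (A ∩ closedBall ζ ρ)) :=
      (ig.mono_set hKE).const_mul _
    have s1 : ∫ l in A ∩ closedBall ζ ρ, ‖Φ l‖
        ≤ ∫ l in A ∩ closedBall ζ ρ, (‖Pg l‖ + 4 * π * B * δ * ‖g l‖) := by
      refine setIntegral_mono_on ((hΦd.continuousOn.mono hKU).norm.integrableOn_compact hK)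
        (iP'.add ig') hK.measurableSet fun l hl => (hcmp l (hKU hl)).trans ?_
      have := pi_pos
      have t : 1 - ‖l‖ ≤ δ := by linarith [hl.1.1]
      gcongr
    rw [integral_add iP' ig', integral_const_mul] at s1
    have s2 : ∫ l in A ∩ closedBall ζ ρ, ‖Pg l‖ ≤ ∫ l in A, ‖Pg l‖ :=
      setIntegral_mono_set iP (Eventually.of_forall fun _ => norm_nonneg _)
        (LE.le.eventuallyLE inter_subset_left)
    have s3 : ∫ l in A ∩ closedBall ζ ρ, ‖g l‖
        ≤ ∫ l in ball (0 : ℂ) 1 \ closedBall 0 (1 - 2 * η'), ‖g l‖ :=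
      setIntegral_mono_set ig (Eventually.of_forall fun _ => norm_nonneg _)
        (LE.le.eventuallyLE hKE)
    have s4 := mul_le_mul_of_nonneg_left s3 (show 0 ≤ 4 * π * B * δ by have := pi_pos; positivity)
    set T1 := ∫ w in ball (0 : ℂ) 1 \ closedBall 0 (1 - 2 * η'), ‖g w * conj (f w)‖ with hT1
    set T2 := ∫ l in ball (0 : ℂ) 1 \ closedBall 0 (1 - 2 * η'), ‖g l‖ with hT2
    calc _ ≤ π * (4 * δ ^ 2 / η' ^ 3 * I) + 196 * δ * J * T1 + 4 * π * B * δ * T2 := by linarith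
      _ = δ * (δ * (π * (4 / η' ^ 3 * I)) + (196 * J * T1 + 4 * π * B * T2)) := by ring
      _ ≤ δ * e := mul_le_mul_of_nonneg_left (by linarith) d0.le
      _ = e * δ := mul_comm _ _
  have hΦ0 := local_vanish hζ hρ (by linarith) hΦd hgrow hsm
  have hfh : f =ᶠ[𝓝 b] h := by
    filter_upwards [ball_mem_nhds b hη] with u hu
    have h1 : F =ᶠ[𝓝 u] fun v => conj κ / π + P v := by
      filter_upwards [isOpen_ball.mem_nhds hu] with v hv
      have := (mul_eq_zero.mp (hΦ0 (hηb v hv).1)).resolve_left (hηb v hv).2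
      field_simp
      linear_combination -this
    exact (hF u (hηb u hu).1.2).unique
      (((hP u (hU8 (hηb u hu).1)).const_add _).congr_of_eventuallyEq h1)
  refine ⟨2 * ρ, by linarith, fun w hw hw1 => ?_⟩
  exact ((hfd.mono inter_subset_right).analyticOnNhd hUo).eqOn_of_preconnected_of_eventuallyEq
    ((hh.mono (hU8.trans hρΩ)).analyticOnNhd hUo) hUc hbU hfh ⟨hw, mem_ball_zero_iff.mpr hw1⟩

end Pool.Agent.Lib.MP_435399_an
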