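import Mathlib
import Pool.Agent.Lib.MP_435399_an.LocMain

set_option autoImplicit false

open MeasureTheory Set Metric Real Complex Filter Topology ComplexConjugate

namespace Pool.Agent.Lib.MP_435399_an

lemma ker2_le_phi' {δ : ℝ} {l l' w : ℂ} (hδ : 0 < δ) (h1 : 1 + δ / 2 ≤ ‖l'‖)
    (h2 : ‖l - l'‖ ≤ 3 * δ) (hw : ‖w‖ ≤ 1) :
    ‖ker2 l l' w‖ ≤ 729 / δ * phi (δ⁻¹ • (l - w)) := by
  have h3 : δ / 2 ≤ ‖w - l'‖ := by
    have := norm_sub_norm_le l' w
    rw [norm_sub_rev] at this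
    linarith
  have h4 : ‖w - l‖ ≤ ‖w - l'‖ + 3 * δ := by
    have := norm_sub_le (w - l') (l - l')
    have e : w - l' - (l - l') = w - l := by ring
    rw [e] at this
    linarith
  unfold ker2 phi
  rw [norm_div, norm_mul, norm_pow, norm_pow, norm_smul, norm_inv, Real.norm_of_nonneg hδ.le,
    norm_sub_rev l w]
  set ρ := ‖w - l‖ with hρ
  set b := ‖w - l'‖ with hb
  rcases (norm_nonneg (w - l)).eq_or_lt with h0 | h0
  · rw [← hρ] at h0
    rw [← h0]; simp
  rw [← hρ] at h0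
  have hb0 : 0 < b := by linarith
  have e : 729 / δ * (δ⁻¹ * ρ * (1 + δ⁻¹ * ρ) ^ 2)⁻¹ = 729 * δ ^ 2 / (ρ * (δ + ρ) ^ 2) := by
    field_simp
  rw [e, div_le_div_iff₀ (by positivity) (by positivity)]
  have h5 : (δ + ρ) ^ 2 ≤ (9 * b) ^ 2 := pow_le_pow_left₀ (by positivity) (by linarith) 2
  have h6 : ‖l - l'‖ ^ 2 ≤ (3 * δ) ^ 2 := pow_le_pow_left₀ (norm_nonneg _) h2 2
  calc ‖l - l'‖ ^ 2 * (ρ * (δ + ρ) ^ 2) ≤ (3 * δ) ^ 2 * (ρ * (9 * b) ^ 2) :=
        mul_le_mul h6 (mul_le_mul_of_nonneg_left h5 h0.le) (by positivity) (by positivity)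
    _ = 729 * δ ^ 2 * (ρ * b ^ 2) := by ring

lemma ker2_le_inner' {δ η : ℝ} {l l' w : ℂ} (hδ : 0 < δ) (hδη : δ ≤ η) (hl : 1 - δ ≤ ‖l‖)
    (h1 : 1 + δ / 2 ≤ ‖l'‖) (h2 : ‖l - l'‖ ≤ 3 * δ) (hw : ‖w‖ ≤ 1 - 2 * η) :
    ‖ker2 l l' w‖ ≤ 9 * δ ^ 2 / η ^ 3 := by
  have hη : 0 < η := hδ.trans_le hδη
  have h3 : η ≤ ‖w - l'‖ := by
    have := norm_sub_norm_le l' w
    rw [norm_sub_rev] at this
    linarith
  have h4 : η ≤ ‖w - l‖ := by
    have := norm_sub_norm_le l w
    rw [norm_sub_rev] at this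
    linarith
  unfold ker2
  rw [norm_div, norm_mul, norm_pow, norm_pow]
  refine div_le_div₀ (by positivity) ?_ (by positivity) ?_
  · have := pow_le_pow_left₀ (norm_nonneg _) h2 2
    linarith
  · calc η ^ 3 = η * η ^ 2 := by ring
      _ ≤ _ := mul_le_mul h4 (pow_le_pow_left₀ hη.le h3 2) (by positivity) (norm_nonneg _)

lemma annulus_upper' {ν : ℂ → ℂ} {P : ℂ → ℝ} (hν : IntegrableOn ν (ball (0 : ℂ) 1))
    {δ η : ℝ} (hδ : 0 < δ) (hδη : δ ≤ η) {A : Set ℂ} (hAc : IsCompact A)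
    (hAsub : A ⊆ ball 0 1) (hA1 : ∀ l ∈ A, 1 - δ ≤ ‖l‖) (hP : IntegrableOn P A)
    (hrep : ∀ l ∈ A, ∃ l' : ℂ, 1 + δ / 2 ≤ ‖l'‖ ∧ ‖l - l'‖ ≤ 3 * δ ∧
      P l ≤ ‖∫ w in ball (0 : ℂ) 1, ν w * ker2 l l' w‖) :
    ∫ l in A, P l
      ≤ π * (9 * δ ^ 2 / η ^ 3 * ∫ w in ball (0 : ℂ) 1, ‖ν w‖)
        + 729 * δ * (∫ u, phi u) * ∫ w in ball (0 : ℂ) 1 \ closedBall 0 (1 - 2 * η), ‖ν w‖ := by
  have hη : 0 < η := hδ.trans_le hδη
  set E := ball (0 : ℂ) 1 \ closedBall 0 (1 - 2 * η) with hE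
  have hEm : MeasurableSet E := measurableSet_ball.diff measurableSet_closedBall
  set k : ℂ → ℝ := fun u => 729 / δ * phi (δ⁻¹ • u) with hk
  have hk0 : ∀ u, 0 ≤ k u := fun u => mul_nonneg (by positivity) (phi_nonneg _)
  have hki : Integrable k := (integrable_phi.comp_smul (inv_ne_zero hδ.ne')).const_mul _
  have hkI : ∫ u, k u = 729 * δ * ∫ u, phi u := by
    rw [hk, integral_const_mul, Measure.integral_comp_inv_smul_of_nonneg _ phi hδ.le,
      Complex.finrank_real_complex, smul_eq_mul]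
    field_simp
  have hνE : Integrable (fun w => ‖ν w‖) (volume.restrict E) := (hν.mono_set sdiff_subset).norm
  have hprod : Integrable (fun p : ℂ × ℂ => ‖ν p.2‖ * k (p.1 - p.2))
      (volume.prod (volume.restrict E)) :=
    hνE.convolution_integrand (ContinuousLinearMap.mul ℝ ℝ) hki
  set c1 : ℝ := 9 * δ ^ 2 / η ^ 3 with hc1
  have hc10 : 0 ≤ c1 := by positivity
  set I := ∫ w in ball (0 : ℂ) 1, ‖ν w‖ with hI
  have hI0 : 0 ≤ I := integral_nonneg fun _ => norm_nonneg _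
  set Q : ℂ → ℝ := fun l => ∫ w in E, ‖ν w‖ * k (l - w) with hQ
  have hQi : Integrable Q := hprod.integral_prod_left
  have hQ0 : ∀ l, 0 ≤ Q l := fun l => integral_nonneg fun w => mul_nonneg (norm_nonneg _) (hk0 _)
  have hQI : ∫ l, Q l = 729 * δ * (∫ u, phi u) * ∫ w in E, ‖ν w‖ := by
    rw [hQ, integral_integral_swap hprod]
    simp_rw [integral_const_mul, integral_sub_right_eq_self k, hkI]
    rw [integral_mul_const, mul_comm]
  have hpt : ∀ᵐ l : ℂ, l ∈ A → P l ≤ c1 * I + Q l := by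
    filter_upwards [hprod.prod_right_ae] with l hl hlA
    obtain ⟨l', g1, g2, g3⟩ := hrep l hlA
    refine g3.trans ?_
    have hind : Integrable (E.indicator fun w => ‖ν w‖ * k (l - w))
        (volume.restrict (ball (0 : ℂ) 1)) :=
      ((integrable_indicator_iff hEm).mpr hl).integrableOn
    have h1 : ‖∫ w in ball (0 : ℂ) 1, ν w * ker2 l l' w‖
        ≤ ∫ w in ball (0 : ℂ) 1, (c1 * ‖ν w‖ + E.indicator (fun w => ‖ν w‖ * k (l - w)) w) := by
      refine norm_integral_le_of_norm_le ((hν.norm.const_mul c1).add hind) ?_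
      refine (ae_restrict_iff' measurableSet_ball).mpr (Eventually.of_forall fun w hw => ?_)
      rw [norm_mul]
      by_cases hwE : w ∈ E
      · rw [indicator_of_mem hwE]
        have := mul_le_mul_of_nonneg_left
          (ker2_le_phi' hδ g1 g2 (mem_ball_zero_iff.mp hw).le) (norm_nonneg (ν w))
        have h2 : 0 ≤ c1 * ‖ν w‖ := by positivity
        simp only [hk]
        linarith
      · rw [indicator_of_notMem hwE, add_zero, mul_comm]
        have hw2 : ‖w‖ ≤ 1 - 2 * η := by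
          by_contra hc
          exact hwE ⟨hw, by rwa [mem_closedBall_zero_iff]⟩
        exact mul_le_mul_of_nonneg_right (ker2_le_inner' hδ hδη (hA1 l hlA) g1 g2 hw2)
          (norm_nonneg _)
    refine h1.trans (le_of_eq ?_)
    rw [integral_add (hν.norm.const_mul c1) hind, integral_const_mul, setIntegral_indicator hEm,
      inter_eq_right.mpr sdiff_subset]
  have hfin : volume A < ⊤ := hAc.measure_lt_top
  have h2 : ∫ l in A, P l ≤ ∫ l in A, (c1 * I + Q l) :=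
    setIntegral_mono_on_ae hP ((integrableOn_const hfin.ne).add hQi.integrableOn)
      hAc.measurableSet hpt
  refine h2.trans ?_
  have hci : Integrable (fun _ : ℂ => c1 * I) (volume.restrict A) := integrableOn_const hfin.ne
  rw [integral_add hci hQi.integrableOn, setIntegral_const, smul_eq_mul]
  refine add_le_add (mul_le_mul_of_nonneg_right ?_ (by positivity)) ?_
  · have h3 : volume.real A ≤ volume.real (ball (0 : ℂ) 1) :=
      measureReal_mono hAsub measure_ball_lt_top.ne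
    refine h3.trans (le_of_eq ?_)
    simp [Measure.real, Complex.volume_ball]
  · rw [← hQI]
    exact setIntegral_le_integral hQi (Eventually.of_forall hQ0)

lemma outer_sub_le {w u : ℂ} (hw : w ∈ ball (0 : ℂ) 1) : ‖u‖ - 1 ≤ ‖w - u‖ := by
  have := norm_sub_norm_le u w
  rw [norm_sub_rev] at this
  linarith [mem_ball_zero_iff.mp hw]

lemma integrable_div_pow {ν : ℂ → ℂ} (hν : IntegrableOn ν (ball (0 : ℂ) 1)) {u : ℂ} (hu : 1 < ‖u‖)
    (n : ℕ) : Integrable (fun w => ν w / (w - u) ^ n) μD := by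
  simp only [div_eq_mul_inv]
  refine Integrable.mul_bdd (c := ((‖u‖ - 1) ^ n)⁻¹) hν ?_ ?_
  · exact Measurable.aestronglyMeasurable (by fun_prop)
  · refine (ae_restrict_iff' measurableSet_ball).mpr (Eventually.of_forall fun w hw => ?_)
    rw [norm_inv, norm_pow]
    have h0 : 0 < ‖u‖ - 1 := by linarith
    exact inv_anti₀ (by positivity) (pow_le_pow_left₀ h0.le (outer_sub_le hw) n)

lemma hasDerivAt_cauchy {ν : ℂ → ℂ} (hν : IntegrableOn ν (ball (0 : ℂ) 1)) {l : ℂ} (hl : 1 < ‖l‖) :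
    HasDerivAt (fun u => ∫ w, ν w / (w - u) ∂μD) (∫ w, ν w / (w - l) ^ 2 ∂μD) l := by
  set r := (‖l‖ - 1) / 2 with hr
  have hr0 : 0 < r := by rw [hr]; linarith
  have hb : ∀ u ∈ ball l r, 1 + r ≤ ‖u‖ := by
    intro u hu
    have h1 : ‖u - l‖ < r := by simpa [dist_eq_norm] using hu
    have := norm_sub_norm_le l u
    rw [norm_sub_rev] at this
    linarith
  have := hasDerivAt_integral_of_dominated_loc_of_deriv_le (μ := μD)
    (F := fun u w => ν w / (w - u)) (F' := fun u w => ν w / (w - u) ^ 2) (x₀ := l)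
    (bound := fun w => ‖ν w‖ / r ^ 2) (ball_mem_nhds l hr0) ?_ ?_ ?_ ?_ ?_ ?_
  · exact this.2
  · filter_upwards [ball_mem_nhds l hr0] with u hu
    have := integrable_div_pow hν (u := u) (by linarith [hb u hu]) 1
    simp only [pow_one] at this
    exact this.aestronglyMeasurable
  · have := integrable_div_pow hν hl 1
    simpa only [pow_one] using this
  · exact (integrable_div_pow hν hl 2).aestronglyMeasurable
  · refine (ae_restrict_iff' measurableSet_ball).mpr (Eventually.of_forall fun w hw u hu => ?_)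
    rw [norm_div, norm_pow]
    have h1 : r ≤ ‖w - u‖ := by linarith [outer_sub_le (u := u) hw, hb u hu]
    exact div_le_div_of_nonneg_left (norm_nonneg _) (by positivity) (pow_le_pow_left₀ hr0.le h1 2)
  · exact hν.norm.div_const _
  · refine (ae_restrict_iff' measurableSet_ball).mpr (Eventually.of_forall fun w hw u hu => ?_)
    have h1 : r ≤ ‖w - u‖ := by linarith [outer_sub_le (u := u) hw, hb u hu]
    have hne : w - u ≠ 0 := norm_pos_iff.mp (hr0.trans_le h1)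
    have h2 : HasDerivAt (fun u : ℂ => w - u) (-1) u := by
      simpa using (hasDerivAt_id u).const_sub w
    have h3 := (hasDerivAt_const u (ν w)).div h2 hne
    refine h3.congr_deriv ?_
    ring

lemma taylor_two {M : ℂ → ℂ} {O S : Set ℂ} (hO : IsOpen O) (hM : DifferentiableOn ℂ M O)
    (hS : IsCompact S) (hSc : Convex ℝ S) (hSO : S ⊆ O) :
    ∃ B : ℝ, 0 ≤ B ∧ ∀ x ∈ S, ∀ y ∈ S, ‖M x - M y - (x - y) * deriv M y‖ ≤ B * ‖x - y‖ ^ 2 := by
  have h1 : DifferentiableOn ℂ (deriv M) O := hM.deriv hO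
  obtain ⟨B, hB⟩ := hS.exists_bound_of_continuousOn ((h1.deriv hO).continuousOn.mono hSO)
  refine ⟨max B 0, le_max_right _ _, fun x hx y hy => ?_⟩
  have hLip : ∀ u ∈ S, ‖deriv M u - deriv M y‖ ≤ max B 0 * ‖u - y‖ := fun u hu =>
    hSc.norm_image_sub_le_of_norm_hasDerivWithin_le (f' := deriv (deriv M))
      (fun v hv => (h1.differentiableAt (hO.mem_nhds (hSO hv))).hasDerivAt.hasDerivWithinAt)
      (fun v hv => (hB v hv).trans (le_max_left _ _)) hy hu
  have h2 := (hSc.inter (convex_closedBall y ‖x - y‖)).norm_image_sub_le_of_norm_hasDerivWithin_le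
    (f := fun u => M u - u * deriv M y) (f' := fun u => deriv M u - deriv M y)
    (C := max B 0 * ‖x - y‖) (x := y) (y := x)
    (fun v hv => by
      have a1 := (hM.differentiableAt (hO.mem_nhds (hSO hv.1))).hasDerivAt
      have a2 : HasDerivAt (fun u : ℂ => u * deriv M y) (deriv M y) v := by
        simpa using (hasDerivAt_id v).mul_const (deriv M y)
      exact (a1.sub a2).hasDerivWithinAt)
    (fun v hv => (hLip v hv.1).trans (mul_le_mul_of_nonneg_left
      (by simpa [dist_eq_norm] using hv.2) (le_max_right _ _)))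
    ⟨hy, mem_closedBall_self (norm_nonneg _)⟩ ⟨hx, by simp [dist_eq_norm]⟩
  calc _ = ‖M x - x * deriv M y - (M y - y * deriv M y)‖ := by congr 1; ring
    _ ≤ _ := h2
    _ = _ := by ring

lemma primitive_growth {f F : ℂ → ℂ} (hfd : DifferentiableOn ℂ f (ball 0 1)) (hfm : MemLp f 2 μD)
    (hF : ∀ u ∈ ball (0 : ℂ) 1, HasDerivAt F (f u) u) (hF0 : F 0 = 0) :
    ∃ N : ℝ, 0 ≤ N ∧ ∀ l : ℂ, ‖l‖ < 1 → (1 - ‖l‖) * ‖F l‖ ≤ N := by
  have hi : IntegrableOn (fun w => f w ^ 2) (ball (0 : ℂ) 1) := by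
    have := hfm.integrable_mul hfm
    refine this.congr (Eventually.of_forall fun w => ?_)
    simp [sq]
  set N2 := ∫ w in ball (0 : ℂ) 1, ‖f w ^ 2‖ with hN2
  have h0 : 0 ≤ N2 := integral_nonneg fun _ => norm_nonneg _
  have h1 : ∀ a : ℂ, ‖a‖ < 1 → (1 - ‖a‖) * ‖f a‖ ≤ 1 + N2 := by
    intro a ha
    have := growth (g := fun w => f w ^ 2) (hfd.pow 2) hi ha
    rw [norm_pow, ← mul_pow] at this
    nlinarith [sq_nonneg ((1 - ‖a‖) * ‖f a‖ - 1)]
  refine ⟨1 + N2, by linarith, fun l h2 => ?_⟩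
  have h3 : 0 < 1 - ‖l‖ := by linarith
  have hs : closedBall (0 : ℂ) ‖l‖ ⊆ ball 0 1 := closedBall_subset_ball h2
  have := (convex_closedBall (0 : ℂ) ‖l‖).norm_image_sub_le_of_norm_hasDerivWithin_le
    (f := F) (f' := f) (C := (1 + N2) / (1 - ‖l‖)) (fun u hu => (hF u (hs hu)).hasDerivWithinAt)
    (fun u hu => by
      have hu1 : ‖u‖ ≤ ‖l‖ := mem_closedBall_zero_iff.mp hu
      rw [le_div_iff₀ h3, mul_comm]
      refine le_trans ?_ (h1 u (hu1.trans_lt h2))
      gcongr)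
    (mem_closedBall_self (norm_nonneg l)) (mem_closedBall_zero_iff.mpr le_rfl)
  rw [hF0, sub_zero, sub_zero] at this
  have h4 : ‖F l‖ ≤ (1 + N2) / (1 - ‖l‖) :=
    this.trans (mul_le_of_le_one_right (by positivity) h2.le)
  rwa [le_div_iff₀ h3, mul_comm] at h4

/-- The Cauchy transform of an integrable density has no jump across the circle. -/
theorem jump {G f F M : ℂ → ℂ} {c ζ : ℂ} {R : ℝ} (hR : 0 < R) (hζ : ‖ζ‖ = 1)
    (hGd : DifferentiableOn ℂ G (ball 0 1)) (hGm : MemLp G 2 μD)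
    (hfd : DifferentiableOn ℂ f (ball 0 1)) (hfm : MemLp f 2 μD)
    (hF : ∀ u ∈ ball (0 : ℂ) 1, HasDerivAt F (f u) u) (hF0 : F 0 = 0)
    (hM : DifferentiableOn ℂ M (ball ζ R))
    (hin : ∀ l : ℂ, ‖l‖ < 1 → ∫ w, dslope G l w * conj (f w) ∂μD = π * G l * c)
    (hout : ∀ l ∈ ball ζ R, 1 < ‖l‖ →
      ∫ w, G w * conj (f w) / (w - l) ∂μD = -π * M l * (c - conj (F (conj l)⁻¹))) :
    (∀ w ∈ ball (0 : ℂ) 1, f w = 0) ∨
      ∃ r : ℝ, 0 < r ∧ ∀ l ∈ ball ζ r, ‖l‖ < 1 → G l + M l = 0 := by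
  have hFd : DifferentiableOn ℂ F (ball 0 1) :=
    fun u hu => (hF u hu).differentiableAt.differentiableWithinAt
  have hfi1 : IntegrableOn f (ball (0 : ℂ) 1) := hfm.integrable one_le_two
  have hgi1 : IntegrableOn G (ball (0 : ℂ) 1) := hGm.integrable one_le_two
  have hν : IntegrableOn (fun w => G w * conj (f w)) (ball (0 : ℂ) 1) := integrable_mul_conj hGm hfm
  have hcf : ContinuousOn (fun w => conj (f w)) (ball (0 : ℂ) 1) :=
    Complex.continuous_conj.comp_continuousOn hfd.continuousOn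
  have hπ : (π : ℂ) ≠ 0 := by exact_mod_cast pi_ne_zero
  obtain ⟨ρ, hρ, hρ4, hρΩ⟩ : ∃ ρ : ℝ, 0 < ρ ∧ ρ ≤ 1 / 4 ∧ closedBall ζ (4 * ρ) ⊆ ball ζ R := by
    refine ⟨min (1 / 4) (R / 8), lt_min (by norm_num) (by linarith), min_le_left _ _,
      closedBall_subset_ball ?_⟩
    linarith [min_le_right (1 / 4 : ℝ) (R / 8)]
  set U := ball ζ (2 * ρ) ∩ ball (0 : ℂ) 1 with hU
  have hUo : IsOpen U := isOpen_ball.inter isOpen_ball
  have hU4 : U ⊆ closedBall ζ (4 * ρ) := fun l hl =>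
    ball_subset_closedBall (ball_subset_ball (by linarith) hl.1)
  have hUl : ∀ l ∈ U, l ≠ 0 ∧ (conj l)⁻¹ ∈ closedBall ζ (4 * ρ) ∧ 1 < ‖(conj l)⁻¹‖ ∧
      ‖l - (conj l)⁻¹‖ ≤ 4 * (1 - ‖l‖) := by
    intro l hl
    have h1 : ‖l - ζ‖ < 2 * ρ := by simpa [dist_eq_norm] using hl.1
    have h2 : ‖l‖ < 1 := mem_ball_zero_iff.mp hl.2
    have h3 : 1 / 2 ≤ ‖l‖ := by
      have := norm_sub_norm_le ζ l
      rw [norm_sub_rev] at this
      linarith
    have h4 : 0 < ‖l‖ := by linarith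
    have hl0 : l ≠ 0 := norm_pos_iff.mp h4
    have hcl : conj l ≠ 0 := by simpa using hl0
    have hζζ : conj ζ * ζ = 1 := by
      rw [Complex.conj_mul', hζ]; simp
    refine ⟨hl0, ?_, ?_, ?_⟩
    · rw [mem_closedBall, dist_eq_norm]
      have e : (conj l)⁻¹ - ζ = (conj (ζ - l) * ζ) / conj l := by
        rw [map_sub, sub_mul, hζζ]
        field_simp
      rw [e, norm_div, norm_mul, Complex.norm_conj, Complex.norm_conj, hζ, mul_one, norm_sub_rev,
        div_le_iff₀ h4]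
      nlinarith
    · rw [norm_inv, Complex.norm_conj]
      exact (one_lt_inv₀ h4).mpr h2
    · have e : l - (conj l)⁻¹ = ((‖l‖ ^ 2 - 1 : ℝ) : ℂ) / conj l := by
        push_cast
        rw [← Complex.mul_conj']
        field_simp
      rw [e, norm_div, Complex.norm_conj, Complex.norm_real, Real.norm_eq_abs,
        abs_of_nonpos (by nlinarith), div_le_iff₀ h4]
      nlinarith
  -- the inner transform
  have e1 : ∀ l : ℂ, ‖l‖ < 1 → l ≠ 0 →
      ∫ w, G w * conj (f w) / (w - l) ∂μD = π * G l * (c - conj (F l)) := by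
    intro l hl hl0
    have hlb : l ∈ ball (0 : ℂ) 1 := mem_ball_zero_iff.mpr hl
    have i1 : IntegrableOn (fun w => G w * conj (f w) / (w - l)) (ball (0 : ℂ) 1) :=
      integrableOn_div_sub (hGd.continuousOn.mul hcf) hν hl
    have i2 : IntegrableOn (fun w => conj (f w) / (w - l)) (ball (0 : ℂ) 1) :=
      integrableOn_div_sub hcf (Complex.conjCLE.toContinuousLinearMap.integrable_comp hfi1) hl
    have hae : ∀ᵐ w ∂μD, w ≠ l := ae_restrict_of_ae (Measure.ae_ne volume l)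
    have : ∫ w, dslope G l w * conj (f w) ∂μD
        = ∫ w, (G w * conj (f w) / (w - l) - G l * (conj (f w) / (w - l))) ∂μD := by
      refine integral_congr_ae ?_
      filter_upwards [hae] with w hw
      rw [dslope_of_ne _ hw, slope_def_field]
      have := sub_ne_zero.mpr hw
      field_simp
    rw [integral_sub i1 (i2.const_mul _), integral_const_mul,
      cauchy_transform hfd hfi1 hF hF0 hl hl0, hin l hl] at this
    linear_combination -this
  -- the representation at the reflected point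
  have hrep : ∀ l ∈ U, ∫ w, G w * conj (f w) * ker2 l (conj l)⁻¹ w ∂μD
      = π * ((G l + M l) * (c - conj (F l)))
        - π * (c - conj (F l)) * (M l - M (conj l)⁻¹ - (l - (conj l)⁻¹) * deriv M (conj l)⁻¹)
        + π * (l - (conj l)⁻¹) * M (conj l)⁻¹ * (conj (f l) * conj l ^ 2) := by
    intro l hl
    obtain ⟨hl0, hl4, hl1, -⟩ := hUl l hl
    have hl2 : ‖l‖ < 1 := mem_ball_zero_iff.mp hl.2
    set l' := (conj l)⁻¹ with hl'
    have hll : (conj l')⁻¹ = l := by simp [hl']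
    have hl'0 : l' ≠ 0 := norm_pos_iff.mp (by linarith)
    have hl'R : l' ∈ ball ζ R := hρΩ hl4
    have d1 := hasDerivAt_cauchy hν hl1
    have dM := (hM.differentiableAt (isOpen_ball.mem_nhds hl'R)).hasDerivAt
    have dQ := hasDerivAt_reflect (P := F) (p := f l) hl'0 (by rw [hll]; exact hF l hl.2)
    have d2 := (dM.const_mul (-(π : ℂ))).mul (dQ.const_sub c)
    have hev : (fun u => ∫ w, G w * conj (f w) / (w - u) ∂μD) =ᶠ[𝓝 l']
        fun u => -(π : ℂ) * M u * (c - conj (F (conj u)⁻¹)) := by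
      filter_upwards [isOpen_ball.mem_nhds hl'R,
        (isOpen_lt continuous_const continuous_norm).mem_nhds hl1] with u h1 h2
      exact hout u h1 h2
    have e2 := d1.unique (d2.congr_of_eventuallyEq hev)
    have e3 := hout l' hl'R hl1
    rw [hll] at e2 e3
    have i1 : IntegrableOn (fun w => G w * conj (f w) / (w - l)) (ball (0 : ℂ) 1) :=
      integrableOn_div_sub (hGd.continuousOn.mul hcf) hν hl2
    have i2 : Integrable (fun w => G w * conj (f w) / (w - l')) μD := by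
      simpa only [pow_one] using integrable_div_pow hν hl1 1
    have i3 := integrable_div_pow hν hl1 2
    have hae : ∀ᵐ w ∂μD, w ≠ l := ae_restrict_of_ae (Measure.ae_ne volume l)
    have e4 : ∫ w, G w * conj (f w) * ker2 l l' w ∂μD
        = ∫ w, (G w * conj (f w) / (w - l) - G w * conj (f w) / (w - l')
          - (l - l') * (G w * conj (f w) / (w - l') ^ 2)) ∂μD := by
      refine integral_congr_ae ?_
      filter_upwards [hae, ae_restrict_mem measurableSet_ball] with w hw hwb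
      have h1 := sub_ne_zero.mpr hw
      have h2 : w - l' ≠ 0 := norm_pos_iff.mp (by linarith [outer_sub_le (u := l') hwb])
      simp only [ker2]
      field_simp
      ring
    have e5 : (l' ^ 2)⁻¹ = conj l ^ 2 := by rw [hl', inv_pow, inv_inv]
    have i12 : Integrable
        (fun w => G w * conj (f w) / (w - l) - G w * conj (f w) / (w - l')) μD := i1.sub i2
    rw [e4, integral_sub i12 (i3.const_mul _), integral_sub i1 i2, integral_const_mul,
      e1 l hl2 hl0, e2, e3, e5]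
    ring
  obtain ⟨B2, hB20, hB2⟩ := taylor_two isOpen_ball hM (isCompact_closedBall ζ (4 * ρ))
    (convex_closedBall _ _) hρΩ
  obtain ⟨B, hB⟩ := (isCompact_closedBall ζ (4 * ρ)).exists_bound_of_continuousOn
    (hM.continuousOn.mono hρΩ)
  have hB0 : 0 ≤ B := (norm_nonneg _).trans (hB ζ (mem_closedBall_self (by linarith)))
  obtain ⟨N, hN0, hN⟩ := primitive_growth hfd hfm hF hF0
  set Φ : ℂ → ℂ := fun l => π * ((G l + M l) * (conj c - F l)) with hΦ
  have hMU : DifferentiableOn ℂ M U := hM.mono (hU4.trans hρΩ)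
  have hΦd : DifferentiableOn ℂ Φ U :=
    (((hGd.mono inter_subset_right).add hMU).mul
      ((differentiableOn_const _).sub (hFd.mono inter_subset_right))).const_mul _
  have hcF : ∀ l : ℂ, ‖l‖ < 1 → (1 - ‖l‖) * ‖conj c - F l‖ ≤ ‖c‖ + N := by
    intro l hl
    have t1 : ‖conj c - F l‖ ≤ ‖c‖ + ‖F l‖ := by
      refine (norm_sub_le _ _).trans ?_
      rw [Complex.norm_conj]
    have t2 := hN l hl
    have t3 : (1 - ‖l‖) * ‖c‖ ≤ ‖c‖ :=
      mul_le_of_le_one_left (norm_nonneg _) (by linarith [norm_nonneg l])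
    calc _ ≤ (1 - ‖l‖) * (‖c‖ + ‖F l‖) := mul_le_mul_of_nonneg_left t1 (by linarith)
      _ ≤ _ := by linarith
  have hcc : ∀ l : ℂ, ‖c - conj (F l)‖ = ‖conj c - F l‖ := by
    intro l
    rw [← Complex.norm_conj, map_sub, Complex.conj_conj]
  set D : ℝ := π * (16 * B2 * (‖c‖ + N) + 4 * B) with hD
  have hD0 : 0 ≤ D := by have := pi_pos; positivity
  have hcmp : ∀ l ∈ U, ‖Φ l‖ ≤ ‖∫ w, G w * conj (f w) * ker2 l (conj l)⁻¹ w ∂μD‖
      + D * (1 - ‖l‖) * (1 + ‖f l‖) := by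
    intro l hl
    obtain ⟨hl0, hl4, hl1, hld⟩ := hUl l hl
    have hl2 : ‖l‖ < 1 := mem_ball_zero_iff.mp hl.2
    have h0 : 0 < 1 - ‖l‖ := by linarith
    have hp := pi_pos
    have a0 : ‖Φ l‖ = ‖(π : ℂ) * ((G l + M l) * (c - conj (F l)))‖ := by
      simp only [hΦ, norm_mul, hcc]
    have a1 : ‖(π : ℂ) * (c - conj (F l))
        * (M l - M (conj l)⁻¹ - (l - (conj l)⁻¹) * deriv M (conj l)⁻¹)‖
        ≤ π * (16 * B2 * (‖c‖ + N)) * (1 - ‖l‖) := by
      rw [norm_mul, norm_mul, Complex.norm_real, Real.norm_of_nonneg hp.le, hcc]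
      have b1 := hB2 l (hU4 hl) _ hl4
      have b2 := hcF l hl2
      calc _ ≤ π * ‖conj c - F l‖ * (B2 * (4 * (1 - ‖l‖)) ^ 2) := by
            refine mul_le_mul_of_nonneg_left (b1.trans ?_) (by positivity)
            gcongr
        _ = π * (16 * B2 * ((1 - ‖l‖) * ‖conj c - F l‖)) * (1 - ‖l‖) := by ring
        _ ≤ _ := by gcongr
    have a2 : ‖(π : ℂ) * (l - (conj l)⁻¹) * M (conj l)⁻¹ * (conj (f l) * conj l ^ 2)‖
        ≤ π * (4 * B) * (1 - ‖l‖) * ‖f l‖ := by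
      rw [norm_mul, norm_mul, norm_mul, norm_mul, Complex.norm_real, Real.norm_of_nonneg hp.le,
        norm_pow, Complex.norm_conj, Complex.norm_conj]
      have b1 := hB _ hl4
      have b2 : ‖l‖ ^ 2 ≤ 1 := pow_le_one₀ (norm_nonneg _) hl2.le
      calc _ ≤ π * (4 * (1 - ‖l‖)) * B * (‖f l‖ * 1) := by gcongr
        _ = _ := by ring
    have a3 : (π : ℂ) * ((G l + M l) * (c - conj (F l)))
        = (∫ w, G w * conj (f w) * ker2 l (conj l)⁻¹ w ∂μD)
          + π * (c - conj (F l)) * (M l - M (conj l)⁻¹ - (l - (conj l)⁻¹) * deriv M (conj l)⁻¹)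
          - π * (l - (conj l)⁻¹) * M (conj l)⁻¹ * (conj (f l) * conj l ^ 2) := by
      rw [hrep l hl]; ring
    rw [a0, a3]
    refine (norm_sub_le _ _).trans ((add_le_add (norm_add_le _ _) le_rfl).trans ?_)
    have a4 : 0 ≤ π * (16 * B2 * (‖c‖ + N)) * (1 - ‖l‖) * ‖f l‖ := by positivity
    have a5 : 0 ≤ π * (4 * B) * (1 - ‖l‖) := by positivity
    have a6 : D * (1 - ‖l‖) * (1 + ‖f l‖) = π * (16 * B2 * (‖c‖ + N)) * (1 - ‖l‖)
        + π * (4 * B) * (1 - ‖l‖) * ‖f l‖ + π * (16 * B2 * (‖c‖ + N)) * (1 - ‖l‖) * ‖f l‖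
        + π * (4 * B) * (1 - ‖l‖) := by rw [hD]; ring
    linarith
  set Ig := ∫ w in ball (0 : ℂ) 1, ‖G w‖ with hIg
  have hIg0 : 0 ≤ Ig := integral_nonneg fun _ => norm_nonneg _
  have hgrow : ∀ l ∈ U, (1 - ‖l‖) ^ 4 * ‖Φ l‖ ≤ π * ((Ig + B) * (‖c‖ + N)) := by
    intro l hl
    have h2 : ‖l‖ < 1 := mem_ball_zero_iff.mp hl.2
    have h0 : 0 < 1 - ‖l‖ := by linarith
    have h1 : 1 - ‖l‖ ≤ 1 := by linarith [norm_nonneg l]
    have g1 := growth hGd hgi1 h2
    have g2 : (1 - ‖l‖) ^ 2 * ‖G l + M l‖ ≤ Ig + B := by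
      have t2 : (1 - ‖l‖) ^ 2 ≤ 1 := pow_le_one₀ h0.le h1
      have t3 : (1 - ‖l‖) ^ 2 * ‖M l‖ ≤ 1 * B :=
        mul_le_mul t2 (hB l (hU4 hl)) (norm_nonneg _) zero_le_one
      calc _ ≤ (1 - ‖l‖) ^ 2 * (‖G l‖ + ‖M l‖) :=
            mul_le_mul_of_nonneg_left (norm_add_le _ _) (by positivity)
        _ ≤ _ := by linarith
    have g3 := hcF l h2
    have hp := pi_pos
    simp only [hΦ]
    rw [norm_mul, norm_mul, Complex.norm_real, Real.norm_of_nonneg hp.le]
    calc _ = π * (((1 - ‖l‖) ^ 2 * ‖G l + M l‖) * ((1 - ‖l‖) * ‖conj c - F l‖)) * (1 - ‖l‖) := by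
          ring
      _ ≤ π * ((Ig + B) * (‖c‖ + N)) * 1 := by gcongr
      _ = _ := mul_one _
  have hψ : IntegrableOn (fun w => ((1 + ‖f w‖ : ℝ) : ℂ)) (ball (0 : ℂ) 1) :=
    ((integrable_const (μ := μD) (1 : ℝ)).add hfi1.norm).ofReal
  have hψn : ∀ w, ‖((1 + ‖f w‖ : ℝ) : ℂ)‖ = 1 + ‖f w‖ := fun w => by
    rw [Complex.norm_real, Real.norm_of_nonneg (by positivity)]
  have hsm : ∀ e : ℝ, 0 < e → ∀ δ0 : ℝ, 0 < δ0 → ∃ δ : ℝ, 0 < δ ∧ δ ≤ δ0 ∧
      ∫ l in {w : ℂ | ‖w‖ ∈ Icc (1 - δ) (1 - δ / 2)} ∩ closedBall ζ ρ, ‖Φ l‖ ≤ e * δ := by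
    intro e he δ0 hδ0
    set I := ∫ w in ball (0 : ℂ) 1, ‖G w * conj (f w)‖ with hI
    set J := ∫ u, phi u with hJ
    have hlim := ((tendsto_outer hν).const_mul (729 * J)).add ((tendsto_outer hψ).const_mul D)
    simp only [mul_zero, add_zero, hψn] at hlim
    obtain ⟨n, hn⟩ := (hlim.eventually (gt_mem_nhds (half_pos he))).exists
    set η' : ℝ := 1 / ((n : ℝ) + 1) with hη'
    have hη0 : 0 < η' := by positivity
    have hlim2 : Tendsto (fun δ : ℝ => δ * (π * (9 / η' ^ 3 * I))) (𝓝[>] 0)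
        (𝓝 (0 * (π * (9 / η' ^ 3 * I)))) :=
      Tendsto.mono_left (Continuous.tendsto (by fun_prop) 0) nhdsWithin_le_nhds
    rw [zero_mul] at hlim2
    have hm : 0 < min (1 / 4) (min η' δ0) := lt_min (by norm_num) (lt_min hη0 hδ0)
    obtain ⟨δ, hδ1, hδ⟩ := ((hlim2.eventually (gt_mem_nhds (half_pos he))).and
      (Ioo_mem_nhdsGT hm)).exists
    have d0 : 0 < δ := hδ.1
    have d1 : δ ≤ 1 / 4 := hδ.2.le.trans (min_le_left _ _)
    have d2 : δ ≤ η' := hδ.2.le.trans ((min_le_right _ _).trans (min_le_left _ _))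
    have d3 : δ ≤ δ0 := hδ.2.le.trans ((min_le_right _ _).trans (min_le_right _ _))
    refine ⟨δ, d0, d3, ?_⟩
    set A := {w : ℂ | ‖w‖ ∈ Icc (1 - δ) (1 - δ / 2)} with hA
    have hAc : IsCompact A := isCompact_annulus _ _
    have hAb : A ⊆ ball 0 1 := fun w hw => mem_ball_zero_iff.mpr (by linarith [hw.2])
    have hK : IsCompact (A ∩ closedBall ζ ρ) := hAc.inter_right isClosed_closedBall
    have hKU : A ∩ closedBall ζ ρ ⊆ U := fun w hw =>
      ⟨closedBall_subset_ball (by linarith) hw.2, hAb hw.1⟩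
    have ig : IntegrableOn (fun l => 1 + ‖f l‖) (ball (0 : ℂ) 1 \ closedBall 0 (1 - 2 * η')) :=
      IntegrableOn.mono_set (t := ball (0 : ℂ) 1)
        ((integrable_const (μ := μD) (1 : ℝ)).add hfi1.norm) sdiff_subset
    have hKE : A ∩ closedBall ζ ρ ⊆ ball (0 : ℂ) 1 \ closedBall 0 (1 - 2 * η') := by
      intro w hw
      refine ⟨hAb hw.1, fun hc => ?_⟩
      have := mem_closedBall_zero_iff.mp hc
      linarith [hw.1.1]
    have iP : Integrable (fun l => ‖Φ l‖) (volume.restrict (A ∩ closedBall ζ ρ)) :=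
      (hΦd.continuousOn.mono hKU).norm.integrableOn_compact hK
    have ig' : Integrable (fun l => D * δ * (1 + ‖f l‖)) (volume.restrict (A ∩ closedBall ζ ρ)) :=
      (ig.mono_set hKE).const_mul _
    have hu := annulus_upper' (P := fun l => ‖Φ l‖ - D * δ * (1 + ‖f l‖)) hν d0 d2 hK
      (fun w hw => hAb hw.1) (fun l hl => hl.1.1) (iP.sub ig') (by
        intro l hl
        have k1 : 1 - δ ≤ ‖l‖ := hl.1.1
        have k2 : ‖l‖ ≤ 1 - δ / 2 := hl.1.2
        have k3 : 0 < ‖l‖ := by linarith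
        have hcl : conj l ≠ 0 := by simpa using norm_pos_iff.mp k3
        refine ⟨(conj l)⁻¹, ?_, ?_, ?_⟩
        · rw [norm_inv, Complex.norm_conj, ← one_div, le_div_iff₀ k3]
          nlinarith
        · have e : l - (conj l)⁻¹ = ((‖l‖ ^ 2 - 1 : ℝ) : ℂ) / conj l := by
            push_cast
            rw [← Complex.mul_conj']
            field_simp
          rw [e, norm_div, Complex.norm_conj, Complex.norm_real, Real.norm_eq_abs,
            abs_of_nonpos (by nlinarith), div_le_iff₀ k3]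
          nlinarith
        · have k4 := hcmp l (hKU hl)
          have k5 : D * (1 - ‖l‖) * (1 + ‖f l‖) ≤ D * δ * (1 + ‖f l‖) := by
            have : 1 - ‖l‖ ≤ δ := by linarith
            gcongr
          linarith)
    rw [integral_sub iP ig', integral_const_mul] at hu
    have s3 : ∫ l in A ∩ closedBall ζ ρ, (1 + ‖f l‖)
        ≤ ∫ l in ball (0 : ℂ) 1 \ closedBall 0 (1 - 2 * η'), (1 + ‖f l‖) :=
      setIntegral_mono_set ig (Eventually.of_forall fun _ => by positivity)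
        (LE.le.eventuallyLE hKE)
    have s4 := mul_le_mul_of_nonneg_left s3 (show 0 ≤ D * δ by positivity)
    set T1 := ∫ w in ball (0 : ℂ) 1 \ closedBall 0 (1 - 2 * η'), ‖G w * conj (f w)‖ with hT1
    set T2 := ∫ l in ball (0 : ℂ) 1 \ closedBall 0 (1 - 2 * η'), (1 + ‖f l‖) with hT2
    calc _ ≤ π * (9 * δ ^ 2 / η' ^ 3 * I) + 729 * δ * J * T1 + D * δ * T2 := by linarith
      _ = δ * (δ * (π * (9 / η' ^ 3 * I)) + (729 * J * T1 + D * T2)) := by ring
      _ ≤ δ * e := mul_le_mul_of_nonneg_left (by linarith) d0.le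
      _ = e * δ := mul_comm _ _
  have hΦ0 := local_vanish hζ hρ (by linarith) hΦd hgrow hsm
  by_cases hb : ∃ b ∈ U, G b + M b ≠ 0
  · left
    obtain ⟨b, hbU, hgb⟩ := hb
    have h1 : ∀ᶠ u in 𝓝 b, G u + M u ≠ 0 :=
      (((hGd.mono inter_subset_right).add hMU).differentiableAt
        (hUo.mem_nhds hbU)).continuousAt.eventually_ne hgb
    have h2 : ∀ᶠ u in 𝓝 b, F u = conj c := by
      filter_upwards [h1, hUo.mem_nhds hbU] with u hu huU
      have := (mul_eq_zero.mp ((mul_eq_zero.mp (hΦ0 huU)).resolve_left hπ)).resolve_left hu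
      exact (sub_eq_zero.mp this).symm
    have h3 : f =ᶠ[𝓝 b] 0 := by
      filter_upwards [h2.eventually_nhds, hUo.mem_nhds hbU] with u hu huU
      exact (hF u huU.2).unique ((hasDerivAt_const u (conj c)).congr_of_eventuallyEq hu)
    exact fun w hw => (hfd.analyticOnNhd isOpen_ball).eqOn_zero_of_preconnected_of_eventuallyEq_zero
      (convex_ball _ _).isPreconnected hbU.2 h3 hw
  · right
    push Not at hb
    exact ⟨2 * ρ, by linarith, fun l hl hl1 => hb l ⟨hl, mem_ball_zero_iff.mpr hl1⟩⟩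

end Pool.Agent.Lib.MP_435399_an
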